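import Pool.Agent.P.MP_4ef411_nt.Al.St
import Pool.Agent.P.MP_a14ce1_nt.Fu.DaTop

/-! Section 3 with one function for each site. -/

open Finset

namespace Pool.Agent.P.MP_4ef411_nt.Al

open Pool.Agent.P.MP_a14ce1_nt
open Pool.Agent.P.MP_a14ce1_nt.Fu
open Pool.Agent.P.MP_a14ce1_nt.Fu.St
open Pool.Agent.P.MP_a14ce1_nt.Fu.St.Cp
open Pool.Agent.P.MP_a14ce1_nt.Ch (pv)

namespace Comp

/-- the fields of the role `i0` for the code given by `(Θ, e)` -/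
noncomputable def xm (F : Fam) (P : Par) {A : Type} (dt : ℕ → A) (Z : ℕ) (C0 : ℕ → Finset ℕ)
    (X : ℕ → ℕ → ℝ) (i0 : ℕ) (Θ : Finset (Fin F.N)) (e : EE F P) : ℕ → Fin Z → ℕ → ℝ :=
  mx (fun i n b => X i (n + b)) (fun i => pred Z F.Qk dt (cd F P C0 Θ e) F.z (X i)) i0

variable {F : Fam} {P : Par}

theorem insM (h : Hyp0 F P) {A : Type} (dt : ℕ → A) (Z : ℕ) (C0 : ℕ → Finset ℕ) (X : ℕ → ℕ → ℝ) (s : ℕ → ℝ)
    (i0 : ℕ) (e : EE F P) :
    ET F P (fun Θ => F.ms Z fun n a c p => Fu.ind (gE F P i0 e n a c p) *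
      (s (pv c * p) * ∏ i ∈ range F.k, xm F P dt Z C0 X i0 Θ e i n (a + i * (pv c * p)))) =
    ET F P (fun Θ => F.ms Z fun n a c p => Fu.ind (gE F P i0 e n a c p) *
      ((∏ i ∈ (range F.k).erase i0, ith F P Θ (a + i * (pv c * p))) *
      (s (pv c * p) * ∏ i ∈ range F.k, xm F P dt Z C0 X i0 Θ e i n (a + i * (pv c * p))))) := by
  rw [ms_ET, ms_ET]
  refine F.ms_congr fun n a c p _ _ _ hw ha => ?_
  by_cases hg : gE F P i0 e n a c p
  swap
  · simp only [ind_neg hg, zero_mul]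
  simp only [ind_pos hg, one_mul]
  have d0 : 0 < pv c * p := by
    have : (0 : ℝ) < (pv c * p : ℕ) := by linarith [hw.1, h.D20]
    exact_mod_cast this
  rw [ET_ins h ((range F.k).erase i0) (fun i => a + i * (pv c * p))
    (fun i _ j _ e => Nat.eq_of_mul_eq_mul_right d0 (Nat.add_left_cancel e))
    (fun i hi => (hg.2.2.2 i hi).1)]
  rintro Θ b ⟨i, hi, hb⟩
  have nb : b ∉ Pa F P e n := by
    obtain ⟨l, -, c'⟩ := hg.2.2.2 i hi
    rwa [show (⟨a + i * (pv c * p), l⟩ : Fin F.N) = b from Fin.ext hb] at c'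
  have e1 : cd F P C0 (insert b Θ) e (n % F.Qk) = cd F P C0 Θ e (n % F.Qk) := by
    rw [cd, cd, code_geo, code_geo, Pa_mod, inter_insert_of_notMem nb]
  congr 1
  refine prod_congr rfl fun j _ => ?_
  simp only [xm, mx, pred_congr dt F.z _ n _ e1]

theorem f_ceM (h : Hyp0 F P) {A : Type} (dt : ℕ → A) (Z : ℕ) (C0 : ℕ → Finset ℕ) {X : ℕ → ℕ → ℝ}
    (hX : ∀ i n, |X i n| ≤ 1) (i0 : ℕ) (Θ : Finset (Fin F.N)) (e : EE F P) (a : Fin F.N) (n0 : Fin Z)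
    (y : Fi F Z n0) :
    ce (sig (Dt F dt Z n0) ((geo F P C0 Θ (n0 % F.Qk)).code (phi e)))
      (fun y => F.z (y.1 + a) * xm F P dt Z C0 X i0 Θ e i0 y.1 a) y = 0 := by
  rw [sig_cd, ← ce_glue (fun n : Fin Z => (n : ℕ) % F.Qk) (fun n b => dt (n + b))
    (cd F P C0 Θ e) (fun n => F.z (n + a) * xm F P dt Z C0 X i0 Θ e i0 n a) y]
  simp only [xm, mx, lt_irrefl, if_false, if_true]
  exact ce_yr (gl Z F.Qk dt (cd F P C0 Θ e)) (ζ := fun n => F.z (n + a)) (X := fun n => X i0 (n + a))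
    (fun _ => h.ze0 _) (fun _ => hX _ _) y.1

theorem q_msM (h : Hyp0 F P) {A : Type} (dt : ℕ → A) (Z : ℕ) (C0 : ℕ → Finset ℕ) {X : ℕ → ℕ → ℝ}
    (hdt : ∀ n n', dt n = dt n' → (∀ i, X i n = X i n') ∧ F.z n = F.z n') (s : ℕ → ℝ) (i0 : ℕ)
    (Θ : Finset (Fin F.N)) (e : EE F P) (a : Fin F.N) (n0 : Fin Z) {u : Finset ℕ}
    (hu : u ∈ CC F 0) (h0 : tau F P i0 (n0 % F.Qk) a u ≠ 0) :
    Ms (sig (Dt F dt Z n0) ((geo F P C0 Θ (n0 % F.Qk)).code (phi e) ∪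
      (geo F P C0 Θ (n0 % F.Qk)).Z0 ∩ (geo F P C0 Θ (n0 % F.Qk)).cell u))
      fun y => Q0 F P s (xm F P dt Z C0 X i0 Θ e) i0 Θ e a u y.1 := by
  intro y y' hy
  have m1 : (y.1 : ℕ) % F.Qk = n0 % F.Qk := y.2
  have m2 : (y'.1 : ℕ) % F.Qk = n0 % F.Qk := y'.2
  have us : u ⊆ As F (n0 % F.Qk) a := by
    by_contra c
    exact h0 (by rw [tau, Cp.bs, if_neg fun d => c d.2, zero_mul])
  have gl1 : gl Z F.Qk dt (cd F P C0 Θ e) y.1 y'.1 := by
    refine ⟨m1.trans m2.symm, fun b hb => ?_⟩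
    change b ∈ cd F P C0 Θ e (y.1 % F.Qk) at hb
    rw [m1] at hb
    obtain ⟨c, hc, rfl⟩ := mem_map.1 hb
    exact hy c (mem_union_left _ hc)
  change Q0 F P s _ i0 Θ e a u y.1 = Q0 F P s _ i0 Θ e a u y'.1
  unfold Q0
  rw [← gs_mod i0 y.1, ← gs_mod i0 y'.1, ← F0_mod i0 y.1, ← F0_mod i0 y'.1, m1, m2]
  congr 1
  refine sum_congr rfl fun g hg => ?_
  congr 2
  refine prod_congr rfl fun i _ => ?_
  have hs := fun hb => sub_As_st (i := i) us hg hb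
  generalize st i0 a (pv g * pv u) i = b at hs ⊢
  rw [← propext (og_mod e y.1 b), ← propext (og_mod e y'.1 b), m1, m2]
  by_cases c1 : og F P e (n0 % F.Qk) b
  swap
  · rw [ind_neg c1, zero_mul, zero_mul, mul_zero, mul_zero]
  by_cases c2 : ∃ h : b < F.N, (⟨b, h⟩ : Fin F.N) ∈ Θ
  swap
  · simp only [ith, ind_neg c2, zero_div, mul_zero, zero_mul]
  obtain ⟨hb, c1, -⟩ := c1
  obtain ⟨_, c2⟩ := c2
  obtain ⟨d1, d2⟩ := hdt _ _ (hy ⟨b, hb⟩ (mem_union_right _ (mem_inter.2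
    ⟨mem_inter.2 ⟨c2, c1⟩, (Geo.mem_cell _).2 (hs hb)⟩)))
  have d3 : F.W (pr F u) (y.1 + b) = F.W (pr F u) (y'.1 + b) := by
    change wa F _ _ * F.z _ = wa F _ _ * F.z _
    rw [← wa_mod, ← wa_mod _ y'.1, m1, m2]
    exact congrArg _ d2
  have d4 : pred Z F.Qk dt (cd F P C0 Θ e) F.z (X i) y.1 b =
      pred Z F.Qk dt (cd F P C0 Θ e) F.z (X i) y'.1 b := ms_yr _ _ _ _ _ gl1
  have d5 : X i (y.1 + b) = X i (y'.1 + b) := d1 i
  simp only [xm, mx, d3, d4, d5]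

theorem abs_xxM (h : Hyp0 F P) {A : Type} (dt : ℕ → A) (Z : ℕ) (C0 : ℕ → Finset ℕ) {X : ℕ → ℕ → ℝ}
    (hX : ∀ i n, |X i n| ≤ 1) (i0 : ℕ) (Θ : Finset (Fin F.N)) (e : EE F P) (i : ℕ) (n : Fin Z)
    (b : ℕ) : |xm F P dt Z C0 X i0 Θ e i n b| ≤ if i = i0 then 2 else 1 := by
  have a : |pred Z F.Qk dt (cd F P C0 Θ e) F.z (X i) n b| ≤ 1 :=
    abs_yr_le _ (fun _ => h.ze0 _) (fun _ => hX _ _) n
  have c := hX i (n + b)
  unfold xm mx
  by_cases e : i = i0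
  · rw [if_neg (by omega), if_pos e, if_pos e]
    exact (abs_sub _ _).trans (by linarith)
  · rw [if_neg e, if_neg e]
    split_ifs
    exacts [a, c]

theorem abs_sxM (h : Hyp0 F P) {A : Type} (dt : ℕ → A) (Z : ℕ) (C0 : ℕ → Finset ℕ) {X : ℕ → ℕ → ℝ}
    (hX : ∀ i n, |X i n| ≤ 1) (i0 : ℕ) (Θ : Finset (Fin F.N)) (e : EE F P) (n : Fin Z) {t : ℝ}
    (ht : |t| ≤ 1) (b : ℕ → ℕ) :
    |t * ∏ i ∈ range F.k, xm F P dt Z C0 X i0 Θ e i n (b i)| ≤ 2 := by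
  rw [abs_mul, abs_prod]
  refine (mul_le_of_le_one_left (prod_nonneg fun _ _ => abs_nonneg _) ht).trans
    ((prod_le_prod (fun _ _ => abs_nonneg _)
      fun i _ => abs_xxM h dt Z C0 hX i0 Θ e i n (b i)).trans ?_)
  rw [prod_ite_eq']
  split_ifs <;> norm_num

/-- one role -/
theorem role_leM {CA : ℕ} (h : Hyp F P 10) {A : Type} [Fintype A] (dt : ℕ → A) {Z : ℕ}
    {C0 : ℕ → Finset ℕ} {X : ℕ → ℕ → ℝ} {s : ℕ → ℝ} (hD : Dat F P A Z C0)
    (hdt : ∀ n n', dt n = dt n' → (∀ i, X i n = X i n') ∧ F.z n = F.z n') (hX : ∀ i n, |X i n| ≤ 1)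
    (hs : ∀ d, |s d| ≤ 1) {i0 : ℕ} (hi : i0 < F.k)
    (aco : ∀ (f : Finset (Fin F.N) → EE F P → Fin F.N → Fin Z → ℝ)
      (Q : Finset (Fin F.N) → EE F P → Fin F.N → Finset ℕ → Fin Z → ℝ),
      (∀ Θ e a n, |f Θ e a n| ≤ 2 * F.z (n + a)) →
      (∀ Θ e a (n0 : Fin Z) (y : Fi F Z n0),
        ce (sig (Dt F dt Z n0) ((geo F P C0 Θ (n0 % F.Qk)).code (phi e)))
          (fun y => f Θ e a y.1) y = 0) →
      (∀ Θ e a u n, |Q Θ e a u n| ≤ (6 : ℕ) / P.η) →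
      (∀ Θ e a (n0 : Fin Z), ∀ u ∈ CC F 0, tau F P i0 (n0 % F.Qk) a u ≠ 0 →
        Ms (sig (Dt F dt Z n0) ((geo F P C0 Θ (n0 % F.Qk)).code (phi e) ∪
          (geo F P C0 Θ (n0 % F.Qk)).Z0 ∩ (geo F P C0 Θ (n0 % F.Qk)).cell u))
          fun y => Q Θ e a u y.1) →
      ET F P (fun Θ => ex fun e : EE F P => ex fun n : Fin Z =>
        ∑ a, ∑ u ∈ CC F 0, tau F P i0 (n % F.Qk) a u * Q Θ e a u n ^ 2) ≤ (6 : ℕ) →
      ET F P (fun Θ => ex fun e : EE F P => ex fun n : Fin Z =>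
        ∑ a, ∑ u ∈ CC F 0, tau F P i0 (n % F.Qk) a u * (f Θ e a n * Q Θ e a u n)) ≤ CA * P.η) :
    ET F P (fun Θ => ex fun e : EE F P => F.Tf Z s (xm F P dt Z C0 X i0 Θ e))
      ≤ (CA + 50 + 32 * F.k) * P.η := by
  have h0 := h.toHyp0
  have η0 := h.η0
  have G0 : (0 : ℝ) < (6 : ℕ) / P.η := by positivity
  have z0 : ∀ n, 0 ≤ F.z n := fun n => h.ze0 _
  have hx1 : ∀ Θ e i n b, i ≠ i0 → |xm F P dt Z C0 X i0 Θ e i n b| ≤ 1 := fun Θ e i n b hi => by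
    simpa only [if_neg hi] using abs_xxM h0 dt Z C0 hX i0 Θ e i n b
  have hf : ∀ Θ e (a : Fin F.N) (n : Fin Z),
      |F.z (n + a) * xm F P dt Z C0 X i0 Θ e i0 n a| ≤ 2 * F.z (n + a) := fun Θ e a n => by
    rw [abs_mul, abs_of_nonneg (z0 _), mul_comm]
    exact mul_le_mul_of_nonneg_right
      (by simpa only [if_pos] using abs_xxM h0 dt Z C0 hX i0 Θ e i0 n a) (z0 _)
  have s2 := sec h hD.Z0 hD.per hi hs hx1
  set q : Finset (Fin F.N) → EE F P → Fin F.N → Finset ℕ → Fin Z → ℝ :=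
    fun Θ e a u n => Q0 F P s (xm F P dt Z C0 X i0 Θ e) i0 Θ e a u n with hq
  have lift : ∀ {φ ψ : Finset (Fin F.N) → EE F P → Fin F.N → Finset ℕ → Fin Z → ℝ} {t : ℝ},
      (∀ Θ e a u n, φ Θ e a u n ≤ ψ Θ e a u n +
        t * ((1 + F.z (n + a)) / 2 * q Θ e a u n ^ 2)) → 0 ≤ t →
      ET F P (fun Θ => ex fun e : EE F P => ex fun n : Fin Z =>
        ∑ a, ∑ u ∈ CC F 0, tau F P i0 n a u * φ Θ e a u n) ≤
      ET F P (fun Θ => ex fun e : EE F P => ex fun n : Fin Z =>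
        ∑ a, ∑ u ∈ CC F 0, tau F P i0 n a u * ψ Θ e a u n) + t * 3 := by
    intro φ ψ t hh ht
    refine le_trans ?_ (add_le_add le_rfl (mul_le_mul_of_nonneg_left s2 ht))
    rw [← ET_mul, ← ET_add]
    refine ET_mono h0 fun Θ => ?_
    rw [← ex_mul, ← ex_add]
    refine ex_mono fun e => ?_
    rw [← ex_mul, ← ex_add]
    refine ex_mono fun n => ?_
    simp only [mul_sum, ← sum_add_distrib]
    refine sum_le_sum fun a _ => sum_le_sum fun u _ => ?_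
    have := mul_le_mul_of_nonneg_left (hh Θ e a u n) (tau_nonneg h0 i0 n a u)
    simp only [hq] at this
    linarith
  have k1 := aco (fun Θ e a n => F.z (n + a) * xm F P dt Z C0 X i0 Θ e i0 n a)
    (fun Θ e a u n => clip ((6 : ℕ) / P.η) (q Θ e a u n)) hf
    (fun Θ e a n0 y => f_ceM h0 dt Z C0 hX i0 Θ e a n0 y) (fun _ _ _ _ _ => abs_clip G0.le _)
    (fun Θ e a n0 u hu t0 => (q_msM h0 dt Z C0 hdt s i0 Θ e a n0 hu t0).comp _)
    (by
      simp only [tau_mod]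
      refine (lift (ψ := fun _ _ _ _ _ => 0) (t := 2) (fun Θ e a u n => ?_) (by norm_num)).trans ?_
      · have := clip_sq G0.le (q Θ e a u n)
        have := mul_nonneg (z0 (n + a)) (sq_nonneg (q Θ e a u n))
        linarith
      · simp only [mul_zero, sum_const_zero, ex_zero, ET_const]; norm_num)
  simp only [tau_mod] at k1
  have k2 := (lift (φ := fun Θ e a u n => F.z (n + a) * xm F P dt Z C0 X i0 Θ e i0 n a *
      q Θ e a u n) (t := 2 / 3 * P.η) (fun Θ e a u n => by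
    have a1 := sub_clip G0 (q Θ e a u n)
    have a2 := mul_le_mul (hf Θ e a n) a1 (abs_nonneg _) (by linarith [z0 (n + a)])
    rw [← abs_mul] at a2
    have a3 := (le_abs_self _).trans a2
    have a4 : 2 * F.z (n + a) * (q Θ e a u n ^ 2 / ((6 : ℕ) / P.η)) =
        P.η / 3 * (F.z (n + a) * q Θ e a u n ^ 2) := by push_cast; field_simp; ring
    have a5 := mul_nonneg η0.le (sq_nonneg (q Θ e a u n))
    rw [a4] at a3
    linarith) (by positivity)).trans (add_le_add k1 le_rfl)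
  have k3 := bad h hD.Z0 hD.per i0
  have k4 : ∀ Θ e, F.Tf Z s (xm F P dt Z C0 X i0 Θ e) ≤
      (F.ms Z fun n a c p => Fu.ind (gE F P i0 e n a c p) *
        (s (pv c * p) * ∏ i ∈ range F.k, xm F P dt Z C0 X i0 Θ e i n (a + i * (pv c * p)))) +
      2 * F.ms Z fun n a c p => Fu.ind (¬gE F P i0 e n a c p) := fun Θ e => by
    rw [Fam.Tf_eq, ← Fam.ms_mul, ← Fam.ms_add]
    refine h0.ms_mono fun n a c p _ _ _ _ _ _ _ => ?_
    by_cases g : gE F P i0 e n a c p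
    · rw [ind_pos g, ind_neg (not_not.2 g)]; simp
    · rw [ind_neg g, ind_pos g, zero_mul, zero_add, mul_one]
      exact (le_abs_self _).trans (abs_sxM h0 dt Z C0 hX i0 Θ e n (hs _) _)
  refine (ET_mono h0 fun Θ => ex_mono (k4 Θ)).trans ?_
  simp only [ex_add, ex_mul, ET_add, ET_const]
  rw [ET_ex, ex_congr fun e => insM h0 dt Z C0 X s i0 e, ← ET_ex]
  simp only [reg h0 s _ hi]
  linarith

theorem comp_of_aco (aco : ACO) : Al.S_COMP := by
  intro k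
  obtain ⟨CA, hA⟩ := aco k 6 (by norm_num)
  refine ⟨k * (CA + 66 + 32 * k) + CA + 10, fun F P hk h A _ dt Z C0 X s hD hdt hX hs => ?_⟩
  subst hk
  have h10 : Hyp F P 10 := h.mono (by omega)
  have h0 := h.toHyp0
  have η0 := h.η0
  have := ee_nonempty h0
  have cE := card_pos' (Ω := EE F P)
  have key : ∀ φ : Finset (Fin F.N) → EE F P → ℝ,
      ∑ i : Finset (Fin F.N) × EE F P, Maj.pS (fun _ => P.vt) univ i.1 / Fintype.card (EE F P) *
        φ i.1 i.2 = ET F P fun Θ => ex fun e => φ Θ e := fun φ => by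
    rw [Fintype.sum_prod_type, ET]
    refine sum_congr rfl fun Θ _ => ?_
    simp only [ex, ← mul_sum]
    ring
  obtain ⟨⟨Θ, e⟩, -, k1, k2⟩ := pick univ
    (fun i : Finset (Fin F.N) × EE F P => Maj.pS (fun _ => P.vt) univ i.1 / Fintype.card (EE F P))
    (fun i => ∑ i0 ∈ range F.k, F.Tf Z s (xm F P dt Z C0 X i0 i.1 i.2))
    (fun i => nw F P Z C0 i.1 i.2) (a := F.k * ((CA + 50 + 32 * F.k) * P.η)) (b := F.k * 16)
    (T := top F P)
    (fun i _ => div_nonneg (Maj.pS_nonneg (fun _ _ => ⟨h.vt0.le, h.vt1⟩) (subset_univ _)) cE.le)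
    (by simpa only [mul_one, ex_const, ET_const] using key fun _ _ => 1) η0
    (fun i _ => by
      have : ∀ i0 ∈ range F.k, (-16 : ℝ) ≤ F.Tf Z s (xm F P dt Z C0 X i0 i.1 i.2) :=
        fun i0 _ => by
          have a := h0.ms_mono (Φ := fun _ _ _ _ => -2 * 1) (Ψ := fun n a c p => s (pv c * p) *
            ∏ j ∈ range F.k, xm F P dt Z C0 X i0 i.1 i.2 j n (a + j * (pv c * p)))
            fun n a c p _ _ _ _ _ _ _ => by
              have := abs_sxM h0 dt Z C0 hX i0 i.1 i.2 n (hs (pv c * p))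
                fun j => a + j * (pv c * p)
              linarith [(abs_le.1 this).1]
          rw [Fam.ms_mul, ← Fam.Tf_eq] at a
          linarith [ms_one h10 hD.Z0 hD.per]
      have := card_nsmul_le_sum _ _ _ this
      rw [card_range, nsmul_eq_mul] at this
      linarith)
    (fun i _ => div_nonneg (ex_nonneg fun _ => Nat.cast_nonneg _) (Nat.cast_nonneg _))
    (by
      rw [key fun Θ e => ∑ i0 ∈ range F.k, F.Tf Z s (xm F P dt Z C0 X i0 Θ e)]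
      simp only [ex_sum, ET_sum]
      refine (sum_le_card_nsmul _ _ _ fun i0 hi => role_leM h10 dt hD hdt hX hs (mem_range.1 hi)
        (hA F P rfl (h.mono (by omega)) A dt Z C0 i0 hD)).trans ?_
      rw [card_range, nsmul_eq_mul])
    (by rw [key fun Θ e => nw F P Z C0 Θ e]; exact m_nw h0 hD.Z0 hD.per C0)
  have t0 : 0 ≤ top F P := h.σn _ _
  have k0 : (0 : ℝ) ≤ F.k := Nat.cast_nonneg _
  have c0 : (0 : ℝ) ≤ CA := Nat.cast_nonneg _
  have η1 := h.η1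
  refine ⟨cd F P C0 Θ e, cd_sub C0 Θ e, sub_cd hD.sub Θ e,
    (size_le Z C0 Θ e).trans (add_le_add le_rfl (k2.trans ?_)), k1.trans ?_⟩
  · refine div_le_div_of_nonneg_right (mul_le_mul_of_nonneg_right ?_ t0) η0.le
    push_cast
    have : (CA + 50 + 32 * F.k) * P.η ≤ CA + 50 + 32 * F.k :=
      mul_le_of_le_one_right (by positivity) (by linarith)
    nlinarith [mul_le_mul_of_nonneg_left this k0]
  · push_cast
    nlinarith [mul_nonneg k0 η0.le, mul_nonneg c0 η0.le]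

end Comp

theorem comp : S_COMP := Comp.comp_of_aco aco

end Pool.Agent.P.MP_4ef411_nt.Al
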