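import Pool.Agent.P.MP_4ef411_nt.Al.St

/-! Section 1, with room for a larger alphabet: the size parameter is replaced by its square. -/

set_option autoImplicit false

open Finset

namespace Pool.Agent.P.MP_4ef411_nt.Al

open Pool.Agent.P.MP_a14ce1_nt
open Pool.Agent.P.MP_a14ce1_nt.Fu
open Pool.Agent.P.MP_a14ce1_nt.Fu.St

namespace ParSq

/-- the parameters with the size replaced by its square -/
noncomputable def sq (P : Par) : Par := { P with Λ := P.Λ ^ 2 }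

theorem two_le {F : Fam} {P : Par} (h : Hyp0 F P) : 2 ≤ P.Λ := by
  have k2 : (2 : ℝ) ≤ F.k := by exact_mod_cast h.k2
  linarith [h.Lk]

theorem le_sq {F : Fam} {P : Par} (h : Hyp0 F P) : P.Λ ≤ P.Λ ^ 2 := by
  nlinarith [two_le h]

theorem hyp0 {F : Fam} {P : Par} (h : Hyp0 F P) : Hyp0 F (sq P) := by
  have h1 := le_sq h
  have h2 := two_le h
  have hm : ∀ x y : ℝ, 0 < x → x ≤ P.Λ * y → x ≤ P.Λ ^ 2 * y := fun x y hx hy => by
    have hy0 : 0 ≤ y := by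
      by_contra hn
      nlinarith [not_le.1 hn]
    exact hy.trans (mul_le_mul_of_nonneg_right h1 hy0)
  exact
    { h with
      LL2 := hm _ _ two_pos h.LL2
      wkL := fun T => (h.wkL T).trans h1
      zeL := fun T => (h.zeL T).trans h1
      Lk := h.Lk.trans h1
      Lm := h.Lm.trans h1
      Lη := hm _ _ one_pos h.Lη
      Lκ := hm _ _ one_pos h.Lκ
      Lε := hm _ _ one_pos h.Lε
      LCw := h.LCw.trans h1
      LCsb := h.LCsb.trans h1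
      LCl := h.LCl.trans h1
      logD := h.logD.trans (mul_le_mul_of_nonneg_right h1 (zero_le_one.trans h.Lp1))
      sb3 := fun x => (h.sb3 x).trans
        (div_le_div_of_nonneg_right (pow_le_pow_left₀ (by linarith) h1 2) (sq_nonneg _)) }

theorem hyp {F : Fam} {P : Par} {C : ℕ} (h : Hyp F P (2 * C)) : Hyp F (sq P) C := by
  have h' : Hyp F P C := h.mono (by omega)
  have L2 := two_le h.toHyp0
  have e1 : (P.Λ ^ 2) ^ C = P.Λ ^ (2 * C) := by rw [pow_mul]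
  have e2 : (P.Λ ^ 2) ^ (C * F.k) = P.Λ ^ (2 * C * F.k) := by rw [mul_assoc, pow_mul P.Λ 2]
  have hr : (C : ℝ) ≤ ((2 * C : ℕ) : ℝ) := by exact_mod_cast (by omega : C ≤ 2 * C)
  have v0 := h.vt0
  have v1 : P.Λ ^ 2 / P.vt ≤ (P.Λ / P.vt) ^ 2 := by
    rw [div_pow]
    exact div_le_div_of_nonneg_left (sq_nonneg _) (by positivity) (by nlinarith [h.vt1])
  have p3 : (P.Λ ^ 2 / P.vt) ^ (C * F.k) ≤ (P.Λ / P.vt) ^ (2 * C * F.k) := by
    rw [mul_assoc, pow_mul (P.Λ / P.vt) 2]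
    exact pow_le_pow_left₀ (by positivity) v1 _
  have hhi : ∀ t, 0 ≤ P.hi t := fun t => by linarith [h.hi1 t]
  have hH : 0 ≤ Hi F P := prod_nonneg fun t _ => hhi t
  have hT : 0 ≤ top F P := h.σn _ _
  have := h.σin0
  have := h.Lp1
  refine ⟨hyp0 h.toHyp0, ?_, h'.κη, h'.Jr, ?_, fun t ht w hw => ?_, fun s hs => ?_, ?_, ?_⟩
  · show (P.Λ ^ 2) ^ (C * F.k) * (1 + Real.log F.N) ≤ P.Ms
    rw [e2]
    exact h.ind
  · show (P.Λ ^ 2 / P.vt) ^ (C * F.k) * (P.La 0 + 2) ^ 2 ≤ P.Δ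
    exact le_trans (mul_le_mul_of_nonneg_right p3 (sq_nonneg _)) h.diag
  · show (P.Λ ^ 2) ^ C * P.J (t + 1) ^ 2 * (P.La t + 2) * P.σ t w ≤ ph F P (t + 1) w
    rw [e1]
    exact h.pin t ht w hw
  · show (C : ℝ) ^ F.m * (P.Λ ^ 2) ^ C * (P.La s + 2) *
      (P.hi s / P.lo s * P.σ (s - 1) (P.Wn - 1)) ≤ 1
    rw [e1]
    refine le_trans ?_ (h.hid s hs)
    have := h.La0 s
    have := h.σn (s - 1) (P.Wn - 1)
    have := hhi s
    have := h.lo0 s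
    gcongr
  · show (C : ℝ) ^ F.m * (P.Λ ^ 2) ^ C * Real.exp P.Lh * (Hi F P * P.σin + top F P) ≤ F.LL * F.Pw
    rw [e1]
    refine le_trans ?_ h.hidt
    gcongr
  · show (P.Λ ^ 2) ^ (C * F.k) * Real.exp (C * P.Lp) * P.σin ≤ 1
    rw [e2]
    refine le_trans ?_ h.test
    gcongr

theorem hyp7 {F : Fam} {P : Par} {C : ℕ} (h0 : Hyp0 F P) (h : Hyp7 F P (2 * C)) :
    Hyp7 F (sq P) C := by
  have L2 := two_le h0
  have h1 := le_sq h0
  have e1 : (P.Λ ^ 2) ^ C = P.Λ ^ (2 * C) := by rw [pow_mul]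
  have hr : (C : ℝ) ≤ ((2 * C : ℕ) : ℝ) := by exact_mod_cast (by omega : C ≤ 2 * C)
  have := h0.σin0
  have := h0.Lp1
  refine ⟨?_, ?_, ?_, ?_, ?_, ?_, fun q hq => ⟨(h.Ta q hq).1, ?_⟩, h.aM⟩
  · show Real.exp ((P.Λ ^ 2) ^ C) * (1 + Real.log F.N) ≤ P.Ms
    rw [e1]
    exact h.ind
  · show (P.Λ ^ 2) ^ C * Real.exp (C * P.Lp) * P.σin ≤ 1
    rw [e1]
    refine le_trans ?_ h.test
    gcongr
  · show P.Lp + (P.Λ ^ 2) ^ C ≤ P.M
    rw [e1]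
    exact h.Mlo
  · show P.M ≤ P.Λ ^ 2 * P.l F.m
    exact h.Mhi.trans (mul_le_mul_of_nonneg_right h1 (zero_le_one.trans (h0.l1 _)))
  · show (P.Λ ^ 2) ^ C ≤ Real.log P.M
    rw [e1]
    exact h.Mlog
  · show Real.exp (P.M + P.Lp) * (P.Λ ^ 2) ^ C ≤ F.D
    rw [e1]
    exact h.MD
  · show Real.log q ≤ P.a * P.Λ ^ 2
    have h2 := (h.Ta q hq).2
    have h3 := Real.log_natCast_nonneg q
    have h4 : 0 ≤ P.a := by
      by_contra hn
      nlinarith [not_le.1 hn]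
    exact h2.trans (mul_le_mul_of_nonneg_left h1 h4)

theorem chain {k C C2 S : ℕ} {ε η Cw Λ : ℝ} {T : Finset ℕ} {F : ℕ → Fam} {P : ℕ → Par}
    (h : Chain k (2 * C) (2 * C2) S ε η Cw Λ T F P) :
    Chain k C C2 S ε η Cw (Λ ^ 2) T F fun j => sq (P j) := by
  have h0 := (h.hyp 0 h.S0).1.toHyp0
  obtain ⟨-, -, -, -, e0, -, eΛ, -⟩ := h.com 0 h.S0
  have h1 := le_sq h0
  have η0 := h0.η0
  rw [eΛ] at h1
  rw [e0] at η0
  refine ⟨h.S0, fun j hj => ⟨hyp (h.hyp j hj).1, hyp7 (h.hyp j hj).1.toHyp0 (h.hyp j hj).2⟩,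
    fun j hj => ?_, h.sub, h.nxt, ?_, fun j hj => ?_, h.big⟩
  · obtain ⟨a1, a2, a3, a4, a5, a6, a7, a8⟩ := h.com j hj
    exact ⟨a1, a2, a3, a4, a5, a6, congrArg (· ^ 2) a7, a8⟩
  · obtain ⟨A, hA, dz, a1, a2⟩ := h.dz
    exact ⟨A, hA, dz, a1.trans h1, a2⟩
  · show ∑ i ∈ range j, C * top (F i) (P i) / η ≤ (P j).σin
    refine le_trans (sum_le_sum fun i hi => ?_) (h.sin j hj)
    have hT : 0 ≤ top (F i) (P i) := (h.hyp i ((mem_range.1 hi).trans hj)).1.σn _ _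
    have hr : (C : ℝ) ≤ ((2 * C : ℕ) : ℝ) := by exact_mod_cast (by omega : C ≤ 2 * C)
    gcongr

end ParSq

theorem par (h : Fu.St.S_PAR) : S_PAR := by
  intro k C M ε η hk ε0 ε1 η0 η1 hM
  obtain ⟨Cw, hC⟩ := h k (2 * C) ε η hk ε0 ε1 η0 η1
  refine ⟨Cw, fun C2 => ?_⟩
  obtain ⟨K, Λ, T, K0, hK, hp, hd, hc⟩ := hC (2 * C2)
  refine ⟨K, Λ ^ 2, T, K0, by rwa [← pow_mul, ← mul_assoc], hp, hd, fun i hi => ?_⟩
  obtain ⟨S, F, P, hch⟩ := hc i hi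
  obtain ⟨A, hA, dz, a1, a2⟩ := hch.dz
  refine ⟨S, F, _, ParSq.chain hch, A, hA, dz, ?_, a2⟩
  have h0 := (hch.hyp 0 hch.S0).1.toHyp0
  obtain ⟨-, -, -, -, e0, -, eΛ, -⟩ := hch.com 0 hch.S0
  have L2 := ParSq.two_le h0
  have Lη := h0.Lη
  rw [eΛ] at L2 Lη
  rw [e0] at Lη
  rcases Nat.eq_zero_or_pos M with rfl | M0
  · simp only [Nat.cast_zero, zero_mul, Real.log_zero]
    positivity
  have c0 : (0 : ℝ) < Fintype.card A := by
    exact_mod_cast Fintype.card_pos_iff.2 ⟨dz 0⟩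
  have m0 : (0 : ℝ) < M := by exact_mod_cast M0
  have b1 : (M : ℝ) ≤ Λ := le_of_mul_le_mul_right (hM.trans Lη) η0
  have b2 : Real.log M ≤ M := Real.log_le_self m0.le
  have b3 : Real.log (Fintype.card A) ≤ Real.log (2 * Fintype.card A) :=
    Real.log_le_log c0 (by linarith)
  rw [Real.log_mul m0.ne' c0.ne']
  nlinarith

end Pool.Agent.P.MP_4ef411_nt.Al
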