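import Pool.Agent.P.MP_4ef411_nt.Al.St
import Pool.Agent.P.MP_a14ce1_nt.Fu.Sec7

/-! Section 7 without the model, one function for each site. -/

open Finset
open scoped ComplexConjugate

namespace Pool.Agent.P.MP_4ef411_nt.Al

open Pool.Agent.P.MP_a14ce1_nt
open Pool.Agent.P.MP_a14ce1_nt.Fu

namespace Sec7

open Pool.Agent.P.MP_a14ce1_nt.V (dy cube gow win)
open Pool.Agent.P.MP_a14ce1_nt.Ax (res pc Good)
open Pool.Agent.P.MP_a14ce1_nt.Fu.C7
open Pool.Agent.P.MP_a14ce1_nt.Fu.S7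

/-- One cell, one function for each role. -/
def S_CellM : Prop := ∀ (r D : ℕ) (δ : ℝ), 0 < δ → ∃ (A : Set (ℤ → ℂ)) (C : ℕ), Good A ∧
  Sh (res A) ∧ (fun _ => 1) ∈ res A ∧ ∀ (Om : ℝ) (H Y i0 : ℕ) (P : Finset ℕ) (θ : ℕ → ℂ)
    (φ : ℕ → ℕ → ℂ) (w wb : ℕ → ℝ),
    2 ≤ Om → Om ^ C ≤ H → 2 ≤ Y → Y ≤ H → H ≤ D * Y → P ⊆ dy Y → (∀ p, ‖θ p‖ ≤ 1) → i0 ≤ r →
    (∀ i, ∀ m < H, ‖φ i m‖ ≤ w m ∧ w m ≤ Om ∧ 0 ≤ wb m ∧ wb m ≤ 1) →
    ∃ a ∈ res A, ‖form r H P θ φ‖ * Real.log Y ≤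
      δ * H + C * ‖∑ m ∈ range H, pc (φ i0) a m‖ +
        Real.exp (Om ^ C) * cube r (fun m => ((w m - wb m : ℝ) : ℂ)) 0 H * H

/-- first half of section 7 -/
def S_Sec7aM : Prop := ∀ (r L : ℕ) (δ : ℝ), 0 < δ → ∃ (A : Set (ℤ → ℂ)) (c2 : ℝ) (C : ℕ),
  Ax.Good A ∧ (fun _ => 1) ∈ Ax.res A ∧ 0 < c2 ∧ c2 ≤ 1 ∧
  ∀ (ι : Type) (Z : ℕ) (d : D7 ι Z) (G : ℕ → Fin Z → ℕ → ℝ) (i0 : ℕ) (Om wb τ ℓ : ℝ),
    d.Hyp r L 0 Om wb τ ℓ c2 (Real.exp (Om ^ C)) → Ext d G r i0 δ ℓ →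
    ∃ a : ℕ → ι → ℕ → ℂ, (∀ n c, a n c ∈ Ax.res A) ∧
      c2 / Om * (Z * d.N) ≤ ∑ n ∈ range Z, ∑ c ∈ d.CC, d.wh c *
        (∑ b ∈ cel d.N (d.cv c) n, Ax.pc (fun m => (d.f m : ℂ)) (a n c) ((n + b) / d.cv c)).re

theorem form_teleM (r H : ℕ) (P : Finset ℕ) (θ : ℕ → ℂ) (φ ψ : ℕ → ℕ → ℂ) :
    form r H P θ φ - form r H P θ ψ = ∑ j ∈ range (r + 1), form r H P θ
      fun i m => if i < j then ψ i m else if i = j then φ i m - ψ i m else φ i m := by
  unfold form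
  rw [← sum_sub_distrib, sum_comm]
  refine sum_congr rfl fun p _ => ?_
  rw [← mul_sub, ← mul_sum, ← sum_sub_distrib, sum_comm]
  congr 1
  exact sum_congr rfl fun m _ => prod_tele _ _ _

theorem cellM_of (hG : ∀ k, GI.GIst k) (hA : ∀ T k, Good (AxGI.AT T k)) : S_CellM := by
  intro r D δ hδ
  obtain ⟨C1, hC1, hN⟩ := gvn_bd r D
  set n : ℕ := 2 ^ (r + 1) with hn
  have hn1 : 1 ≤ n := Nat.one_le_two_pow
  obtain ⟨T, c0, H0, hc0, hI⟩ := AxGI.gi_win (hG r) (δ := (δ / 2) ^ n / C1) (by positivity)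
  obtain ⟨Cc, hV⟩ := conv_deg T r
  set c := min c0 1 with hc
  have hc1 : 0 < c := lt_min hc0 one_pos
  have hc2 : c ≤ 1 := min_le_right _ _
  obtain ⟨E1, hE1⟩ := ex_pow (C1 * (2 * (r + 1) / δ) ^ n) (2 * (r + 1) * n)
  obtain ⟨E2, hE2⟩ := ex_pow ((2 / c) ^ Cc) (2 * Cc)
  obtain ⟨E3, hE3⟩ := ex_pow (3 * 2 ^ (r + 2)) (2 * (n - 1) + (E1 + E2))
  obtain ⟨E4, hE4⟩ := ex_pow (C1 * 2 ^ r) (r + 1 + E3 * n)
  obtain ⟨E5, hE5⟩ := ex_pow (1 + 3 * n) (E4 + 2 * E3)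
  obtain ⟨E6, hE6⟩ := ex_pow H0 0
  obtain ⟨E7, hE7⟩ := exists_nat_ge (2 * (C1 * 2 ^ r) / c)
  have h1A : (fun _ => 1) ∈ res (AxGI.AT T r) := AxGI.mem_res.2 ⟨_, T.at_one r, fun _ => rfl⟩
  refine ⟨AxGI.AT T r, E5 + E6 + E7, hA T r, fun a ha x => ?_, h1A,
    fun Om H Y i0 P θ φ w wb hOm hH hY hYH hHY hP hθ hi0 hw => ?_⟩
  · obtain ⟨ψ, h1, e1⟩ := AxGI.mem_res.1 ha
    exact ⟨fun m => ψ (m + -x), AxGI.mem_res.2 ⟨_, AxGI.at_sh h1 (-x), fun _ => rfl⟩, fun m => by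
      rw [e1]; push_cast; rw [add_neg_cancel_comm]⟩
  have hO1 : (1 : ℝ) ≤ Om := by linarith
  have hO2 : Om + 1 ≤ Om ^ 2 := by nlinarith
  have hH0 : (0 : ℝ) < H := by exact_mod_cast (show 0 < H by omega)
  have hmono : ∀ a b : ℕ, a ≤ b → Om ^ a ≤ Om ^ b := fun a b h => pow_le_pow_right₀ hO1 h
  have hu := V.cube_nonneg r (fun m => ((w m - wb m : ℝ) : ℂ)) 0 H
  set u := cube r (fun m => ((w m - wb m : ℝ) : ℂ)) 0 H with hu'
  have hroot : C1 * 2 ^ r ≤ (C1 * 2 ^ r) ^ n :=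
    le_self_pow₀ (one_le_mul_of_one_le_of_one_le hC1 (one_le_pow₀ one_le_two)) (by omega)
  set η : ℝ := (Om ^ E3)⁻¹ with hη
  have hη0 : 0 < η := by positivity
  have hη1 : η ≤ 1 := inv_le_one_of_one_le₀ (one_le_pow₀ hO1)
  set e : ℝ := η * Real.exp (-(3 / η ^ 2)) with he
  have he0 : 0 < e := by positivity
  rcases le_or_gt u (e ^ n) with hU | hU
  swap
  · refine ⟨_, h1A, ?_⟩
    have h2 := hN H Y P θ (fun i m => ((Om⁻¹ : ℝ) : ℂ) * φ i m) 0 1 (C1 * 2 ^ r) hY hYH hHY hP hθ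
      (Nat.zero_le _) le_rfl (by positivity)
    have h3 : ∀ i, ∀ m < H, ‖((Om⁻¹ : ℝ) : ℂ) * φ i m‖ ≤ 1 := fun i m hm => by
      rw [norm_mul, Complex.norm_real, Real.norm_of_nonneg (by positivity),
        inv_mul_le_iff₀ (by positivity), mul_one]
      exact (hw i m hm).1.trans (hw i m hm).2.1
    have h4 := h2 (fun i _ _ => h3 i)
      ((mul_le_mul_of_nonneg_left (cube_le' r (h3 0)) (by linarith)).trans hroot)
    rw [form_smul r H P θ φ, norm_mul, norm_pow, Complex.norm_real,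
      Real.norm_of_nonneg (by positivity), one_pow, one_mul, inv_pow, mul_assoc,
      inv_mul_le_iff₀ (by positivity)] at h4
    have h5 : Om ^ (r + 1) * (C1 * 2 ^ r) ≤ Real.exp (Om ^ (E5 + E6 + E7)) * e ^ n := by
      have a1 : e ^ n = (Om ^ (E3 * n))⁻¹ * Real.exp (-(3 * n * Om ^ (2 * E3))) := by
        rw [he, mul_pow, ← Real.exp_nat_mul, hη, inv_pow, ← pow_mul, inv_pow, ← pow_mul]
        congr 2
        rw [div_inv_eq_mul, mul_comm E3 2]
        ring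
      have a2 : Om ^ E4 + 3 * n * Om ^ (2 * E3) ≤ Om ^ (E5 + E6 + E7) := by
        refine le_trans ?_ ((hE5 Om hOm).trans (hmono _ _ (by omega)))
        have := hmono E4 (E4 + 2 * E3) (by omega)
        have := mul_le_mul_of_nonneg_left (hmono (2 * E3) (E4 + 2 * E3) (by omega))
          (show (0 : ℝ) ≤ 3 * n by positivity)
        linarith
      rw [a1, mul_left_comm (Real.exp _), ← Real.exp_add, le_inv_mul_iff₀ (by positivity),
        ← mul_assoc, ← pow_add, mul_comm, add_comm (E3 * n)]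
      refine (hE4 Om hOm).trans ((by linarith [Real.add_one_le_exp (Om ^ E4)] :
        Om ^ E4 ≤ Real.exp (Om ^ E4)).trans (Real.exp_le_exp.2 (by linarith)))
    have h6 : Om ^ (r + 1) * (C1 * 2 ^ r * H) ≤ Real.exp (Om ^ (E5 + E6 + E7)) * u * H := by
      rw [← mul_assoc]
      exact mul_le_mul_of_nonneg_right
        (h5.trans (mul_le_mul_of_nonneg_left hU.le (by positivity))) hH0.le
    have h7 : 0 ≤ δ * H + ((E5 + E6 + E7 : ℕ) : ℝ) * 
        ‖∑ m ∈ range H, pc (φ i0) (fun _ => 1) m‖ := by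
      positivity
    linarith
  choose ψ hψ hd using fun i => dm_nat r H w wb (φ i) hη0 hη1 he0.le
    (by linarith : (0 : ℝ) ≤ Om) (by omega) (hw i) hU
  have hκ : ∀ i, cube r (fun m => φ i m - ψ i m) 0 H ≤ (Om ^ (E1 + E2))⁻¹ := fun i => by
    refine (hd i).trans ?_
    have a1 : Real.exp (3 / η ^ 2) * e = η := by
      rw [he, mul_left_comm, ← Real.exp_add, add_neg_cancel, Real.exp_zero, mul_one]
    have a2 : (Om + 1) ^ (n - 1) ≤ Om ^ (2 * (n - 1)) := by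
      rw [pow_mul]; gcongr
    rw [a1, ← one_div, le_div_iff₀ (by positivity)]
    have a3 := hE3 Om hOm
    rw [pow_add Om] at a3
    calc _ ≤ (2 * η + η) * Om ^ (2 * (n - 1)) * 2 ^ (r + 2) * Om ^ (E1 + E2) := by gcongr
      _ = η * (3 * 2 ^ (r + 2) * (Om ^ (2 * (n - 1)) * Om ^ (E1 + E2))) := by ring
      _ ≤ η * Om ^ E3 := by gcongr
      _ = 1 := inv_mul_cancel₀ (by positivity)
  have hb : ∀ i, ∀ m < H, ‖φ i m‖ ≤ Om ^ 2 := fun i m hm => by
    linarith [(hw i m hm).1, (hw i m hm).2.1]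
  have h1 : ‖form r H P θ φ - form r H P θ ψ‖ * Real.log Y ≤ δ / 2 * H := by
    rw [form_teleM]
    refine (mul_le_mul_of_nonneg_right (norm_sum_le _ _) (Real.log_natCast_nonneg Y)).trans ?_
    rw [sum_mul]
    refine (sum_le_card_nsmul _ _ ((Om ^ 2) ^ (r + 1) *
      (δ / (2 * (r + 1)) / (Om ^ 2) ^ (r + 1)) * H) fun j hj => ?_).trans (le_of_eq ?_)
    · refine hN H Y P θ _ j (Om ^ 2) _ hY hYH hHY hP hθ (Nat.lt_succ_iff.1 (mem_range.1 hj))
        (one_le_pow₀ hO1) (by positivity) (fun i _ hi m hm => ?_) ?_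
      · rw [if_neg hi]
        split_ifs
        · exact (hψ i m).trans (one_le_pow₀ hO1)
        · exact hb i m hm
      · simp only [lt_irrefl, if_false, if_true]
        refine (mul_le_mul_of_nonneg_left ((hκ j).trans (inv_anti₀ (by positivity)
          ((hE1 Om hOm).trans (hmono _ _ (Nat.le_add_right _ _))))) (by linarith)).trans
          (le_of_eq ?_)
        rw [← pow_mul, div_pow, div_pow, div_pow, ← pow_mul]
        field_simp
    · rw [card_range, nsmul_eq_mul]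
      push_cast
      field_simp
  have h2 : ‖form r H P θ φ‖ * Real.log Y ≤ δ / 2 * H + ‖form r H P θ ψ‖ * Real.log Y := by
    have := mul_le_mul_of_nonneg_right (norm_le_norm_sub_add (form r H P θ φ)
      (form r H P θ ψ)) (Real.log_natCast_nonneg Y)
    linarith
  have h3 : 0 ≤ Real.exp (Om ^ (E5 + E6 + E7)) * u * H := by positivity
  rcases le_or_gt ((δ / 2) ^ n / C1) (cube r (ψ i0) 0 H) with hg | hg
  swap
  · refine ⟨_, h1A, ?_⟩
    have h4 := hN H Y P θ ψ i0 1 (δ / 2) hY hYH hHY hP hθ hi0 le_rfl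
      (by positivity) (fun i _ _ m _ => hψ i m)
      (by rw [lt_div_iff₀ (by linarith)] at hg; linarith)
    have h7 : 0 ≤ ((E5 + E6 + E7 : ℕ) : ℝ) * ‖∑ m ∈ range H, pc (φ i0) (fun _ => 1) m‖ := by
      positivity
    rw [one_pow, one_mul] at h4
    linarith
  obtain ⟨a, ha, h4⟩ := hI (ψ i0) 0 H (hψ i0) (by
    have := (hE6 Om hOm).trans ((hmono _ _ (by omega)).trans hH)
    rw [pow_zero, mul_one] at this
    exact_mod_cast this) hg
  refine ⟨a, ha, ?_⟩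
  have h5 := hN H Y P θ ψ i0 1 (C1 * 2 ^ r) hY hYH hHY hP hθ hi0 le_rfl
    (by positivity) (fun i _ _ m _ => hψ i m)
    ((mul_le_mul_of_nonneg_left (V.cube_le r (hψ i0) 0 H) (by linarith)).trans hroot)
  rw [one_pow, one_mul] at h5
  have hz : ‖(((Om ^ 2)⁻¹ : ℝ) : ℂ)‖ = (Om ^ 2)⁻¹ := by
    rw [Complex.norm_real, Real.norm_of_nonneg (by positivity)]
  have h6 := hV (2 / c * Om ^ 2) (by
      have : 2 ≤ 2 / c := by rw [le_div_iff₀ hc1]; linarith
      nlinarith [one_le_pow₀ (n := 2) hO1])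
    (fun m => if m < H then (((Om ^ 2)⁻¹ : ℝ) : ℂ) * (φ i0 m - ψ i0 m) else 0) 0 H
    (fun m => by
      split_ifs with hm
      · rw [norm_mul, hz, inv_mul_le_iff₀ (by positivity), mul_one]
        linarith [norm_sub_le (φ i0 m) (ψ i0 m), (hw i0 m hm).1, (hw i0 m hm).2.1, hψ i0 m]
      · simp)
    (by
      rw [cube_congr (g := fun m => (((Om ^ 2)⁻¹ : ℝ) : ℂ) * (φ i0 m - ψ i0 m)) fun m hm => if_pos hm,
        cube_smul, hz]
      refine (mul_le_of_le_one_left (V.cube_nonneg _ _ _ _) (pow_le_one₀ (by positivity)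
        (inv_le_one_of_one_le₀ (one_le_pow₀ hO1)))).trans ((hκ i0).trans ?_)
      rw [one_div, mul_pow, ← pow_mul]
      exact inv_anti₀ (by positivity) ((hE2 Om hOm).trans (hmono _ _ (Nat.le_add_left _ _))))
    (by omega) _ h1A a ha
  rw [zero_add, ← range_eq_Ico] at h4 h6
  have e1 : ∑ m ∈ range H, (if m < H then (((Om ^ 2)⁻¹ : ℝ) : ℂ) * (φ i0 m - ψ i0 m) else 0) *
      pc (fun _ => 1) a m = (((Om ^ 2)⁻¹ : ℝ) : ℂ) *
        (∑ m ∈ range H, pc (φ i0) a m - ∑ m ∈ range H, pc (ψ i0) a m) := by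
    rw [← sum_sub_distrib, mul_sum]
    refine sum_congr rfl fun m hm => ?_
    rw [if_pos (mem_range.1 hm)]
    simp only [pc]
    ring
  rw [e1, norm_mul, hz, inv_mul_le_iff₀ (by positivity)] at h6
  have e2 : Om ^ 2 * ((H : ℝ) / (2 / c * Om ^ 2)) = c / 2 * H := by field_simp
  have h7 : c / 2 * H ≤ ‖∑ m ∈ range H, pc (φ i0) a m‖ := by
    have := norm_sub_norm_le (∑ m ∈ range H, pc (ψ i0) a m) (∑ m ∈ range H, pc (φ i0) a m)
    rw [norm_sub_rev] at this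
    have := mul_le_mul_of_nonneg_right (min_le_left c0 1) hH0.le
    linarith
  have h8 : C1 * 2 ^ r * H ≤ ((E5 + E6 + E7 : ℕ) : ℝ) * ‖∑ m ∈ range H, pc (φ i0) a m‖ := by
    have a1 : (E7 : ℝ) ≤ ((E5 + E6 + E7 : ℕ) : ℝ) := by exact_mod_cast Nat.le_add_left _ _
    calc _ = 2 * (C1 * 2 ^ r) / c * (c / 2 * H) := by field_simp
      _ ≤ _ := mul_le_mul (hE7.trans a1) h7 (by positivity) (by positivity)
  have : 0 ≤ δ * H := by positivity
  linarith

theorem cellM : S_CellM := cellM_of GI.gi_all good_AT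

theorem form_eqM (r N : ℕ) {c : ℕ} (hc : 0 < c) (n : ℕ) (P : Finset ℕ) (θ : ℕ → ℝ)
    (F : ℕ → ℕ → ℝ) :
    form r (N / c + 1) P (fun p => (θ p : ℂ)) (fun i m => (onc N c (off c n) (F i) m : ℂ)) =
      ((∑ p ∈ P, θ p / p * ∑ a ∈ (cel N c n).filter (fun a => a + r * (c * p) < N),
        ∏ i ∈ range (r + 1), F i (a + i * (c * p)) : ℝ) : ℂ) := by
  unfold form
  rw [Complex.ofReal_sum]
  refine sum_congr rfl fun p _ => ?_
  rw [Complex.ofReal_mul, Complex.ofReal_div, Complex.ofReal_natCast]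
  congr 1
  simp only [← Complex.ofReal_prod, ← Complex.ofReal_sum]
  congr 1
  rw [sum_filter, sum_filter, sum_cel N hc]
  refine sum_congr rfl fun m _ => ?_
  have e : ∀ i, off c n + c * (m + i * p) = off c n + c * m + i * (c * p) := fun i => by ring
  by_cases h : off c n + c * m + r * (c * p) < N
  · have h1 : m + r * p < N / c + 1 := by
      rw [Nat.lt_succ_iff, Nat.le_div_iff_mul_le hc, mul_comm]
      have := e r
      omega
    rw [if_pos h1, if_pos (by omega), if_pos h]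
    refine prod_congr rfl fun i hi => ?_
    have h2 : i * (c * p) ≤ r * (c * p) :=
      Nat.mul_le_mul_right _ (Nat.lt_succ_iff.1 (mem_range.1 hi))
    rw [onc, e, if_pos (by omega)]
  · rw [if_neg h, ite_self, prod_eq_zero (self_mem_range_succ r) (by rw [onc, e, if_neg h]),
      ite_self]

theorem sec7aM : S_Sec7aM := by
  classical
  intro r L δ hδ
  obtain ⟨A, C0, hA, hS, h1A, hc⟩ := cellM r (L + 1) (δ / 8) (by positivity)
  obtain ⟨C, hC⟩ := ex_exp (8 / δ * ((2 ^ 2 ^ (r + 1) + 4 ^ (r + 1)) * 2 ^ (r + 2))) (2 ^ (r + 1)) C0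
  set c2 := min 1 (δ / (8 * (C0 + 1))) with hc2
  have c0 : 0 < c2 := lt_min one_pos (by positivity)
  refine ⟨A, c2, C, hA, h1A, c0, min_le_left _ _, fun ι Z d G i0 Om wb τ ℓ h hX => ?_⟩
  have hB := hA.sys.atm
  have : Nonempty (Fin Z) := ⟨⟨0, h.Z0⟩⟩
  have hO := h.om
  have hl := h.l0
  obtain ⟨k1, k2⟩ := hC Om hO
  set E := Real.exp (Om ^ C) with hE
  have E0 : 0 < E := Real.exp_pos _
  have E1 : Om ^ C + 1 ≤ E := Real.add_one_le_exp _
  have E2 : 1 ≤ Om ^ C := one_le_pow₀ (by linarith)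
  choose sel s1 s2 using ex_sel hB
  set φ : Fin Z → ι → ℕ → ℝ := fun n c => onc d.N (d.cv c) (off (d.cv c) n) (d.F n) with hφ
  set H : ι → ℕ := fun c => d.N / d.cv c + 1 with hH
  set u : Fin Z → ι → ℕ → ℝ := fun n c b => if c ∈ d.CC then
    (sel (H c) (φ n c) ((b - off (d.cv c) n) / d.cv c)).re else 0 with hu
  have Y2 : ∀ c ∈ d.CC, 2 ≤ d.Yc c := fun c hc => by
    have : (2 : ℝ) ≤ d.Yc c := by linarith [h.big c hc]
    exact_mod_cast this
  have YH : ∀ c ∈ d.CC, d.Yc c ≤ H c := fun c hc => Nat.le_succ_of_le (by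
    rw [Nat.le_div_iff_mul_le (h.pos c hc).2, mul_comm]; exact (h.len c hc).1)
  have EH : ∀ c ∈ d.CC, E ≤ H c := fun c hc => (h.big c hc).trans (by exact_mod_cast YH c hc)
  have sH : ∑ c ∈ d.CC, d.wh c * H c ≤ 2 * d.N := by
    calc _ ≤ ∑ c ∈ d.CC, 2 * d.N * (d.wh c / d.cv c) := sum_le_sum fun c hc => by
          have p1 := (h.pos c hc).1
          have p2 : (0 : ℝ) < d.cv c := by exact_mod_cast (h.pos c hc).2
          have p3 : H c * d.cv c ≤ 2 * d.N := by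
            have q1 := Nat.div_mul_le_self d.N (d.cv c)
            have q2 := (h.len c hc).1
            have q3 : d.cv c * 2 ≤ d.cv c * d.Yc c := Nat.mul_le_mul_left _ (Y2 c hc)
            simp only [hH, add_mul]
            omega
          have p4 : (H c : ℝ) * d.cv c ≤ 2 * d.N := by exact_mod_cast p3
          rw [← mul_div_assoc, le_div_iff₀ p2]
          nlinarith
      _ ≤ 2 * d.N * 1 := by rw [← mul_sum]; gcongr; exact h.mass
      _ = _ := mul_one _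
  have su : ∀ n : Fin Z, ∀ c ∈ d.CC, ∀ g : ℕ → ℝ, ∑ b ∈ cel d.N (d.cv c) n, g b * u n c b =
      ∑ m ∈ range (H c), onc d.N (d.cv c) (off (d.cv c) n) g m * (sel (H c) (φ n c) m).re :=
    fun n c hc g => by
      rw [sum_cel _ (h.pos c hc).2]
      refine sum_congr rfl fun m _ => ?_
      simp only [hu, if_pos hc, rel_div (h.pos c hc).2, onc]
      split_ifs <;> simp
  -- one cell
  have one : ∀ n : Fin Z, ∀ c ∈ d.CC, |∑ p ∈ d.P c, d.th c p / p *
      ∑ a ∈ (cel d.N (d.cv c) n).filter (fun a => a + r * (d.cv c * p) < d.N),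
        ∏ i ∈ range (r + 1), G i n (a + i * (d.cv c * p))| ≤
      ℓ * (δ / 8 * H c + 2 * C0 * ∑ b ∈ cel d.N (d.cv c) n, d.F n b * u n c b +
        Real.exp (Om ^ C0) * H c *
          V.cube r (fun m => ((d.w (bs (d.cv c) n + m) - wb : ℝ) : ℂ)) 0 (H c)) := by
    intro n c hcc
    have p2 := (h.pos c hcc).2
    obtain ⟨a, ha, h1⟩ := hc Om (H c) (d.Yc c) i0 (d.P c) (fun p => (d.th c p : ℂ))
      (fun i m => (onc d.N (d.cv c) (off (d.cv c) n) (G i n) m : ℂ))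
      (fun m => d.w (bs (d.cv c) n + m)) (fun _ => wb) hO
      (by linarith [EH c hcc]) (Y2 c hcc) (YH c hcc)
      (by
        have q1 : d.N / d.cv c ≤ L * d.Yc c := Nat.div_le_of_le_mul (by
          rw [mul_left_comm]; exact (h.len c hcc).2)
        have q2 := Y2 c hcc
        simp only [hH, add_mul]
        omega)
      (h.sub c hcc) (fun p => by simpa using h.th1 c hcc p) hX.role fun i m _ => ⟨by
        rw [Complex.norm_real, Real.norm_eq_abs]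
        simp only [onc]
        split_ifs with hm
        · refine hX.Gw i c hcc n _ _ hm ?_
          rw [← add_assoc, (off_eq p2 n).1, mul_add]
        · simpa using h.w0 _, h.w1 _, h.wb0, h.wb1⟩
    rw [form_eqM r d.N p2 n (d.P c) (d.th c) (fun i => G i n), Complex.norm_real,
      Real.norm_eq_abs, hX.eq] at h1
    have h2 := s2 (H c) (φ n c) a ha
    rw [← su n c hcc] at h2
    have h3 := mul_le_mul_of_nonneg_left h2 (Nat.cast_nonneg C0 : (0 : ℝ) ≤ C0)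
    refine (le_mul_of_one_le_right (abs_nonneg _) (h.lg c hcc)).trans ?_
    rw [mul_left_comm]
    refine mul_le_mul_of_nonneg_left (h1.trans ?_) hl.le
    linarith
  -- the mean of the cube averages
  have cub : ∀ c ∈ d.CC, Real.exp (Om ^ C0) * (ex fun n : Fin Z =>
      V.cube r (fun m => ((d.w (bs (d.cv c) n + m) - wb : ℝ) : ℂ)) 0 (H c)) ≤ δ / 8 := by
    intro c hcc
    have h1 := uw_nat r (H c) (Nat.succ_pos _) (fun (n : Fin Z) m => d.w (bs (d.cv c) n + m))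
      (by linarith : 0 ≤ Om) (fun _ _ => h.w0 _) (fun _ _ => h.w1 _) h.wb0 h.wb1 (h.ind c hcc)
    have h2 : τ ≤ (Om + 1) ^ 2 ^ (r + 1) / E := by
      rw [le_div_iff₀ E0]
      exact h.tau.trans (one_le_pow₀ (by linarith))
    have h3 : 4 ^ (r + 1) * (Om + 1) ^ 2 ^ (r + 1) / (H c : ℝ) ≤
        4 ^ (r + 1) * (Om + 1) ^ 2 ^ (r + 1) / E := by
      gcongr; exact EH c hcc
    calc _ ≤ Real.exp (Om ^ C0) * ((2 ^ 2 ^ (r + 1) * ((Om + 1) ^ 2 ^ (r + 1) / E) +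
          4 ^ (r + 1) * (Om + 1) ^ 2 ^ (r + 1) / E) * 2 ^ (r + 2)) := by
          refine mul_le_mul_of_nonneg_left (h1.trans ?_) (Real.exp_pos _).le
          gcongr
      _ = δ / 8 * (Real.exp (Om ^ C0) * (8 / δ * ((2 ^ 2 ^ (r + 1) + 4 ^ (r + 1)) * 2 ^ (r + 2)) *
          (Om + 1) ^ 2 ^ (r + 1)) / E) := by field_simp
      _ ≤ δ / 8 * 1 := by gcongr; exact (div_le_one E0).2 k2
      _ = _ := mul_one _
  set T := ex fun n : Fin Z => ∑ c ∈ d.CC, d.wh c * ∑ b ∈ cel d.N (d.cv c) n, d.F n b * u n c b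
    with hT
  have main : δ * d.N ≤ δ / 8 * (2 * d.N) + 2 * C0 * T + δ / 8 * (2 * d.N) := by
    refine le_of_mul_le_mul_left (a := ℓ) ?_ hl
    rw [← mul_assoc, mul_comm ℓ δ]
    refine hX.fr.trans ((ex_mono fun n => sum_le_sum fun c hc =>
      mul_le_mul_of_nonneg_left (one n c hc) (h.pos c hc).1).trans ?_)
    have e : ∀ n : Fin Z, ∑ c ∈ d.CC, d.wh c * (ℓ * (δ / 8 * H c +
        2 * C0 * ∑ b ∈ cel d.N (d.cv c) n, d.F n b * u n c b + Real.exp (Om ^ C0) * H c *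
          V.cube r (fun m => ((d.w (bs (d.cv c) n + m) - wb : ℝ) : ℂ)) 0 (H c))) =
        ℓ * (δ / 8 * ∑ c ∈ d.CC, d.wh c * H c +
          2 * C0 * ∑ c ∈ d.CC, d.wh c * ∑ b ∈ cel d.N (d.cv c) n, d.F n b * u n c b +
          ∑ c ∈ d.CC, d.wh c * H c * (Real.exp (Om ^ C0) *
            V.cube r (fun m => ((d.w (bs (d.cv c) n + m) - wb : ℝ) : ℂ)) 0 (H c))) := fun n => by
      rw [mul_sum, mul_sum d.CC _ (2 * (C0 : ℝ)), ← sum_add_distrib, ← sum_add_distrib, mul_sum]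
      exact sum_congr rfl fun c _ => by ring
    simp only [e]
    rw [ex_mul, ex_add, ex_add, ex_const, ex_mul, ← hT, ex_sum]
    simp only [ex_mul]
    refine mul_le_mul_of_nonneg_left (add_le_add (add_le_add (by gcongr) le_rfl) ?_) hl.le
    calc _ ≤ ∑ c ∈ d.CC, d.wh c * H c * (δ / 8) := sum_le_sum fun c hc =>
          mul_le_mul_of_nonneg_left (cub c hc) (mul_nonneg (h.pos c hc).1 (Nat.cast_nonneg _))
      _ ≤ _ := by rw [← sum_mul, mul_comm]; gcongr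
  have hms : Ms d.HH u := fun n n' hn => by
    ext c b
    simp only [hu]
    split_ifs with hc
    · have e1 := off_congr (h.pos c hc).2 (h.msc c hc n n' hn)
      have e2 : φ n c = φ n' c := by
        ext m
        simp only [hφ, onc, e1]
        split_ifs with hm
        · exact h.msF _ hm n n' hn
        · rfl
      rw [e1, e2]
    · rfl
  have t2 := h.t2 u hms fun n c b => by
    simp only [hu]
    split_ifs
    · exact (Complex.abs_re_le_norm _).trans (hB.bd _ (s1 _ _) _)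
    · simp
  rw [← hT] at t2
  set S := ex fun n : Fin Z => ∑ c ∈ d.CC, d.wh c *
    |∑ b ∈ cel d.N (d.cv c) n, d.f ((n + b) / d.cv c) * u n c b| with hS'
  have S0 : 0 ≤ S := ex_nonneg fun n => sum_nonneg fun c hc =>
    mul_nonneg (h.pos c hc).1 (abs_nonneg _)
  have fin : c2 / Om * d.N ≤ S := by
    have h1 : c2 * (8 * (C0 + 1)) ≤ δ := (le_div_iff₀ (by positivity)).1 (min_le_right _ _)
    have h2 : (0 : ℝ) ≤ d.N := Nat.cast_nonneg _
    have h3 : (0 : ℝ) ≤ C0 := Nat.cast_nonneg _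
    have h4 := mul_le_mul_of_nonneg_right h1 h2
    have h5 := mul_le_mul_of_nonneg_left t2 h3
    have h6 : 0 ≤ Om * S := by positivity
    have h7 : 0 ≤ c2 * d.N := by positivity
    rw [div_mul_eq_mul_div, div_le_iff₀ (by linarith), mul_comm S]
    refine le_of_mul_le_mul_left (a := (C0 : ℝ) + 1) ?_ (by positivity)
    nlinarith
  -- absolute coordinates
  have ab : ∀ (n : ℕ) (c : ι), ∃ a ∈ res A, ∀ hn : n < Z, c ∈ d.CC →
      |∑ b ∈ cel d.N (d.cv c) n, d.f ((n + b) / d.cv c) * u ⟨n, hn⟩ c b| ≤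
        (∑ b ∈ cel d.N (d.cv c) n, pc (fun m => (d.f m : ℂ)) a ((n + b) / d.cv c)).re := by
    intro n c
    by_cases hn : n < Z ∧ c ∈ d.CC
    · obtain ⟨a, ha, e⟩ := hS _ (s1 (H c) (φ ⟨n, hn.1⟩ c)) (bs (d.cv c) n)
      obtain ⟨a', ha', h1⟩ := ex_rot hB (cel d.N (d.cv c) n) (fun b => (n + b) / d.cv c)
        (fun m => (d.f m : ℂ)) ha
      refine ⟨a', ha', fun _ _ => le_trans (le_trans (le_of_eq ?_) (Complex.abs_re_le_norm _)) h1⟩
      congr 1
      have p2 := (h.pos c hn.2).2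
      rw [Complex.re_sum, sum_cel _ p2, sum_cel _ p2]
      refine sum_congr rfl fun m _ => ?_
      split_ifs
      · simp only [hu, if_pos hn.2, rel_div p2, pos_div p2]
        simp [pc, e]
      · rfl
    · obtain ⟨a, ha⟩ := hB.ne
      exact ⟨a, ha, fun h1 h2 => absurd ⟨h1, h2⟩ hn⟩
  choose a a1 a2 using ab
  refine ⟨a, a1, ?_⟩
  have hZ : (0 : ℝ) < Z := by exact_mod_cast h.Z0
  have h1 := fin.trans (ex_mono (g := fun n : Fin Z => ∑ c ∈ d.CC, d.wh c *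
    (∑ b ∈ cel d.N (d.cv c) n, pc (fun m => (d.f m : ℂ)) (a n c) ((n + b) / d.cv c)).re)
    fun n => sum_le_sum fun c hc => mul_le_mul_of_nonneg_left (a2 n c n.2 hc) (h.pos c hc).1)
  rw [ex, Fintype.card_fin, le_div_iff₀ hZ, Fin.sum_univ_eq_sum_range (fun n => ∑ c ∈ d.CC, d.wh c *
    (∑ b ∈ cel d.N (d.cv c) n, pc (fun m => (d.f m : ℂ)) (a n c) ((n + b) / d.cv c)).re)] at h1
  exact le_trans (le_of_eq (by ring)) h1

end Sec7

theorem sec7 : S_Sec7 := by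
  intro r L δ hδ
  obtain ⟨A, c2, C, hA, h1A, h0, h1, ha⟩ := Sec7.sec7aM r L δ hδ
  refine ⟨A, c2, C, hA, h1A, h0, h1,
    fun ι Z d G i0 Om wb τ ℓ K cm M Y h hX hf hc hs hK hM hcm hN a1 a2 a3 a4 => ?_⟩
  obtain ⟨a, b1, b2⟩ := ha ι Z d G i0 Om wb τ ℓ h hX
  have := h.om
  have h2 : c2 / Om ≤ 1 := (div_le_one (by positivity)).2 (by linarith)
  exact cut _ (IV.hull _ hA.sys.atm) _ (fun n => by simpa using hf n) ι d.CC d.cv d.wh Z d.N Y M K
    _ cm a (fun n _ c _ => subset_convexHull ℝ _ (b1 n c))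
    (fun c h' => ⟨(h.pos c h').1, (h.pos c h').2, hc c h'⟩) h.mass hs (by positivity) (h2.trans hK)
    h2 hM hcm hN a1 a2 a3 a4 b2

end Pool.Agent.P.MP_4ef411_nt.Al
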