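import Pool.Agent.P.MP_4ef411_nt.Al.St
import Pool.Agent.P.MP_a14ce1_nt.Fu.Test1

/-!
Section 6 with one function for each site.
-/

open Finset

namespace Pool.Agent.P.MP_4ef411_nt.Al

open Pool.Agent.P.MP_a14ce1_nt
open Pool.Agent.P.MP_a14ce1_nt.Fu
open Pool.Agent.P.MP_a14ce1_nt.Fu.St
open Pool.Agent.P.MP_a14ce1_nt.Ch (pv mu rs)
open Pool.Agent.P.MP_a14ce1_nt.Ch.Main (Tn)

namespace Test1

variable {Ω : Type} [Fintype Ω] [Nonempty Ω] {ι : Type}

/-- the first test: the prime p is freed -/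
theorem free1 (TT RR : Finset ℕ) (hT : ∀ q ∈ TT, q.Prime) (hR : RR ⊆ TT) (Φ H : Setoid Ω)
    (n : Ω → ℕ) (hfr : Fr Φ n (pv TT)) (N r : ℕ) (CC : Finset ι) (cv : ι → ℕ) (wh : ι → ℝ)
    (P : ι → Finset ℕ) (sg : ι → ℕ → ℝ) (F : ℕ → Ω → ℕ → ℝ) (κ : ℕ → Finset ℕ → ℝ)
    {O1 O2 Wt μ θ : ℝ} (hw : ∀ c ∈ CC, 0 ≤ wh c) (hW : ∑ c ∈ CC, wh c ≤ Wt)
    (hP : ∀ c ∈ CC, P c ⊆ RR) (hc : ∀ c ∈ CC, ∀ p ∈ P c, (cv c).Coprime p)
    (hsg : ∀ c ∈ CC, ∀ p ∈ P c, |sg c p| ≤ 1) (hF : ∀ i x b, |F i x b| ≤ O1)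
    (hκ : ∀ p ∈ RR, ∀ S ⊆ TT, |κ p S| ≤ O2) (hO2 : 0 ≤ O2)
    (hκ1 : ∀ p ∈ RR, ∀ S, κ p (S.erase p) = κ p S)
    (hκ2 : ∀ p ∈ RR, ∀ q ∈ RR, ∀ S ⊆ TT, q ∈ S → κ p S ≠ 0 → q = p)
    (msF : ∀ i, ∀ b < N, Ms H fun x => F i x b) (msc : ∀ c ∈ CC, Ms H fun x => n x % cv c)
    (hμ : ∀ q ∈ TT, (N : ℝ) / q + 1 ≤ μ) (h0 : 0 < θ)
    (hθ : θ * (4 * μ * ((r + 1) * Wt * (O1 * O2) ^ (r + 1))) ≤ 1) :
    |(ex fun x => ∑ c ∈ CC, wh c * ∑ p ∈ P c, sg c p *
        ∑ a ∈ (cel N (cv c * p) (n x)).filter (fun a => a + r * (cv c * p) < N),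
          ∏ i ∈ range (r + 1),
            F i x (a + i * (cv c * p)) * κ p (Tn TT (n x + (a + i * (cv c * p))))) -
      ex fun x => ∑ c ∈ CC, wh c * ∑ p ∈ P c, sg c p * bet TT (κ p) (r + 1) (cv c * p) / p *
        ∑ a ∈ (cel N (cv c) (n x)).filter (fun a => a + r * (cv c * p) < N),
          ∏ i ∈ range (r + 1), F i x (a + i * (cv c * p))| ≤
      cH H Φ / θ + θ * (TT.card * (4 * μ * ((r + 1) * Wt * (O1 * O2) ^ (r + 1))) ^ 2) := by
  classical
  have hO1 : 0 ≤ O1 := (abs_nonneg _).trans (hF 0 (Classical.arbitrary _) 0)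
  have hW0 : 0 ≤ Wt := (sum_nonneg hw).trans hW
  let T : Finset (Σ _ : ι, Σ _ : ℕ, ℕ) := CC.sigma fun c => (P c).sigma fun p =>
    (range N).filter fun a => a + r * (cv c * p) < N
  let S : (Σ _ : ι, Σ _ : ℕ, ℕ) → Finset ℕ := fun t =>
    (range (r + 1)).image fun i => t.2.2 + i * (cv t.1 * t.2.1)
  let Ψ : Ω → (Σ _ : ι, Σ _ : ℕ, ℕ) → (ℕ → Finset ℕ) → ℝ := fun x t A =>
    (wh t.1 * sg t.1 t.2.1 * ind (cv t.1 ∣ n x + t.2.2) *
      ∏ i ∈ range (r + 1), F i x (t.2.2 + i * (cv t.1 * t.2.1))) *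
      (ind (t.2.1 ∈ A t.2.2) * ∏ i ∈ range (r + 1), κ t.2.1 (A (t.2.2 + i * (cv t.1 * t.2.1))))
  have hT' : ∀ t ∈ T, t.1 ∈ CC ∧ t.2.1 ∈ P t.1 ∧ t.2.2 + r * (cv t.1 * t.2.1) < N := fun t ht => by
    simp only [T, mem_sigma, mem_filter] at ht
    exact ⟨ht.1, ht.2.1, ht.2.2.2⟩
  have hlt : ∀ t ∈ T, ∀ i ∈ range (r + 1), t.2.2 + i * (cv t.1 * t.2.1) < N := fun t ht i hi =>
    lt_of_le_of_lt (Nat.add_le_add_left (Nat.mul_le_mul_right _
      (Nat.lt_succ_iff.1 (mem_range.1 hi))) _) (hT' t ht).2.2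
  have hkey := test_nat TT hT Φ H n hfr N T S Ψ (L := (r + 1) * Wt * (O1 * O2) ^ (r + 1))
    (by positivity)
    (fun t ht x y h => by
      have a1 : cv t.1 ∣ n x + t.2.2 ↔ cv t.1 ∣ n y + t.2.2 :=
        (Nat.ModEq.add_right _ (msc _ (hT' t ht).1 x y h)).dvd_iff dvd_rfl
      have a2 : ∏ i ∈ range (r + 1), F i x (t.2.2 + i * (cv t.1 * t.2.1)) =
          ∏ i ∈ range (r + 1), F i y (t.2.2 + i * (cv t.1 * t.2.1)) :=
        prod_congr rfl fun i hi => msF i _ (hlt t ht i hi) x y h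
      simp only [Ψ, a1, a2])
    (fun t ht b hb => by
      obtain ⟨i, hi, rfl⟩ := mem_image.1 hb
      exact mem_range.2 (hlt t ht i hi))
    (fun x t _ A B h => by
      have a1 : A t.2.2 = B t.2.2 := h _ (mem_image.2 ⟨0, mem_range.2 r.succ_pos, by simp⟩)
      have a2 : ∏ i ∈ range (r + 1), κ t.2.1 (A (t.2.2 + i * (cv t.1 * t.2.1))) =
          ∏ i ∈ range (r + 1), κ t.2.1 (B (t.2.2 + i * (cv t.1 * t.2.1))) :=
        prod_congr rfl fun i hi => by rw [h _ (mem_image_of_mem _ hi)]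
      simp only [Ψ, a1, a2])
    (fun x m b _ => by
      let g : ℕ → ℝ := fun p => ind (p ∈ Tn TT (m + b) ∧ κ p (Tn TT (m + b)) ≠ 0)
      have g1 : ∑ p ∈ RR, g p ≤ 1 := by
        simp only [g, ind_eq, sum_boole]
        refine Nat.cast_le_one.2 (card_le_one.2 fun p hp q hq => ?_)
        rw [mem_filter] at hp hq
        exact hκ2 q hq.1 p hp.1 _ (Ch.Main.Tn_sub _ _) hp.2.1 hq.2.2
      have a1 : ∀ t ∈ T, (if b ∈ S t then |Ψ x t fun b => Tn TT (m + b)| else 0) ≤
          ∑ i ∈ range (r + 1), (if t.2.2 + i * (cv t.1 * t.2.1) = b then 1 else 0) *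
            (wh t.1 * g t.2.1 * (O1 * O2) ^ (r + 1)) := by
        intro t ht
        obtain ⟨t1, t2, _⟩ := hT' t ht
        have w0 := hw _ t1
        have hn : ∀ i ∈ range (r + 1), 0 ≤ (if t.2.2 + i * (cv t.1 * t.2.1) = b then 1 else 0) *
            (wh t.1 * g t.2.1 * (O1 * O2) ^ (r + 1)) := fun i _ =>
          mul_nonneg (by split_ifs <;> norm_num)
            (mul_nonneg (mul_nonneg w0 (ind_nonneg _)) (by positivity))
        split_ifs with hb
        swap
        · exact sum_nonneg hn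
        obtain ⟨i, hi, e⟩ := mem_image.1 hb
        refine le_trans ?_ (single_le_sum hn hi)
        rw [if_pos e, one_mul]
        have b1 : |∏ i ∈ range (r + 1), F i x (t.2.2 + i * (cv t.1 * t.2.1))| ≤ O1 ^ (r + 1) := by
          rw [abs_prod]
          refine (prod_le_prod (fun _ _ => abs_nonneg _) fun i _ => hF i x _).trans ?_
          rw [prod_const, card_range]
        have b2 : |ind (t.2.1 ∈ Tn TT (m + t.2.2)) * ∏ i ∈ range (r + 1),
            κ t.2.1 (Tn TT (m + (t.2.2 + i * (cv t.1 * t.2.1))))| ≤ g t.2.1 * O2 ^ (r + 1) := by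
          by_cases c1 : t.2.1 ∈ Tn TT (m + t.2.2)
          swap
          · rw [ind_neg c1, zero_mul, abs_zero]
            exact mul_nonneg (ind_nonneg _) (by positivity)
          by_cases c2 : κ t.2.1 (Tn TT (m + b)) = 0
          · rw [prod_eq_zero hi (by rw [e, c2]), mul_zero, abs_zero]
            exact mul_nonneg (ind_nonneg _) (by positivity)
          have c3 : t.2.1 ∈ Tn TT (m + b) := by
            rw [Tn, mem_filter] at c1 ⊢
            refine ⟨c1.1, ?_⟩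
            rw [← e, ← add_assoc]
            exact dvd_add c1.2 (Dvd.intro_left (i * cv t.1) (by ring))
          rw [ind_pos c1, one_mul, show g t.2.1 = 1 from ind_pos ⟨c3, c2⟩, one_mul, abs_prod]
          refine (prod_le_prod (fun _ _ => abs_nonneg _) fun i _ =>
            hκ _ (hP _ t1 t2) _ (Ch.Main.Tn_sub _ _)).trans ?_
          rw [prod_const, card_range]
        have b3 : |wh t.1 * sg t.1 t.2.1 * ind (cv t.1 ∣ n x + t.2.2)| ≤ wh t.1 := by
          rw [abs_mul, abs_mul, abs_of_nonneg w0, abs_of_nonneg (ind_nonneg _), mul_assoc]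
          exact mul_le_of_le_one_right w0
            (mul_le_one₀ (hsg _ t1 _ t2) (ind_nonneg _) (ind_le_one _))
        simp only [Ψ]
        rw [abs_mul, abs_mul _ (∏ i ∈ range (r + 1), _)]
        refine (mul_le_mul (mul_le_mul b3 b1 (abs_nonneg _) w0) b2 (abs_nonneg _)
          (by positivity)).trans (le_of_eq ?_)
        rw [mul_pow]; ring
      rw [sum_filter]
      refine (sum_le_sum a1).trans ?_
      rw [sum_comm]
      have a2 : ∀ i ∈ range (r + 1), ∑ t ∈ T,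
          (if t.2.2 + i * (cv t.1 * t.2.1) = b then 1 else 0) *
            (wh t.1 * g t.2.1 * (O1 * O2) ^ (r + 1)) ≤ Wt * (O1 * O2) ^ (r + 1) := by
        intro i _
        refine le_trans ?_ (mul_le_mul_of_nonneg_right hW (by positivity))
        rw [sum_sigma, sum_mul]
        refine sum_le_sum fun c hc => ?_
        have w0 := hw c hc
        rw [sum_sigma]
        calc _ ≤ ∑ p ∈ P c, wh c * g p * (O1 * O2) ^ (r + 1) := by
              refine sum_le_sum fun p _ => ?_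
              simp only
              rw [← sum_mul]
              refine mul_le_of_le_one_left
                (mul_nonneg (mul_nonneg w0 (ind_nonneg _)) (by positivity)) ?_
              rw [sum_boole]
              refine Nat.cast_le_one.2 (card_le_one.2 fun a ha a' ha' => ?_)
              rw [mem_filter] at ha ha'
              exact Nat.add_right_cancel (ha.2.trans ha'.2.symm)
          _ ≤ _ := by
              rw [← sum_mul, ← mul_sum]
              refine mul_le_mul_of_nonneg_right (mul_le_of_le_one_right w0 ?_) (by positivity)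
              exact (sum_le_sum_of_subset_of_nonneg (hP c hc) fun _ _ _ => ind_nonneg _).trans g1
      refine (sum_le_sum a2).trans (le_of_eq ?_)
      rw [sum_const, card_range, nsmul_eq_mul]
      push_cast
      ring)
    hμ h0 hθ
  refine le_trans (le_of_eq ?_) hkey
  congr 2
  · refine congrArg ex (funext fun x => ?_)
    rw [sum_sigma]
    refine sum_congr rfl fun c hc' => ?_
    rw [sum_sigma, mul_sum]
    refine sum_congr rfl fun p hp => ?_
    rw [cel, filter_comm, sum_filter, mul_sum, mul_sum]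
    refine sum_congr rfl fun a _ => ?_
    have : cv c * p ∣ n x + a ↔ cv c ∣ n x + a ∧ p ∈ Tn TT (n x + a) := by
      rw [Tn, mem_filter]
      exact ⟨fun h => ⟨(dvd_mul_right _ _).trans h, hR (hP c hc' hp), (dvd_mul_left _ _).trans h⟩,
        fun h => (hc c hc' p hp).mul_dvd_of_dvd_of_dvd h.1 h.2.2⟩
    simp only [Ψ, prod_mul_distrib]
    rw [← mul_boole, ← ind_eq, ind_congr this, ind_and]
    ring
  · refine congrArg ex (funext fun x => ?_)
    rw [sum_sigma]
    refine sum_congr rfl fun c hc' => ?_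
    rw [sum_sigma, mul_sum]
    refine sum_congr rfl fun p hp => ?_
    rw [cel, filter_comm, sum_filter, mul_sum, mul_sum]
    refine sum_congr rfl fun a _ => ?_
    simp only [Ψ]
    rw [← ex_avN, ex_mul, ex_avN _ fun m => ind (p ∈ Tn TT (m + a)) *
      ∏ i ∈ range (r + 1), κ p (Tn TT (m + (a + i * (cv c * p)))),
      avN_free hT (hR (hP c hc' hp)) (hκ1 p (hP c hc' hp)), ← mul_boole, ← ind_eq]
    ring

end Test1

open Fu.St.T1 Test1 in
theorem test1 : S_TEST1 := by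
  intro k
  refine ⟨20, fun F P hk H A _ dt Z C0 s y hD hs hy my => ?_⟩
  have h := H.toHyp0
  obtain ⟨r, hr⟩ : ∃ r, F.k = r + 1 := ⟨F.k - 1, by have := h.k2; omega⟩
  have hr' : F.k - 1 = r := by omega
  have hrR : (r : ℝ) + 1 = F.k := by rw [hr]; push_cast; ring
  have : Nonempty (Fin Z) := ⟨⟨0, hD.Z0⟩⟩
  have L2 := h.L2
  have L0 : 0 < P.Λ := by linarith
  have N0 := h.N0
  have LL0 := h.LL0
  have Pw0 := h.Pw0
  have η0 := h.η0
  have l0 : 0 ≤ P.Lp := by linarith [h.Lp1]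
  have hle := glue_le_ker (fun n : Fin Z => (n : ℕ) % F.Qk0) (fun n b => dt (n + b)) C0
  set E : ℝ := P.Λ ^ (8 * F.k) * Real.exp (3 * P.Lp) with hE
  have E1 : 1 ≤ E := one_le_mul_of_one_le_of_one_le (one_le_pow₀ (by linarith))
    (Real.one_le_exp (by linarith))
  set Wt : ℝ := 2 * Real.exp P.Lp * (P.Λ ^ 2 * P.Lp) / F.N with hWt
  set sz : ℝ := 4 * (5 * F.k * Real.exp P.Lp) *
    ((r + 1) * Wt * (P.Λ * (2 * P.Λ)) ^ (r + 1)) with hsz
  have sz0 : 0 ≤ sz := by positivity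
  have sz1 : sz ≤ E / F.N := by
    rw [le_div_iff₀ N0]
    refine le_trans (le_of_eq ?_) (num2 L2 h.Lk (Nat.cast_nonneg _) l0 h.k2)
    rw [hsz, hWt, hrR, ← hr]
    field_simp
  let G : ℕ → Fin Z → ℕ → ℝ := fun i x b => F.wk (dp F.U (x + b)) * y i x b
  have G1 : ∀ i x b, |G i x b| ≤ P.Λ := fun i x b => by
    rw [abs_mul, abs_of_nonneg (h.wk0 _)]
    exact (mul_le_of_le_one_right (h.wk0 _) (hy i x b)).trans (h.wkL _)
  have hCC : ∀ c ∈ CC F P, c ⊆ F.Lo := fun c hc => mem_powerset.1 (mem_filter.1 hc).1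
  have w0 : ∀ c, 0 ≤ F.w c / (F.LL * F.N * F.Pw) := fun c =>
    div_nonneg (h.w_nonneg c) (by positivity)
  have key := free1 (F.RR ∪ F.HH) F.RR h.prRH subset_union_left
    (Setoid.ker fun n : Fin Z => (n : ℕ) % F.Qk0) (gl Z F.Qk0 dt C0) (fun n => n)
    (fr_fin h.cop0 (h.pv_all0 ▸ hD.per) (r := fun n => n % F.Qk0) fun _ _ e => e)
    F.N r (CC F P) pv (fun c => F.w c / (F.LL * F.N * F.Pw)) (PP F) (fun c p => s (pv c * p))
    G (kk F) (O1 := P.Λ) (O2 := 2 * P.Λ) (Wt := Wt) (μ := 5 * F.k * Real.exp P.Lp)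
    (θ := F.N * P.η / E ^ 2) (fun c _ => w0 c)
    (by
      rw [← sum_div, hWt, div_le_div_iff₀ (by positivity) N0]
      have a1 := h.sum_w_le (x := 2 * Real.exp P.Lp) (by positivity) (filter_subset _ _)
        fun c hc => (mem_filter.1 hc).2
      have a2 := h.inv_LP
      rw [div_le_iff₀ h.LP0] at a2
      calc _ ≤ 2 * Real.exp P.Lp * F.N * 1 := by
            rw [mul_one]; exact mul_le_mul_of_nonneg_right a1 N0.le
        _ ≤ 2 * Real.exp P.Lp * F.N * (P.Λ ^ 2 * P.Lp * (F.LL * F.Pw)) := by gcongr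
        _ = _ := by ring)
    (fun c _ => filter_subset _ _)
    (fun c hc p hp => h.cop_cp (hCC c hc) (F.RR_sub (mem_filter.1 hp).1))
    (fun c _ p _ => hs _) G1
    (fun p _ S _ => by rw [abs_of_nonneg (kk_nonneg h p S)]; exact kk_le h p S)
    (by positivity) (fun p hp S => kk_erase h hp S)
    (fun p _ q hq S _ hS e => F.ka_ne (left_ne_zero_of_mul e) (mem_inter.2 ⟨hS, hq⟩))
    (fun i b _ x x' e => by
      have a1 := per_dp (T := F.U) (Q := F.Qk0) (pv_dvd subset_union_right) b x x' (hle e)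
      simp only at a1
      simp only [G, a1, show y i x b = y i x' b from my i b x x' e])
    (fun c hc x x' e => Nat.ModEq.of_dvd (pv_dvd ((hCC c hc).trans subset_union_left)) (hle e))
    (fun q hq => h.div_le_mu hq) (by positivity)
    (by
      rw [← hsz]
      calc _ ≤ F.N * P.η / E ^ 2 * (E / F.N) := by gcongr
        _ = P.η / E := by field_simp
        _ ≤ 1 := by rw [div_le_one (by linarith)]; linarith [h.η1])
  rw [← hsz] at key
  have k1 : cH (gl Z F.Qk0 dt C0) (Setoid.ker fun n : Fin Z => (n : ℕ) % F.Qk0) /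
      (F.N * P.η / E ^ 2) ≤ P.η := by
    have a1 := cH_glue (fun n : Fin Z => (n : ℕ) % F.Qk0) (fun n b => dt (n + b)) C0
    have a2 := hD.sz
    rw [size, div_le_iff₀ N0] at a2
    have σ0 := h.σin0
    have a3 := a1.trans (mul_le_mul a2 hD.alph (Real.log_natCast_nonneg _) (by positivity))
    have a4 : P.Λ ^ 3 * E ^ 2 ≤ P.Λ ^ (20 * F.k) * Real.exp ((20 : ℕ) * P.Lp) := by
      rw [hE, mul_pow, ← pow_mul, ← mul_assoc, ← pow_add, ← Real.exp_nat_mul]
      refine mul_le_mul (pow_le_pow_right₀ (by linarith) (by have := h.k2; omega))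
        (Real.exp_le_exp.2 (by push_cast; linarith)) (Real.exp_pos _).le (by positivity)
    have a5 : P.Λ ^ 3 * E ^ 2 * P.σin ≤ 1 := (mul_le_mul_of_nonneg_right a4 σ0).trans H.test
    have a6 : 1 ≤ (P.Λ * P.η) ^ 2 := one_le_pow₀ h.Lη
    rw [div_le_iff₀ (by positivity), ← mul_div_assoc, le_div_iff₀ (by positivity)]
    refine (mul_le_mul_of_nonneg_right a3 (by positivity)).trans ?_
    calc _ ≤ P.σin * F.N * P.Λ * E ^ 2 * (P.Λ * P.η) ^ 2 :=
          le_mul_of_one_le_right (by positivity) a6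
      _ = P.Λ ^ 3 * E ^ 2 * P.σin * (P.η * (F.N * P.η)) := by ring
      _ ≤ _ := mul_le_of_le_one_left (by positivity) a5
  have k2 : F.N * P.η / E ^ 2 * ((F.RR ∪ F.HH).card * sz ^ 2) ≤ P.η := by
    calc _ ≤ F.N * P.η / E ^ 2 * (F.N * (E / F.N) ^ 2) := by
          have := h.card_RH
          gcongr
      _ = _ := by field_simp
  have e1 : F.Tf Z s y = ex fun x : Fin Z => ∑ c ∈ CC F P,
      F.w c / (F.LL * F.N * F.Pw) * ∑ p ∈ PP F c, s (pv c * p) *
        ∑ a ∈ (cel F.N (pv c * p) x).filter (fun a => a + r * (pv c * p) < F.N),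
          ∏ i ∈ range (r + 1), G i x (a + i * (pv c * p)) *
            kk F p (Tn (F.RR ∪ F.HH) (x + (a + i * (pv c * p)))) := by
    refine ex_congr fun x => ?_
    rw [hr', shape h r x (fun c p => pv c * p) _ _ _ _ fun _ _ => rfl, hr]
    simp only [W_eq, G, mul_right_comm]
  have e2 : Tfr F Z s y = ex fun x : Fin Z => ∑ c ∈ CC F P,
      F.w c / (F.LL * F.N * F.Pw) * ∑ p ∈ PP F c, s (pv c * p) / p *
        ∑ a ∈ (cel F.N (pv c) x).filter (fun a => a + r * (pv c * p) < F.N),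
          ∏ i ∈ range (r + 1), G i x (a + i * (pv c * p)) := by
    refine ex_congr fun x => ?_
    rw [hr', shape h r x (fun c _ => pv c) (fun c => F.w c / (F.LL * F.N * F.Pw))
      (fun c p => s (pv c * p) / p) _ _ fun _ _ => by ring, hr]
  set τ : ℝ := (2 * P.Λ) ^ F.k * (2 * (F.k : ℝ) ^ 3 / P.Λ ^ (20 * F.k)) with hτ
  have k3 : |(ex fun x : Fin Z => ∑ c ∈ CC F P, F.w c / (F.LL * F.N * F.Pw) * ∑ p ∈ PP F c,
      s (pv c * p) * bet (F.RR ∪ F.HH) (kk F p) (r + 1) (pv c * p) / p *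
        ∑ a ∈ (cel F.N (pv c) x).filter (fun a => a + r * (pv c * p) < F.N),
          ∏ i ∈ range (r + 1), G i x (a + i * (pv c * p))) - Tfr F Z s y| ≤ P.η := by
    refine le_trans ?_ (num1 L2 h.Lη h.Lk (Nat.cast_nonneg _) h.k2)
    rw [← hτ, e2, ← ex_sub]
    refine (abs_ex_le _).trans (le_trans ?_
      (mul_le_of_le_one_right (by positivity) (mass h hD.Z0 hD.per)))
    rw [← ex_mul]
    refine ex_mono fun x => ?_
    rw [← sum_sub_distrib, mul_sum]
    refine (abs_sum_le_sum_abs _ _).trans (sum_le_sum fun c hc => ?_)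
    rw [← mul_sub, abs_mul, abs_of_nonneg (w0 c), mul_left_comm, ← sum_sub_distrib, mul_sum]
    refine mul_le_mul_of_nonneg_left
      ((abs_sum_le_sum_abs _ _).trans (sum_le_sum fun p hp => ?_)) (w0 c)
    obtain ⟨hp1, hp2⟩ := mem_filter.1 hp
    have b1 : |bet (F.RR ∪ F.HH) (kk F p) (r + 1) (pv c * p) - 1| ≤ τ := by
      have := abs_bet_sub h.prRH (fun S _ => kk_nonneg h p S) (fun S _ => kk_le h p S)
        (h.Ms0 H.ind) (fun q hq => h.TMs q (F.RH_sub hq)) (k := r + 1)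
        (Nat.mul_pos (h.pv_pos (hCC c hc)) (h.prR p hp1).pos) (N := F.N)
        (by exact_mod_cast h.N0') fun i hi => by
          have a1 := h.win_le hp2
          have a2 : (i : ℝ) ≤ F.k := by exact_mod_cast (hr ▸ hi).le
          rw [Nat.cast_mul]
          nlinarith [h.Nlo, h.D20, Nat.cast_nonneg (α := ℝ) i]
      rw [EM_kk h hp1, one_pow, ← hr] at this
      rw [← hr]
      exact this.trans (mul_le_mul_of_nonneg_left (h.tauI_le H.ind _) (by positivity))
    have b2 : |∑ a ∈ (cel F.N (pv c) x).filter (fun a => a + r * (pv c * p) < F.N),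
        ∏ i ∈ range (r + 1), G i x (a + i * (pv c * p))| ≤
        P.Λ ^ F.k * ∑ a ∈ range F.N, ind (pv c ∣ x + a) := by
      refine (abs_sum_le_sum_abs _ _).trans ((sum_le_sum_of_subset_of_nonneg (filter_subset _ _)
        fun _ _ _ => abs_nonneg _).trans ?_)
      rw [cel, sum_filter, mul_sum]
      refine sum_le_sum fun a _ => ?_
      split_ifs with hd
      · rw [ind_pos hd, mul_one, abs_prod, hr]
        refine (prod_le_prod (fun _ _ => abs_nonneg _) fun i _ => G1 i x _).trans ?_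
        rw [prod_const, card_range]
      · rw [ind_neg hd, mul_zero]
    have b3 : |s (pv c * p) * bet (F.RR ∪ F.HH) (kk F p) (r + 1) (pv c * p) / p -
        s (pv c * p) / p| ≤ τ * (1 / p) := by
      rw [← sub_div, ← mul_sub_one, abs_div, abs_mul, Nat.abs_cast, mul_one_div]
      exact div_le_div_of_nonneg_right
        ((mul_le_of_le_one_left (abs_nonneg _) (hs _)).trans b1) (Nat.cast_nonneg _)
    rw [← sub_mul, abs_mul]
    refine (mul_le_mul b3 b2 (abs_nonneg _) (by positivity)).trans (le_of_eq ?_)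
    ring
  rw [e1]
  have := abs_sub_le _ _ (Tfr F Z s y) |>.trans (add_le_add key k3)
  push_cast
  linarith

end Pool.Agent.P.MP_4ef411_nt.Al
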