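import Pool.Agent.P.MP_4ef411_nt.Al.St
import Pool.Agent.P.MP_a14ce1_nt.Fu.Bias

/-!
Section 2 with one function for each site.
-/

open Finset

namespace Pool.Agent.P.MP_4ef411_nt.Al

open Pool.Agent.P.MP_a14ce1_nt
open Pool.Agent.P.MP_a14ce1_nt.Fu
open Pool.Agent.P.MP_a14ce1_nt.Fu.St
open Pool.Agent.P.MP_a14ce1_nt.Fu.St.Bi
open Pool.Agent.P.MP_a14ce1_nt.Ch (pv)
open Pool.Agent.P.MP_a14ce1_nt.Ch.Main (Tn)

namespace Bias

/-- the bias on one progression -/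
theorem cell (TT : Finset ℕ) (hT : ∀ q ∈ TT, q.Prime) {M N : ℝ} (hM0 : 0 < M)
    (hM : ∀ q ∈ TT, M ≤ q) (k a : ℕ) {d Y Z : ℕ} (hd0 : 0 < d) (hN1 : 1 ≤ N) (hN : (k : ℝ) ≤ N)
    (hc : ∀ q ∈ TT, d.Coprime q) (hY : 0 < Y) (hd : d * pv TT ∣ Y) (hZ : pv TT ∣ Z)
    {ε θ Om R : ℝ} (hZ0 : 0 < Z) (hε : 0 ≤ ε) (h1 : (Y : ℝ) ≤ (1 + ε) * (d * Z))
    (h2 : (d : ℝ) * Z ≤ (1 + ε) * Y) {cr G : ℕ → ℝ} (hcr : ∀ n, |cr n| ≤ 1) (hR : 1 ≤ R)
    (hG : ∀ n, |G n| ≤ R) (hGc : ∀ m, 0 < m → G (d * m) = cr m) (hD : Dec cr Z TT θ)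
    (w : ℕ → Finset ℕ → ℝ) (h0 : ∀ i < k, ∀ A ⊆ TT, 0 ≤ w i A)
    (hK : ∀ i < k, ∀ A ⊆ TT, w i A ≤ Om) :
    |d * ex (fun n : Fin Y => if d ∣ n + a then
        G (n + a) * ∏ i ∈ range k, w i (Tn TT (n + a + i * d)) else 0) -
      (∑ m ∈ range Z, cr m) / Z * ∏ i ∈ range k, Em TT (w i)| ≤
      2 * ε * ∏ i ∈ range k, Em TT (w i) +
        Om ^ k * (θ + (1 + 2 * ε) * tauI k N M + (2 * a + 2) * d * R / Y) := by
  have hZr : (0 : ℝ) < Z := by exact_mod_cast hZ0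
  set W : ℕ → ℝ := fun m => ∏ i ∈ range k, w i (Tn TT (m + i)) with hW
  have W0 : ∀ m, 0 ≤ W m := fun m =>
    prod_nonneg fun i hi => h0 i (mem_range.1 hi) _ (Tn_subset _ _)
  have pb : ∀ x : ℕ → ℕ, ∏ i ∈ range k, w i (Tn TT (x i)) ≤ Om ^ k := fun x =>
    (prod_le_prod (fun i hi => h0 i (mem_range.1 hi) _ (Tn_subset _ _))
      fun i hi => hK i (mem_range.1 hi) _ (Tn_subset _ _)).trans (by simp)
  have O0 : 0 ≤ Om ^ k := (W0 0).trans (pb _)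
  have Wp : Per (pv TT) W := fun x y h => prod_congr rfl fun i _ =>
    congrArg (w i) (per_Tn1 (fun q hq => dvd_pv hq) i x y h)
  have k1 := bias_one (d := d) (q := pv TT) (Y := Y) (Z := Z) a (ε := ε) (B := R * Om ^ k)
    (s := cr) (W := W) (F := fun n => if d ∣ n then
      G n * ∏ i ∈ range k, w i (Tn TT (n + i * d)) else 0) hd0 hY
    hcr W0 (fun m => (pb _).trans (le_mul_of_one_le_left O0 hR)) Wp hd hZ hZ0 h1 h2
    (fun m hm => by
      rw [if_pos (dvd_mul_right d m), hGc m hm]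
      congr 1
      refine prod_congr rfl fun i _ => ?_
      rw [show d * m + i * d = d * (m + i) by ring, Tn_mul hc])
    (fun n hn => if_neg hn)
    (fun n => by
      split_ifs
      · rw [abs_mul,
          abs_of_nonneg (prod_nonneg fun i hi => h0 i (mem_range.1 hi) _ (Tn_subset _ _))]
        exact mul_le_mul (hG n) (pb _)
          (prod_nonneg fun i hi => h0 i (mem_range.1 hi) _ (Tn_subset _ _)) (by linarith)
      · rw [abs_zero]; positivity)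
  have k2 := hD W (Om ^ k) Wp.step fun n => by rw [abs_of_nonneg (W0 n)]; exact pb _
  have : Nonempty (Fin Z) := ⟨⟨0, hZ0⟩⟩
  have k3 := ind_prog TT hT hM0 hM k 0 1 one_pos hN1 (by simpa using hN) (Q := 1) (Y := Z)
    (fun q _ => Nat.coprime_one_left q) hZ0 (by simpa using hZ) (fun _ => 1) (fun _ _ _ => rfl)
    w h0 hK
  simp only [one_mul, add_zero, mul_one, abs_one, ex_const] at k3
  rw [ex_fin Z W] at k3
  set e := (∑ m ∈ range Z, W m) / Z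
  set β := (∑ m ∈ range Z, cr m) / Z
  set π := ∏ i ∈ range k, Em TT (w i)
  have hβ : |β| ≤ 1 := by
    rw [abs_div, abs_of_pos hZr, div_le_one hZr]
    refine (abs_sum_le_sum_abs _ _).trans ((sum_le_sum fun n _ => hcr n).trans (le_of_eq ?_))
    simp
  have k4 : |β * e - β * π| ≤ Om ^ k * tauI k N M := by
    rw [← mul_sub, abs_mul]
    exact (mul_le_of_le_one_left (abs_nonneg _) hβ).trans k3
  have k5 : 2 * ε * e ≤ 2 * ε * (π + Om ^ k * tauI k N M) :=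
    mul_le_mul_of_nonneg_left (by linarith [(abs_le.1 k3).2]) (by positivity)
  have e1 : (2 * a + 2) * d * (R * Om ^ k) / (Y : ℝ) = Om ^ k * ((2 * a + 2) * d * R / Y) := by
    ring
  rw [e1] at k1
  rw [abs_le] at k1 k2 k4 ⊢
  constructor <;> nlinarith [k1.1, k1.2, k2.1, k2.2, k4.1, k4.2]

/-- the bias over a family of progressions -/
theorem fam {k N Y : ℕ} {L H : Finset ℕ} {CS : Finset (Finset ℕ)} {PS : Finset ℕ → Finset ℕ}
    {v : Finset ℕ → ℕ → ℝ} {W : ℕ → Finset ℕ → ℝ} {Om M : ℝ}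
    (h : Prog k N Y L H CS PS v W Om M) {Z : ℕ} {ε θ η dm R : ℝ} (hk : k ≤ N)
    (hZ : pv H ∣ Z) (hZ0 : 0 < Z) {cr : ℕ → ℝ} {G : ℕ → ℕ → ℝ} (hcr : ∀ n, |cr n| ≤ 1)
    (hR : 1 ≤ R) (hG : ∀ d n, |G d n| ≤ R)
    (hGc : ∀ c ∈ CS, ∀ p ∈ PS c, ∀ m, 0 < m → G (pv c * p) (pv c * p * m) = cr m)
    (hD : Dec cr Z H θ) (hθ : 0 ≤ θ) (hβ0 : 0 ≤ (∑ m ∈ range Z, cr m) / Z)
    (h1 : ∀ c ∈ CS, ∀ p ∈ PS c, (Y : ℝ) ≤ (1 + ε) * ((pv c * p : ℕ) * Z))
    (h2 : ∀ c ∈ CS, ∀ p ∈ PS c, ((pv c * p : ℕ) : ℝ) * Z ≤ (1 + ε) * Y) (hε : 0 ≤ ε)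
    (h3 : ∀ c ∈ CS, ∀ p ∈ PS c, ((pv c * p : ℕ) : ℝ) ≤ dm)
    (hη : η ≤ 1) (hm : ∀ c ∈ CS, ∀ p ∈ PS c, 1 - η ≤ Em H (W p))
    (hv : N * ∑ c ∈ CS, ∑ p ∈ PS c, v c p / (pv c * p : ℕ) = 1)
    (I : Finset ℕ → ℕ → Finset ℕ) (hI : ∀ c p, I c p ⊆ range N)
    (hI2 : ∀ c ∈ CS, ∀ p ∈ PS c, N ≤ 2 * (I c p).card) :
    (∑ m ∈ range Z, cr m) / Z * (1 - η) ^ k / 2 -
      (2 * ε + Om ^ k * (θ + (1 + 2 * ε) * tauI k N M + 2 * N * dm * R / Y)) ≤
    ex fun n : Fin Y => ∑ c ∈ CS, ∑ p ∈ PS c, ∑ a ∈ I c p, v c p *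
      if pv c * p ∣ n + a then G (pv c * p) (n + a) * ∏ j ∈ range k,
        W p (Tn H (n + a + j * (pv c * p))) else 0 := by
  have hN1 : (1 : ℝ) ≤ N := by exact_mod_cast h.N0
  have hYr : (0 : ℝ) < Y := by exact_mod_cast h.Y0
  have R0 : 0 ≤ R := by linarith
  set β := (∑ m ∈ range Z, cr m) / Z with hβ
  set E := 2 * ε + Om ^ k * (θ + (1 + 2 * ε) * tauI k N M + 2 * N * dm * R / Y) with hE
  set x : Finset ℕ → ℕ → ℕ → ℝ := fun c p a => ex fun n : Fin Y =>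
    if pv c * p ∣ n + a then G (pv c * p) (n + a) * ∏ j ∈ range k,
      W p (Tn H (n + a + j * (pv c * p))) else 0 with hx
  have Om0 : 0 ≤ Om := (h.W0 0 ∅ (empty_subset _)).trans (h.W1 0 ∅ (empty_subset _))
  have t0 := tauI_nonneg k hN1 h.M0
  have d0 : ∀ c ∈ CS, ∀ p ∈ PS c, 0 < pv c * p := fun c hc p hp => Nat.mul_pos
    (Ch.Main.pv_pos fun q hq => h.pL q (h.cs c hc hq)) (h.pH p (h.ps c hc hp)).pos
  have k1 : ∀ c ∈ CS, ∀ p ∈ PS c, ∀ a ∈ I c p,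
      |(pv c * p : ℕ) * x c p a - β * Em H (W p) ^ k| ≤ E := fun c hc p hp a ha => by
    have hpH := h.ps c hc hp
    have hpr : ∀ q ∈ H.erase p, q.Prime := fun q hq => h.pH q (mem_of_mem_erase hq)
    have k2 := cell (H.erase p) hpr h.M0 (fun q hq => h.big q (mem_of_mem_erase hq)) k a
      (d0 c hc p hp) hN1 (by exact_mod_cast hk)
      (fun q hq => Nat.Coprime.mul_left
        (pv_cop (fun q hq => h.pL q (h.cs c hc hq)) hpr
          (h.dis.mono (h.cs c hc) (erase_subset _ _)) q hq)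
        ((Nat.coprime_primes (h.pH p hpH) (hpr q hq)).2 (ne_of_mem_erase hq).symm)) h.Y0
      (by rw [mul_assoc, pv_erase hpH]
          exact (mul_dvd_mul_right (prod_dvd_prod_of_subset _ _ _ (h.cs c hc)) _).trans h.dvd)
      ((prod_dvd_prod_of_subset _ _ _ (erase_subset p H)).trans hZ) hZ0 hε (h1 c hc p hp)
      (h2 c hc p hp) hcr hR (hG (pv c * p)) (hGc c hc p hp)
      (hD.mono (erase_subset p H)) (fun _ => W p)
      (fun _ _ A hA => h.W0 p A (hA.trans (erase_subset _ _)))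
      fun _ _ A hA => h.W1 p A (hA.trans (erase_subset _ _))
    simp only [Tn_erase, h.Wp c hc p hp, Em_erase (h.Wp c hc p hp), prod_const, card_range] at k2
    refine k2.trans (add_le_add (mul_le_of_le_one_right (by positivity)
      (pow_le_one₀ (Em_nonneg (h.W0 p)) (h.mean c hc p hp))) ?_)
    have a1 : (2 * a + 2 : ℝ) ≤ 2 * N := by
      have : a + 1 ≤ N := mem_range.1 (hI c p ha)
      have : (a : ℝ) + 1 ≤ N := by exact_mod_cast this
      linarith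
    have a2 := h3 c hc p hp
    gcongr
  have k0 : (ex fun n : Fin Y => ∑ c ∈ CS, ∑ p ∈ PS c, ∑ a ∈ I c p, v c p *
      if pv c * p ∣ n + a then G (pv c * p) (n + a) * ∏ j ∈ range k,
        W p (Tn H (n + a + j * (pv c * p))) else 0) =
      ∑ c ∈ CS, ∑ p ∈ PS c, ∑ a ∈ I c p, v c p * x c p a := by
    simp only [ex_sum, ex_mul, hx]
  rw [k0]
  set b := β * (1 - η) ^ k with hb
  have b0 : 0 ≤ b := mul_nonneg hβ0 (pow_nonneg (by linarith) _)
  have k4 : ∀ c ∈ CS, ∀ p ∈ PS c, N * (v c p / (pv c * p : ℕ)) * (b / 2 - E) ≤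
      ∑ a ∈ I c p, v c p * x c p a := fun c hc p hp => by
    have dr : (0 : ℝ) < (pv c * p : ℕ) := by exact_mod_cast d0 c hc p hp
    have u0 : 0 ≤ v c p / (pv c * p : ℕ) := div_nonneg (h.v0 c hc p hp) dr.le
    have E0 : 0 ≤ E := by
      have := dr.le.trans (h3 c hc p hp)
      positivity
    have c1 : ((I c p).card : ℝ) ≤ N := by
      exact_mod_cast (card_le_card (hI c p)).trans (card_range N).le
    have c2 : (N : ℝ) ≤ 2 * (I c p).card := by exact_mod_cast hI2 c hc p hp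
    calc _ ≤ (I c p).card * (v c p / (pv c * p : ℕ) * (b - E)) := by
          have a1 := mul_le_mul_of_nonneg_right c1 (mul_nonneg u0 E0)
          have a2 := mul_le_mul_of_nonneg_right c2 (mul_nonneg u0 b0)
          nlinarith
      _ = ∑ _a ∈ I c p, v c p / (pv c * p : ℕ) * (b - E) := by rw [sum_const, nsmul_eq_mul]
      _ ≤ _ := sum_le_sum fun a ha => ?_
    have a1 : v c p * x c p a =
        v c p / (pv c * p : ℕ) * ((pv c * p : ℕ) * x c p a) := by field_simp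
    rw [a1]
    refine mul_le_mul_of_nonneg_left ?_ u0
    have a3 : b ≤ β * Em H (W p) ^ k :=
      mul_le_mul_of_nonneg_left (pow_le_pow_left₀ (by linarith) (hm c hc p hp) k) hβ0
    have a4 := (abs_le.1 (k1 c hc p hp a ha)).1
    linarith
  calc b / 2 - E = ∑ c ∈ CS, ∑ p ∈ PS c, N * (v c p / (pv c * p : ℕ)) * (b / 2 - E) := by
        simp only [← sum_mul, ← mul_sum, hv, one_mul]
    _ ≤ ∑ c ∈ CS, ∑ p ∈ PS c, ∑ a ∈ I c p, v c p * x c p a :=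
        sum_le_sum fun c hc => sum_le_sum fun p hp => k4 c hc p hp

theorem cr_sum {cr : ℕ → ℝ} (a : ∀ n, |cr n| ≤ 1) {X Y E : ℕ} (h1 : Y ≤ X) (h2 : X ≤ Y + E) :
    |∑ n ∈ Icc 1 X, cr n - ∑ n ∈ range Y, cr n| ≤ E + 2 := by
  have e1 : ∑ n ∈ range (X + 1), cr n = cr 0 + ∑ n ∈ Icc 1 X, cr n := by
    rw [range_eq_Ico, sum_eq_sum_Ico_succ_bot (Nat.succ_pos X)]; rfl
  have e2 := sum_range_add_sum_Ico cr (h1.trans (Nat.le_succ X))
  have e3 : |∑ n ∈ Ico Y (X + 1), cr n| ≤ E + 1 := by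
    refine (abs_sum_le_sum_abs _ _).trans ((sum_le_sum fun n _ => a n).trans ?_)
    simp only [sum_const, Nat.card_Ico, nsmul_eq_mul, mul_one]
    exact_mod_cast (by omega : X + 1 - Y ≤ E + 1)
  have e4 := a 0
  rw [abs_le] at e3 e4 ⊢
  constructor <;> linarith [e3.1, e3.2, e4.1, e4.2]

/-- the sum of the site products -/
noncomputable def gs {R : ℕ} (k : ℕ) (s : Fin R → ℕ → ℝ) (x : Fin R → ℕ → ℕ → ℝ) (d n : ℕ) : ℝ :=
  ∑ j, s j d * ∏ i ∈ range k, x j i (n + i * d)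

theorem abs_gs {R : ℕ} (k : ℕ) {s : Fin R → ℕ → ℝ} {x : Fin R → ℕ → ℕ → ℝ}
    (hs : ∀ j d, |s j d| ≤ 1) (hx : ∀ j i n, |x j i n| ≤ 1) (d n : ℕ) :
    |gs k s x d n| ≤ R + 1 := by
  refine (abs_sum_le_sum_abs _ _).trans ((sum_le_sum (g := fun _ => (1 : ℝ)) fun j _ => ?_).trans ?_)
  · rw [abs_mul, abs_prod]
    exact mul_le_one₀ (hs _ _) (prod_nonneg fun _ _ => abs_nonneg _)
      (prod_le_one (fun _ _ => abs_nonneg _) fun _ _ => hx _ _ _)
  · simp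

theorem tf_eq (F : Fam) (Z : ℕ) {R : ℕ} (s : Fin R → ℕ → ℝ) (x : Fin R → ℕ → ℕ → ℝ) :
    ∑ j, F.Tf Z (s j) (fun i n b => x j i (n + b)) =
    ex fun n : Fin Z => ∑ c ∈ F.Lo.powerset, ∑ p ∈ PS F c, ∑ a ∈ II F c p,
      F.w c / (F.LL * F.N * F.Pw) *
      if pv c * p ∣ n + a then gs F.k s x (pv c * p) (n + a) * ∏ j ∈ range F.k,
        Ws F p (Tn F.TT (n + a + j * (pv c * p))) else 0 := by
  unfold Fam.Tf
  rw [← ex_sum]
  refine ex_congr fun n => ?_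
  simp only [sum_eq]
  rw [sum_comm]
  refine sum_congr rfl fun c _ => ?_
  rw [sum_comm]
  refine sum_congr rfl fun p _ => ?_
  rw [sum_comm]
  refine sum_congr rfl fun a _ => ?_
  simp only [W_eq, add_assoc, gs]
  split_ifs
  · rw [sum_mul, mul_sum]
    refine sum_congr rfl fun j _ => ?_
    rw [prod_mul_distrib]
    ring
  · simp

end Bias

open Bias in
/-- section 2 -/
theorem bias : S_BIAS := by
  intro k
  refine ⟨100 * k + 100, fun F P hk h δ τ δ0 hε hη hτ E R => ?_⟩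
  subst hk
  have h0 := h.toHyp0
  have L2 := two_le h0
  have e0 := h.e0
  have e4 := eps_le h0
  have D1 := D_ge h0
  have η0 := h.η0
  have k0 : (0 : ℝ) ≤ F.k := Nat.cast_nonneg _
  have E0 : (0 : ℝ) ≤ E := Nat.cast_nonneg _
  have R0 : (0 : ℝ) ≤ R := Nat.cast_nonneg _
  push_cast at hε hη
  have c7 : 100 * F.ε ≤ δ := by nlinarith
  have c8 : 100 * P.η ≤ δ := by nlinarith
  have c9 : 100 * (F.k * P.η) ≤ δ := by nlinarith
  set Q := 400 * (P.Λ ^ 3) ^ F.k * F.N * F.D * (R + 1) / δ with hQ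
  have Q0 : 0 ≤ Q := by positivity
  have T1 : 0 ≤ 2 * E / F.ε := by positivity
  have T2 : 0 ≤ 10 * (E + 2) / δ := by positivity
  refine ⟨⌈2 * E / F.ε + 10 * (E + 2) / δ + Q + 1⌉₊ + E,
    fun X Y Z cr s x hX hYX hXY hZ1 hZ2 dZ dY hcr hs hx hid hb hD => ?_⟩
  have x1 : 2 * E / F.ε + 10 * (E + 2) / δ + Q + 1 + E ≤ X :=
    le_trans (add_le_add_left (Nat.le_ceil _) _) (by exact_mod_cast hX)
  have yx : (Y : ℝ) ≤ X := by exact_mod_cast hYX
  have xy : (X : ℝ) ≤ Y + E := by exact_mod_cast hXY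
  have X0 : (0 : ℝ) < X := by linarith
  have xz : (X : ℝ) ≤ Z + E := le_trans (le_mul_of_one_le_left X0.le D1) hZ2
  have Y0 : (0 : ℝ) < Y := by linarith
  have Z0 : (0 : ℝ) < Z := by linarith
  have b1 : 2 * E ≤ F.ε * Y := by rw [← div_le_iff₀' e0]; linarith
  have b2 : 2 * E ≤ F.ε * Z := by rw [← div_le_iff₀' e0]; linarith
  have b3 : 10 * (E + 2) ≤ δ * Y := by rw [← div_le_iff₀' δ0]; linarith
  have δ1 : δ ≤ 1 := by
    refine le_of_mul_le_mul_right (hb.trans ?_) X0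
    refine (sum_le_sum fun n _ => (le_abs_self _).trans (hcr n)).trans (le_of_eq ?_)
    simp
  have β1 : 9 / 10 * δ ≤ (∑ m ∈ range Y, cr m) / Y := by
    have a1 := (le_abs_self _).trans (cr_sum hcr hYX hXY)
    rw [le_div_iff₀ Y0]
    have a2 := mul_le_mul_of_nonneg_left yx δ0.le
    linarith
  have τ0 : 0 ≤ τ := (abs_nonneg _).trans (hD (fun _ => 0) (fun _ => rfl) fun _ => by simp)
  have wd : ∀ {c p}, p ∈ PS F c → F.D ≤ (pv c * p : ℕ) ∧ ((pv c * p : ℕ) : ℝ) < (1 + F.ε) * F.D :=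
    fun hp => (mem_filter.1 hp).2
  have key := fam (prog h (by exact_mod_cast Z0) dZ) (Z := Y) (ε := 2 * F.ε) (θ := τ) (η := P.η)
    (dm := 2 * F.D) (R := R + 1) (by exact_mod_cast k_le_N h0) dY (by exact_mod_cast Y0)
    (G := gs F.k s x) hcr (by linarith) (abs_gs F.k hs hx)
    (fun c hc p hp m hm => by
      rw [← hid c (mem_powerset.1 hc) p (mem_filter.1 hp).1 m hm]
      refine sum_congr rfl fun j _ => congrArg _ (prod_congr rfl fun i _ => congrArg _ ?_)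
      ring)
    (Dec.of_one hD) τ0 (le_trans (by positivity) β1)
    (fun c _ p hp => by
      have a1 := (wd hp).1
      set d : ℝ := ((pv c * p : ℕ) : ℝ)
      calc (Z : ℝ) ≤ d * X := hZ1.trans (mul_le_mul_of_nonneg_right a1 X0.le)
        _ ≤ d * ((1 + 2 * F.ε) * Y) := mul_le_mul_of_nonneg_left (by nlinarith) (by linarith)
        _ = _ := by ring)
    (fun c _ p hp => by
      have a1 := (wd hp).2.le
      set d : ℝ := ((pv c * p : ℕ) : ℝ)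
      calc d * Y ≤ (1 + F.ε) * F.D * X := mul_le_mul a1 yx Y0.le (by positivity)
        _ ≤ (1 + F.ε) * (Z + E) := by
          rw [mul_assoc]; exact mul_le_mul_of_nonneg_left hZ2 (by positivity)
        _ ≤ _ := by nlinarith)
    (by positivity) (fun c _ p hp => (wd hp).2.le.trans (by nlinarith))
    (by linarith [h.η1]) (fun c _ p _ => h.Ewk.trans_eq (Em_Ws h0 p).symm) (norm_v h0)
    (II F) (fun c p => filter_subset _ _) fun c _ p hp => card_II h0 hp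
  rw [tf_eq]
  refine le_trans ?_ key
  have c1 : 99 / 100 ≤ (1 - P.η) ^ F.k := by
    have := one_add_mul_le_pow (a := -P.η) (by linarith [h.η1]) F.k
    rw [← sub_eq_add_neg] at this
    linarith
  have c2 : 9 / 10 * δ * (99 / 100) ≤ (∑ m ∈ range Y, cr m) / Y * (1 - P.η) ^ F.k :=
    mul_le_mul β1 c1 (by norm_num) (le_trans (by positivity) β1)
  have c3 : (P.Λ ^ 3) ^ F.k * τ ≤ P.η := by
    refine le_trans (mul_le_mul_of_nonneg_right ?_ τ0) hτ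
    rw [← pow_mul]
    exact pow_le_pow_right₀ (by linarith) (Nat.mul_le_mul_right _ (by omega))
  have c4 := tau_small h (by omega)
  have c5 : 0 ≤ (P.Λ ^ 3) ^ F.k * tauI F.k F.N P.Ms := mul_nonneg (by positivity)
    (tauI_nonneg _ (by exact_mod_cast N_pos h0) (Ms_pos h))
  have c6 : (P.Λ ^ 3) ^ F.k * (2 * F.N * (2 * F.D) * (R + 1) / Z) ≤ δ / 100 := by
    have a1 : 400 * (P.Λ ^ 3) ^ F.k * F.N * F.D * (R + 1) ≤ Z * δ := by
      rw [← div_le_iff₀ δ0]; linarith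
    rw [← mul_div_assoc, div_le_iff₀ Z0]
    linarith
  rw [mul_add, mul_add, mul_left_comm _ (1 + 2 * (2 * F.ε))]
  linarith [mul_le_mul_of_nonneg_right e4 c5]

end Pool.Agent.P.MP_4ef411_nt.Al
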