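import Pool.Agent.P.MP_4ef411_nt.Al.FinA
import Pool.Agent.P.MP_a14ce1_nt.Fu.Fin9
import Pool.Agent.P.MP_a14ce1_nt.Fu.LocB

/-! The last step, centred. -/

open Finset Filter
open scoped ComplexConjugate

namespace Pool.Agent.P.MP_4ef411_nt.Al

open Pool.Agent.P.MP_a14ce1_nt
open Pool.Agent.P.MP_a14ce1_nt.Fu (Pot)
open Pool.Agent.P.MP_a14ce1_nt.V (av)
open Pool.Agent.P.MP_a14ce1_nt.IV (Gr gn cell Up)
open Pool.Agent.P.MP_746f10_nt
open Pool.Agent.P.MP_746f10_nt.LP (Tr)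
open Pool.Agent.P.MP_e30989_nt.W (UCM)

namespace FinP

theorem corr {η : ℝ} {N : ℕ} {x : ℕ → ℝ} (hx : Cen η N x) {T : Finset ℕ} {Z : ℕ}
    (hT : ∀ p ∈ T, p.Prime ∧ p ≤ Z) (hZ : (Z : ℝ) ≤ (N : ℝ) ^ η) {W : Finset ℕ → ℝ}
    (hW : ∀ S, |W S| ≤ 1) (Ψ : ℕ → ℂ) {Y Y' g : ℝ} (hY : 0 < Y)
    (h : g ≤ ∑ n ∈ Ico ⌈Y⌉₊ ⌈Y'⌉₊, gn (wx T W x n) (Ψ n) / n) : ∃ d : ℕ, 0 < d ∧ d ≤ (Z + 1) ^ Z ∧
      g / (2 * 3 ^ Z) ≤ |∑ m ∈ Ico ⌈Y / d⌉₊ ⌈Y' / d⌉₊, x m * (Ψ (d * m)).re / m| := by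
  obtain ⟨e, he, h1⟩ := Fu.Fin9P.expand (fun n => x n * (Ψ n).re / n) T W 1 (Ico ⌈Y⌉₊ ⌈Y'⌉₊) hW
  have hp : ∀ p ∈ e, p.Prime := fun p hp => (hT p (he hp)).1
  have hc : T.card ≤ Z := by
    have : T ⊆ Icc 1 Z := fun p hp => mem_Icc.2 ⟨(hT p hp).1.pos, (hT p hp).2⟩
    simpa using card_le_card this
  have d0 : 0 < ∏ p ∈ e, p := prod_pos fun p h => (hp p h).pos
  have hi : ∀ m, x ((∏ p ∈ e, p) * m) = x m := hx.pv_mul (c := e) fun q hq =>
    ⟨hp q hq, le_trans (by exact_mod_cast (hT q (he hq)).2) hZ⟩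
  refine ⟨∏ p ∈ e, p, d0, (prod_le_pow_card e _ (Z + 1) fun p h =>
    (hT p (he h)).2.trans (Nat.le_succ Z)).trans
      (Nat.pow_le_pow_right Z.succ_pos ((card_le_card he).trans hc)), ?_⟩
  set d := ∏ p ∈ e, p with hd
  have d1 : (1 : ℝ) ≤ d := by exact_mod_cast d0
  have e1 : (Ico ⌈Y⌉₊ ⌈Y'⌉₊).filter (fun n => ∀ p ∈ e, p ∣ n) =
      (Ico ⌈Y⌉₊ ⌈Y'⌉₊).filter fun n => d ∣ n := filter_congr fun n _ =>
    ⟨fun h => prod_primes_dvd n (fun p h => (hp p h).prime) h,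
      fun h p h' => (dvd_prod_of_mem (fun q => q) h').trans h⟩
  have e2 : ∑ m ∈ Ico ⌈Y / d⌉₊ ⌈Y' / d⌉₊, x (d * m) * (Ψ (d * m)).re / ((d * m : ℕ) : ℝ) =
      1 / d * ∑ m ∈ Ico ⌈Y / d⌉₊ ⌈Y' / d⌉₊, x m * (Ψ (d * m)).re / m := by
    rw [mul_sum]
    refine sum_congr rfl fun m _ => ?_
    rw [hi, Nat.cast_mul]
    ring
  rw [e1, Fu.Fin9P.rescale d0, e2, abs_mul, abs_of_pos (by positivity : (0 : ℝ) < 1 / d)] at h1
  have h2 : ∑ n ∈ Ico ⌈Y⌉₊ ⌈Y'⌉₊, gn (wx T W x n) (Ψ n) / n ≤ 2 * ∑ n ∈ Ico ⌈Y⌉₊ ⌈Y'⌉₊,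
      W (T.filter fun p => p ∣ n) * (x n * (Ψ n).re / n) := by
    rw [mul_sum]
    refine sum_le_sum fun n hn => ?_
    have n0 : 0 < n := (Nat.ceil_pos.2 hY).trans_le (mem_Ico.1 hn).1
    rw [gn, wx, if_neg n0.ne', Complex.re_ofReal_mul, Complex.conj_re, sub_div]
    have : 0 ≤ ‖Ψ n‖ ^ 2 / n := by positivity
    linarith [show 2 * (W (T.filter fun p => p ∣ n) * x n * (Ψ n).re) / n =
      2 * (W (T.filter fun p => p ∣ n) * (x n * (Ψ n).re / n)) by ring]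
  set S := |∑ m ∈ Ico ⌈Y / d⌉₊ ⌈Y' / d⌉₊, x m * (Ψ (d * m)).re / m|
  have S0 : 0 ≤ S := abs_nonneg _
  have h3 : (3 : ℝ) ^ T.card * 1 * (1 / d * S) ≤ 3 ^ Z * S := by
    rw [mul_one]
    exact mul_le_mul (pow_le_pow_right₀ (by norm_num) hc)
      (mul_le_of_le_one_left S0 ((div_le_one (by positivity)).2 d1)) (by positivity) (by positivity)
  rw [div_le_iff₀ (by positivity)]
  linarith [le_abs_self (∑ n ∈ Ico ⌈Y⌉₊ ⌈Y'⌉₊,
    W (T.filter fun p => p ∣ n) * (x n * (Ψ n).re / n))]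

theorem av_conj (g : ℕ → ℂ) (N : ℕ) : av (fun n => conj (g n)) N = conj (av g N) := by
  simp [av]

/-- from the real part to the function or its conjugate -/
theorem cplx {η : ℝ} {N : ℕ} {x : ℕ → ℝ} (hx : Cen η N x) (J : Finset ℕ) (hJ : ∀ m ∈ J, m ≠ 0)
    (Φ : ℕ → ℂ) : ∃ g, UCM g ∧ Tr ((N : ℝ) ^ η) g ∧
      2 * |∑ m ∈ J, x m * (Φ m).re / m| ≤ ‖∑ m ∈ J, (g m - av g N) * conj (Φ m) / m‖ := by
  obtain ⟨g, ω, hg, ht, hω, hx⟩ := hx
  set S1 := ∑ m ∈ J, (g m - av g N) * Φ m / m with hS1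
  set S2 := ∑ m ∈ J, (g m - av g N) * conj (Φ m) / m with hS2
  have e : 2 * ∑ m ∈ J, x m * (Φ m).re / m = (ω * S1).re + (ω * S2).re := by
    rw [hS1, hS2, mul_sum, mul_sum, mul_sum, Complex.re_sum, Complex.re_sum, ← sum_add_distrib]
    refine sum_congr rfl fun m hm => ?_
    rw [hx m (hJ m hm), ← Complex.add_re, ← mul_add, ← add_div, ← mul_add, Complex.add_conj,
      ← mul_div_assoc ω, ← mul_assoc ω, Complex.div_natCast_re, Complex.re_mul_ofReal]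
    ring
  have b : ∀ S : ℂ, |(ω * S).re| ≤ ‖S‖ / 2 := fun S => by
    refine (Complex.abs_re_le_norm _).trans ?_
    rw [norm_mul]
    nlinarith [norm_nonneg S]
  have e2 : 2 * |∑ m ∈ J, x m * (Φ m).re / m| ≤ ‖S1‖ / 2 + ‖S2‖ / 2 := by
    rw [← abs_two, ← abs_mul, e, abs_two]
    exact (abs_add_le _ _).trans (add_le_add (b _) (b _))
  rcases le_total ‖S1‖ ‖S2‖ with c | c
  · exact ⟨g, hg, ht, by linarith⟩
  · refine ⟨fun n => conj (g n), ⟨⟨fun m n hm hn => by rw [hg.1.mul m n hm hn, map_mul],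
      fun n => by rw [RCLike.norm_conj]; exact hg.1.bd n⟩,
      fun n hn => by rw [RCLike.norm_conj]; exact hg.2 n hn⟩,
      fun p hp h => by simp only [ht p hp h, map_one], ?_⟩
    have e3 : ∑ m ∈ J, (conj (g m) - av (fun n => conj (g n)) N) * conj (Φ m) / m = conj S1 := by
      rw [av_conj, hS1, map_sum]
      exact sum_congr rfl fun m _ => by simp
    rw [e3, RCLike.norm_conj]
    linarith

/-- change of the structured function and of the centre -/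
theorem change {g Φ Φ' : ℕ → ℂ} (hg : ∀ n, ‖g n‖ ≤ 1) (hΦ : ∀ n, ‖Φ' n‖ ≤ 1) {μ : ℂ} (hμ : ‖μ‖ ≤ 1)
    (ν : ℕ → ℂ) (J : Finset ℕ) {s e : ℝ} (hs : 0 < s) (hν : ∀ m ∈ J, ‖ν m - μ‖ ≤ e) :
    ‖∑ m ∈ J, (g m - μ) * conj (Φ m) / m‖ ≤ ‖∑ m ∈ J, (g m - ν m) * conj (Φ' m) / m‖ +
      (s + e) * ∑ m ∈ J, 1 / (m : ℝ) + (∑ m ∈ J, ‖Φ m - Φ' m‖ ^ 2 / m) / s := by
  have e1 : ‖∑ m ∈ J, (g m - μ) * conj (Φ m) / m - ∑ m ∈ J, (g m - ν m) * conj (Φ' m) / m‖ ≤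
      (s + e) * ∑ m ∈ J, 1 / (m : ℝ) + (∑ m ∈ J, ‖Φ m - Φ' m‖ ^ 2 / m) / s := by
    rw [← sum_sub_distrib, mul_sum, sum_div, ← sum_add_distrib]
    refine (norm_sum_le _ _).trans (sum_le_sum fun m hm => ?_)
    have a1 : (g m - μ) * conj (Φ m) / m - (g m - ν m) * conj (Φ' m) / m =
        ((g m - μ) * conj (Φ m - Φ' m) + (ν m - μ) * conj (Φ' m)) / m := by
      rw [map_sub]
      ring
    have a2 : ‖(g m - μ) * conj (Φ m - Φ' m)‖ ≤ s + ‖Φ m - Φ' m‖ ^ 2 / s := by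
      rw [norm_mul, RCLike.norm_conj]
      have b1 : ‖g m - μ‖ ≤ 2 := by linarith [norm_sub_le (g m) μ, hg m]
      refine (mul_le_mul_of_nonneg_right b1 (norm_nonneg _)).trans ?_
      rw [← sub_le_iff_le_add', le_div_iff₀ hs]
      nlinarith [sq_nonneg (‖Φ m - Φ' m‖ - s)]
    have a3 : ‖(ν m - μ) * conj (Φ' m)‖ ≤ e := by
      rw [norm_mul, RCLike.norm_conj]
      exact (mul_le_of_le_one_right (norm_nonneg _) (hΦ m)).trans (hν m hm)
    rw [a1, norm_div, Complex.norm_natCast]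
    refine (div_le_div_of_nonneg_right ((norm_add_le _ _).trans (add_le_add a2 a3))
      (Nat.cast_nonneg m)).trans (le_of_eq ?_)
    ring
  linarith [norm_sub_norm_le (∑ m ∈ J, (g m - μ) * conj (Φ m) / m)
    (∑ m ∈ J, (g m - ν m) * conj (Φ' m) / m)]

end FinP

open FinP in
theorem fin : S_Fin := by
  intro A hA h1A Z v η hv hη
  have hH := IV.hull _ hA.sys.atm
  obtain ⟨C, C0, hC⟩ := LP.lip_all η 2 hη
  obtain ⟨v1, hv1⟩ : ∃ v1, v1 = v / (2 * 3 ^ Z) := ⟨_, rfl⟩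
  have v0 : 0 < v1 := by rw [hv1]; positivity
  obtain ⟨θ, θ0, θ1, θ2⟩ : ∃ θ : ℝ, 0 < θ ∧ θ ≤ 1 / 2 ∧ θ ≤ v1 / (12 * C) :=
    ⟨min (1 / 2) (v1 / (12 * C)), lt_min (by norm_num) (by positivity), min_le_left _ _,
      min_le_right _ _⟩
  rw [le_div_iff₀ (by positivity)] at θ2
  refine ⟨θ, θ0, fun r hr => ?_⟩
  obtain ⟨s, hs⟩ : ∃ s, s = v1 / (12 * (r + 3)) := ⟨_, rfl⟩
  have s0 : 0 < s := by rw [hs]; positivity
  have s1 : 12 * (s * (r + 3)) = v1 := by rw [hs]; field_simp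
  obtain ⟨H, H0, hL⟩ := FinA.luw hA h1A (half_pos hη) s0
  obtain ⟨X0, hL⟩ := eventually_atTop.1 hL
  have H1 : (1 : ℝ) ≤ H := by exact_mod_cast H0
  obtain ⟨D, hD⟩ : ∃ D : ℝ, D = (((Z + 1) ^ Z : ℕ) : ℝ) := ⟨_, rfl⟩
  have D1 : 1 ≤ D := hD ▸ Nat.one_le_cast.2 (Nat.one_le_pow _ _ Z.succ_pos)
  obtain ⟨K, hK⟩ : ∃ K, K = 4 + 4 * H + 8 * (H * D * (r + 3)) / s := ⟨_, rfl⟩
  obtain ⟨M0, hM0⟩ : ∃ M0, M0 = 2 * H * D + K / v1 + 1 := ⟨_, rfl⟩
  have K0 : 0 < K := by rw [hK]; positivity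
  obtain ⟨Y0, hY0⟩ : ∃ Y0, Y0 = D * (X0 + 2 * H + 2) := ⟨_, rfl⟩
  have Y00 : 0 < Y0 := by rw [hY0]; positivity
  have hlog : Tendsto (fun X : ℕ => Real.log X) atTop atTop :=
    Real.tendsto_log_atTop.comp tendsto_natCast_atTop_atTop
  obtain ⟨N0, hN0⟩ := eventually_atTop.1 (hC.and ((((tendsto_rpow_atTop hη).comp
    tendsto_natCast_atTop_atTop).eventually_ge_atTop (Z : ℝ)).and
    ((hlog.eventually_ge_atTop (2 * (r * M0))).and ((hlog.eventually_ge_atTop (2 * Real.log Y0)).and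
    ((hlog.eventually_ge_atTop ((1 + Real.log (2 * D)) / θ)).and (eventually_ge_atTop 2))))))
  refine ⟨N0, fun N T W x Y M hN hT hW hx Y0' y1 y2 hM ⟨Ψ, g1, g2⟩ => ?_⟩
  obtain ⟨hC, n1, n2, n3, n4, n5⟩ := hN0 N hN
  rw [div_le_iff₀ θ0] at n4
  have N2 : (2 : ℝ) ≤ N := by exact_mod_cast n5
  have l0 : 0 < Real.log N := Real.log_pos (by linarith)
  have y0 : θ * Real.log N ≤ 1 / 2 * Real.log N := mul_le_mul_of_nonneg_right θ1 l0.le
  rw [sub_mul, one_mul] at y1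
  rw [add_mul, one_mul] at y2
  have y3 : Real.log N / 2 ≤ Real.log Y := by linarith
  have M1 : M0 ≤ M := le_of_mul_le_mul_left (by linarith) hr
  have y4 : Y0 ≤ Y := (Real.log_le_log_iff Y00 Y0').1 (by linarith)
  have q0 : 0 < K / v1 := by positivity
  have q1 : 0 < 2 * H * D := by positivity
  have M2 : 1 ≤ M := by linarith
  have E1 : M + 1 ≤ Real.exp M := Real.add_one_le_exp M
  have E0 := Real.exp_pos M
  obtain ⟨d, d0, d1, h⟩ := corr hx hT n1 hW Ψ Y0' g2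
  have d2 : (1 : ℝ) ≤ d := by exact_mod_cast d0
  have d3 : (d : ℝ) ≤ D := hD ▸ Nat.cast_le.2 d1
  rw [mul_div_right_comm v, ← hv1, mul_div_right_comm Y] at h
  have y5 : (X0 : ℝ) + 2 * H + 2 ≤ Y / d := by
    rw [le_div_iff₀ (by positivity)]
    refine le_trans ?_ y4
    rw [hY0, mul_comm]
    gcongr
  have y6 : Real.log Y - Real.log D ≤ Real.log (Y / d) := by
    rw [Real.log_div Y0'.ne' (by positivity)]
    linarith [Real.log_le_log (by positivity) d3]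
  have y7 : Y / d ≤ Y := div_le_self Y0'.le d2
  generalize Y / d = y at h y5 y6 y7
  have X00 : (0 : ℝ) ≤ X0 := Nat.cast_nonneg _
  have y8 : 2 ≤ y := by linarith
  have y9 : y ≤ y * Real.exp M := le_mul_of_one_le_right (by linarith) (by linarith)
  have z1 : Real.log (y * Real.exp M) ≤ Real.log Y + M := by
    rw [Real.log_mul (by linarith) E0.ne', Real.log_exp]
    linarith [Real.log_le_log (by linarith) y7]
  have hm : ∑ m ∈ Ico ⌈y⌉₊ ⌈y * Real.exp M⌉₊, 1 / (m : ℝ) ≤ M + 1 := by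
    rw [Fu.Loc.Ico_ceil (by linarith)]
    linarith [Fu.Loc.harm_LL (Fu.Loc.one_le_bl y8) (Fu.Loc.bl_exp (Y := y) (M := M) (by linarith)
      (by linarith)), Fu.Loc.LL_bl y8 (show 0 ≤ M by linarith)]
  have a1 : 1 ≤ ⌈y⌉₊ := Nat.ceil_pos.2 (by linarith)
  have a2 : ∀ m ∈ Ico ⌈y⌉₊ ⌈y * Real.exp M⌉₊, y ≤ m ∧ (m : ℝ) < y * Real.exp M := fun m hm =>
    ⟨Nat.ceil_le.1 (mem_Ico.1 hm).1, Nat.lt_ceil.1 (mem_Ico.1 hm).2⟩
  have e1 : ⌈y * Real.exp M⌉₊ ≤ N ^ 2 := by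
    rw [Nat.ceil_le, ← Real.log_le_log_iff (by linarith) (by positivity), Nat.cast_pow, Real.log_pow]
    push_cast
    linarith
  have e2 : X0 ≤ ⌈y * Real.exp M⌉₊ := by
    have := Nat.le_ceil (y * Real.exp M)
    exact_mod_cast (show (X0 : ℝ) ≤ ⌈y * Real.exp M⌉₊ by linarith)
  have e3 : 1 + Real.log ⌈y * Real.exp M⌉₊ ≤ (r + 3) * M := by
    have b1 := Nat.ceil_lt_add_one (show 0 ≤ y * Real.exp M by linarith)
    have b2 := Real.log_le_log (by exact_mod_cast Nat.ceil_pos.2 (show 0 < y * Real.exp M by linarith))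
      (show (⌈y * Real.exp M⌉₊ : ℝ) ≤ 2 * (y * Real.exp M) by linarith)
    rw [Real.log_mul two_ne_zero (by linarith)] at b2
    linarith [Real.log_two_lt_d9]
  generalize ⌈y * Real.exp M⌉₊ = e at h hm a2 e1 e2 e3
  generalize ⌈y⌉₊ = a at h hm a1 a2
  have e4 : 0 ≤ Real.log e := Real.log_natCast_nonneg e
  obtain ⟨g, hg, ht, hS⟩ := cplx hx (Ico a e) (fun m hm => by have := (mem_Ico.1 hm).1; omega)
    fun m => Ψ (d * m)
  obtain ⟨Φ, g3, g4, -⟩ := IV.regrid_all _ hH (Real.exp M / d) H (H * D / Real.exp M)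
    (Up (fun _ => 1) d Ψ) e H1
    (by
      rw [div_mul_div_comm, le_div_iff₀ (by positivity)]
      have : (H : ℝ) * Real.exp M * d ≤ H * Real.exp M * D := by gcongr
      linarith)
    (by positivity) (by rw [div_le_iff₀ E0]; linarith) (g1.up hH (fun _ => by simp) d0)
  have c1 := FinA.grid hH hg.1.bd (e := e) H0 a1 g3 (hL e e2 g hg (ht.mono (by
    calc (e : ℝ) ^ (η / 2) ≤ ((N ^ 2 : ℕ) : ℝ) ^ (η / 2) := by gcongr
      _ = _ := by
        rw [Nat.cast_pow, ← Real.rpow_natCast, ← Real.rpow_mul (by linarith)]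
        congr 1
        push_cast
        ring)))
  have c2 := change (Φ := fun m => Ψ (d * m)) hg.1.bd (g3.bd hH (by linarith))
    (V.norm_av_le hg.1.bd N) (fun m => av g (m / H * H)) (Ico a e) s0 (e := v1 / 6) fun m hm => by
      obtain ⟨b1, b2⟩ := a2 m hm
      have b3 : ((m / H * H : ℕ) : ℝ) ≤ m := by exact_mod_cast Nat.div_mul_le_self m H
      have b4 : (m : ℝ) ≤ (m / H * H : ℕ) + H := by exact_mod_cast (Nat.lt_div_mul_add H0).le
      have b5 : m / H * H ≤ N ^ 2 := (Nat.div_mul_le_self m H).trans ((mem_Ico.1 hm).2.le.trans e1)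
      generalize m / H * H = u at b3 b4 b5
      have b6 : y / 2 ≤ u := by linarith
      have u0 : (0 : ℝ) < u := by linarith
      have b7 : ∀ t : ℝ, t ≤ θ * Real.log N + Real.log (2 * D) →
          C * (1 + t) / Real.log N ≤ v1 / 6 := fun t ht => by
        rw [div_le_iff₀ l0]
        calc _ ≤ C * (2 * (θ * Real.log N)) := by gcongr; linarith only [n4, ht]
          _ = θ * (12 * C) / 6 * Real.log N := by ring
          _ ≤ _ := by gcongr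
      have b8 := Real.log_nonneg (show 1 ≤ 2 * D by linarith)
      rcases le_total u N with c | c
      · rw [norm_sub_rev]
        refine (hC g hg.1 ht u N (by exact_mod_cast u0) c (Nat.le_self_pow two_ne_zero N)).trans
          (b7 _ ?_)
        have b9 := Real.log_le_log (by linarith) b6
        rw [Real.log_div (by linarith) two_ne_zero] at b9
        rw [Real.log_div (by linarith) u0.ne', Real.log_mul two_ne_zero (by linarith)]
        linarith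
      · refine (hC g hg.1 ht N u (by omega) c b5).trans (b7 _ ?_)
        have b9 := Real.log_le_log u0 (b3.trans b2.le)
        rw [Real.log_div u0.ne' (by linarith)]
        linarith
  have c3 : ∑ m ∈ Ico a e, ‖Ψ (d * m) - Φ m‖ ^ 2 / m ≤ 8 * (H * D * (r + 3)) := by
    have b1 : ∑ m ∈ Ico a e, ‖Ψ (d * m) - Φ m‖ ^ 2 / m ≤ IV.dst e (Up (fun _ => 1) d Ψ) Φ := by
      simp only [IV.dst, Up, map_one, one_mul]
      refine sum_le_sum_of_subset_of_nonneg (fun m hm => ?_) fun _ _ _ => by positivity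
      rw [mem_Ico] at hm
      exact mem_Icc.2 ⟨by omega, hm.2.le⟩
    refine b1.trans (g4.trans ?_)
    rw [mul_assoc]
    refine mul_le_mul_of_nonneg_left ?_ (by norm_num)
    rw [div_mul_eq_mul_div, div_le_iff₀ E0, mul_assoc (H * D)]
    exact mul_le_mul_of_nonneg_left (e3.trans (by gcongr; linarith)) (by positivity)
  have c4 := div_le_div_of_nonneg_right c3 s0.le
  have c5 : (s + v1 / 6) * ∑ m ∈ Ico a e, 1 / (m : ℝ) ≤ (v1 / 12 + v1 / 6) * (2 * M) := by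
    refine mul_le_mul (by linarith only [s1, mul_pos s0 hr, s0]) (by linarith only [hm, M2])
      (sum_nonneg fun _ _ => by positivity) (by positivity)
  have c6 : s * Real.log e ≤ v1 / 12 * M := by
    calc _ ≤ s * ((r + 3) * M) := by gcongr; linarith
      _ = _ := by rw [← s1]; ring
  have c7 : K < M * v1 := (div_lt_iff₀ v0).1 (by linarith)
  linarith only [c1, c2, c4, c5, c6, c7, hS, h, hK, mul_pos v0 (show 0 < M by linarith)]

end Pool.Agent.P.MP_4ef411_nt.Al
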