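import Pool.Agent.P.MP_4ef411_nt.Al.St
import Pool.Agent.P.MP_746f10_nt.LP.All

/-! Local correlations of a centred function with structured functions on a grid. -/

open Finset Filter
open scoped ComplexConjugate

namespace Pool.Agent.P.MP_4ef411_nt.Al.FinA

open Pool.Agent.P.MP_a14ce1_nt
open Pool.Agent.P.MP_a14ce1_nt.V (av)
open Pool.Agent.P.MP_a14ce1_nt.IV (Gr gn cell wa ws)
open Pool.Agent.P.MP_746f10_nt
open Pool.Agent.P.MP_746f10_nt.LP (Tr)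
open Pool.Agent.P.MP_e30989_nt.W (UCM)

theorem harm_Ico (J X : ℕ) (h : J ≤ X) : ∑ j ∈ Ico 1 J, 1 / (j : ℝ) ≤ 1 + Real.log X := by
  refine le_trans (sum_le_sum_of_subset_of_nonneg (fun j hj => ?_) fun _ _ _ => by positivity)
    (IV.harm_le X)
  have h1 := mem_Ico.1 hj
  exact mem_Icc.2 ⟨h1.1, h1.2.le.trans h⟩

theorem luw {A : Set (ℤ → ℂ)} (hA : Ax.Good A) (h1 : (fun _ => 1) ∈ Ax.res A) {η ε : ℝ}
    (hη : 0 < η) (hε : 0 < ε) : ∃ H : ℕ, 0 < H ∧ ∀ᶠ X : ℕ in atTop, ∀ g, UCM g →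
      Tr ((X : ℝ) ^ η) g → ∀ b : ℕ → ℕ → ℂ, (∀ j, b j ∈ Ax.hull (Ax.res A)) →
      ∑ j ∈ Ico 1 (X / H), 1 / (j : ℝ) *
        (‖∑ n ∈ cell (H : ℝ) j, (g n - av g (j * H)) * conj (b j n)‖ / H) ≤ ε * Real.log X := by
  have hX := IV.hull _ hA.sys.atm
  obtain ⟨τ, τ0, τ1, τ2⟩ : ∃ τ : ℝ, 0 < τ ∧ τ ≤ 1 ∧ τ ≤ ε / 16 :=
    ⟨min 1 (ε / 16), lt_min one_pos (by positivity), min_le_left _ _, min_le_right _ _⟩
  obtain ⟨H0, hL⟩ := LP.lift_all A hA η (τ * ε / 4) hη (by positivity)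
  refine ⟨H0 + 1, H0.succ_pos, ?_⟩
  have hL := hL (H0 + 1) (Nat.le_succ _)
  have h0 : 0 < H0 + 1 := H0.succ_pos
  generalize H0 + 1 = h at hL h0
  have hlog : Tendsto (fun X : ℕ => Real.log X) atTop atTop :=
    Real.tendsto_log_atTop.comp tendsto_natCast_atTop_atTop
  filter_upwards [hL, eventually_ge_atTop h,
    hlog.eventually_ge_atTop ((77 + Real.log h) / (τ * ε / 4))] with X hL hX3 hX2 g hg ht b hb
  rw [div_le_iff₀ (by positivity)] at hX2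
  have l0 : 0 ≤ Real.log X := Real.log_natCast_nonneg X
  choose u hu hu' using fun j => LP.gain _ hX (subset_convexHull ℝ _ h1) g (b j) (av g (j * h)) τ h j
    hg.1.bd (hb j) (V.norm_av_le hg.1.bd _) τ0.le τ1 h0
  have e5 := (IV.w3 IV.conv _ hX g u h X (X / h) hg hu (by exact_mod_cast h0)
    (by exact_mod_cast Nat.div_mul_le_self X h)).dst_le h0
  set s : ℕ → ℝ := fun j => ‖∑ n ∈ cell (h : ℝ) j, (g n - av g (j * h)) * conj (b j n)‖ / h with hs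
  have e6 : ∑ j ∈ Ico 1 (X / h), 1 / (j : ℝ) * (wa (h : ℝ) j (fun m => gn (g m) (av g (j * h))) +
      τ * s j - 4 * τ ^ 2) ≤ ws h (X / h) fun j m => gn (g m) (u j m) :=
    sum_le_sum fun j _ => mul_le_mul_of_nonneg_left (hu' j) (by positivity)
  have e7 : ∑ j ∈ Ico 1 (X / h), 1 / (j : ℝ) * (wa (h : ℝ) j (fun m => gn (g m) (av g (j * h))) +
      τ * s j - 4 * τ ^ 2) = (ws h (X / h) fun j m => gn (g m) (av g (j * h))) +
        τ * ∑ j ∈ Ico 1 (X / h), 1 / (j : ℝ) * s j -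
        4 * τ ^ 2 * ∑ j ∈ Ico 1 (X / h), 1 / (j : ℝ) := by
    rw [ws, mul_sum, mul_sum, ← sum_add_distrib, ← sum_sub_distrib]
    exact sum_congr rfl fun j _ => by ring
  have e8 := harm_Ico (X / h) X (Nat.div_le_self _ _)
  have e15 := LP.base IV.conv g h X hg.1.bd h0 hX3
  have e16 := hL g hg ht
  have e10 := mul_le_mul_of_nonneg_left e8 (sq_nonneg τ)
  have e11 : τ ^ 2 ≤ 1 := pow_le_one₀ τ0.le τ1
  have e12 : τ ^ 2 * Real.log X ≤ τ * (ε / 16) * Real.log X :=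
    mul_le_mul_of_nonneg_right (by nlinarith) l0
  have e13 : 0 ≤ τ * ε * Real.log X := by positivity
  refine le_of_mul_le_mul_left ?_ τ0
  linarith

theorem window3 {φ : ℕ → ℂ} (hφ : ∀ n, ‖φ n‖ ≤ 2) {a e h : ℕ} (ha : 1 ≤ a) (h0 : 0 < h) :
    ‖∑ n ∈ Ico a e, φ n‖ ≤
      ∑ j ∈ Ico (a / h + 1) (e / h), ‖∑ n ∈ cell (h : ℝ) j, φ n‖ + 4 * h := by
  rcases le_or_gt (a + h) e with c | c
  · obtain ⟨H, rfl⟩ : ∃ H, e = a + H := ⟨e - a, by omega⟩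
    exact LP.InitP.window2 hφ ha h0 (by omega)
  · have h1 : ‖∑ n ∈ Ico a e, φ n‖ ≤ h * 2 := by
      refine (norm_sum_le _ _).trans ((sum_le_card_nsmul _ _ 2 fun n _ => hφ n).trans ?_)
      rw [Nat.card_Ico, nsmul_eq_mul]
      gcongr
      omega
    have h2 : 0 ≤ ∑ j ∈ Ico (a / h + 1) (e / h), ‖∑ n ∈ cell (h : ℝ) j, φ n‖ :=
      sum_nonneg fun _ _ => norm_nonneg _
    have h3 : (0 : ℝ) ≤ h := Nat.cast_nonneg h
    linarith

theorem one_cell {ψ : ℕ → ℂ} (hψ : ∀ n, ‖ψ n‖ ≤ 2) {h j : ℕ} (h0 : 0 < h) (hj : 1 ≤ j) :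
    ‖∑ n ∈ cell (h : ℝ) j, ψ n / n‖ ≤
      1 / (j : ℝ) * (‖∑ n ∈ cell (h : ℝ) j, ψ n‖ / h) + 2 * ((j : ℝ) ^ 2)⁻¹ := by
  have hh : (0 : ℝ) < h := by exact_mod_cast h0
  have hj' : (0 : ℝ) < j := by exact_mod_cast hj
  have e1 : ‖∑ n ∈ cell (h : ℝ) j, ψ n / n - (∑ n ∈ cell (h : ℝ) j, ψ n) / ((j * h : ℕ) : ℂ)‖ ≤
      h * (2 * (1 / ((j : ℝ) ^ 2 * h))) := by
    rw [sum_div, ← sum_sub_distrib]
    refine (norm_sum_le _ _).trans ((sum_le_card_nsmul _ _ (2 * (1 / ((j : ℝ) ^ 2 * h)))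
      fun n hn => ?_).trans (by rw [LP.GainP.card_cell, nsmul_eq_mul]))
    rw [IV.InitP.cell_nat, mem_Ico] at hn
    have a2 : (j : ℝ) * h ≤ n := by exact_mod_cast hn.1
    have a3 : (n : ℝ) ≤ (j + 1) * h := by exact_mod_cast hn.2.le
    have n0 : (0 : ℝ) < n := lt_of_lt_of_le (by positivity) a2
    have e : ψ n / n - ψ n / ((j * h : ℕ) : ℂ) =
        -(ψ n * ((1 / ((j : ℝ) * h) - 1 / n : ℝ) : ℂ)) := by
      push_cast
      ring
    have b0 : 0 ≤ 1 / ((j : ℝ) * h) - 1 / n :=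
      sub_nonneg.2 (one_div_le_one_div_of_le (by positivity) a2)
    rw [e, norm_neg, norm_mul, Complex.norm_real, Real.norm_of_nonneg b0]
    refine mul_le_mul (hψ n) ?_ b0 zero_le_two
    rw [div_sub_div _ _ (by positivity) n0.ne', div_le_div_iff₀ (by positivity) (by positivity)]
    have b1 : (1 * n - j * h * 1 : ℝ) ≤ h := by linarith
    calc _ ≤ (h : ℝ) * (j ^ 2 * h) := mul_le_mul_of_nonneg_right b1 (by positivity)
      _ = 1 * (j * h * (j * h)) := by ring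
      _ ≤ _ := by gcongr
  have e2 := norm_sub_norm_le (∑ n ∈ cell (h : ℝ) j, ψ n / n)
    ((∑ n ∈ cell (h : ℝ) j, ψ n) / ((j * h : ℕ) : ℂ))
  rw [norm_div, Complex.norm_natCast] at e2
  have e3 : (h : ℝ) * (2 * (1 / ((j : ℝ) ^ 2 * h))) = 2 * ((j : ℝ) ^ 2)⁻¹ := by field_simp
  have e4 : ‖∑ n ∈ cell (h : ℝ) j, ψ n‖ / ((j * h : ℕ) : ℝ) =
      1 / (j : ℝ) * (‖∑ n ∈ cell (h : ℝ) j, ψ n‖ / h) := by
    push_cast
    field_simp
  linarith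

/-- correlations on an interval with a function that is structured on the grid of length H -/
theorem grid {XX : Set (ℕ → ℂ)} (hX : IV.Hull XX) {g Φ : ℕ → ℂ} (hg : ∀ n, ‖g n‖ ≤ 1) {H a e : ℕ}
    (h0 : 0 < H) (ha : 1 ≤ a) (hΦ : Gr XX H Φ) {B : ℝ}
    (hB : ∀ b : ℕ → ℕ → ℂ, (∀ j, b j ∈ XX) → ∑ j ∈ Ico 1 (e / H), 1 / (j : ℝ) *
      (‖∑ n ∈ cell (H : ℝ) j, (g n - av g (j * H)) * conj (b j n)‖ / H) ≤ B) :
    ‖∑ m ∈ Ico a e, (g m - av g (m / H * H)) * conj (Φ m) / m‖ ≤ B + 4 + 4 * H := by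
  have hH : (0 : ℝ) < H := by exact_mod_cast h0
  have b1 := hΦ.bd hX hH
  have b2 : ∀ m M, ‖(g m - av g M) * conj (Φ m)‖ ≤ 2 := fun m M => by
    rw [norm_mul, RCLike.norm_conj]
    refine (mul_le_of_le_one_right (norm_nonneg _) (b1 m)).trans ?_
    linarith [norm_sub_le (g m) (av g M), hg m, V.norm_av_le hg M]
  choose b hb hb' using hΦ
  refine (window3 (fun m => ?_) ha h0).trans (add_le_add_left ?_ _)
  · rw [norm_div, Complex.norm_natCast]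
    rcases Nat.eq_zero_or_pos m with rfl | m0
    · simp
    · exact (div_le_self (norm_nonneg _) (by exact_mod_cast m0)).trans (b2 m _)
  have e1 : ∀ j ∈ Ico 1 (e / H),
      ‖∑ n ∈ cell (H : ℝ) j, (g n - av g (n / H * H)) * conj (Φ n) / n‖ ≤ 1 / (j : ℝ) *
        (‖∑ n ∈ cell (H : ℝ) j, (g n - av g (j * H)) * conj (b j n)‖ / H) +
          2 * ((j : ℝ) ^ 2)⁻¹ := fun j hj => by
    refine (one_cell (fun n => b2 n (n / H * H)) h0 (mem_Ico.1 hj).1).trans (le_of_eq ?_)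
    congr 4
    refine sum_congr rfl fun n hn => ?_
    rw [hb' j n hn]
    rw [IV.InitP.cell_nat, mem_Ico] at hn
    rw [Nat.div_eq_of_lt_le hn.1 hn.2]
  have e2 : ∑ j ∈ Ico 1 (e / H), ((j : ℝ) ^ 2)⁻¹ ≤ 2 := by
    have := sum_Ioo_inv_sq_le (α := ℝ) 0 (e / H)
    rw [Nat.cast_zero, zero_add, div_one] at this
    exact this
  refine (sum_le_sum_of_subset_of_nonneg (Ico_subset_Ico_left (Nat.le_add_left 1 _))
    fun _ _ _ => norm_nonneg _).trans ((sum_le_sum e1).trans ?_)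
  rw [sum_add_distrib, ← mul_sum]
  linarith [hB b hb]

end Pool.Agent.P.MP_4ef411_nt.Al.FinA
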