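import Pool.Agent.P.MP_4ef411_nt.Al.St
import Pool.Agent.P.MP_a14ce1_nt.Fu.Glue

/-! The blocks imply the main statement. -/

open Finset

namespace Pool.Agent.P.MP_4ef411_nt.Al

open Pool.Agent.P.MP_a14ce1_nt
open Pool.Agent.P.MP_a14ce1_nt.Fu
open Pool.Agent.P.MP_a14ce1_nt.Fu.St
open Pool.Agent.P.MP_a14ce1_nt.Ch (pv)

namespace Glue

theorem Tf_telM (F : Fam) (Z : ℕ) (s : ℕ → ℝ) (u v : ℕ → Fin Z → ℕ → ℝ) :
    F.Tf Z s u - F.Tf Z s v = ∑ j ∈ range F.k, F.Tf Z s (mx u v j) := by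
  unfold Fam.Tf
  rw [← ex_sub, ← ex_sum]
  refine ex_congr fun n => ?_
  rw [← sum_sub_distrib, sum_comm]
  refine sum_congr rfl fun a _ => ?_
  rw [← sum_sub_distrib, sum_comm]
  refine sum_congr rfl fun c _ => ?_
  rw [← sum_sub_distrib, sum_comm]
  refine sum_congr rfl fun p _ => ?_
  split_ifs with h
  · rw [← mul_sub, ← mul_sum]
    congr 1
    exact prod_mix F.k _ (fun i => u i n (a + i * (pv c * p))) fun i => v i n (a + i * (pv c * p))
  · simp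

theorem abs_predM {A : Type} (Z Q : ℕ) (dt : ℕ → A) (C : ℕ → Finset ℕ) {ζ X : ℕ → ℝ}
    (hζ : ∀ n, 0 ≤ ζ n) (hX : ∀ n, |X n| ≤ 1) (n : Fin Z) (b : ℕ) :
    |pred Z Q dt C ζ X n b| ≤ 1 :=
  abs_yr_le _ (fun _ => hζ _) (fun _ => hX _) n

/-- the conclusion of section 3 -/
def StepM (F : Fam) (P : Par) (C : ℕ) {A : Type} (dt : ℕ → A) (Z : ℕ) (s : ℕ → ℝ)
    (X : ℕ → ℕ → ℝ) (C0 C1 : ℕ → Finset ℕ) : Prop :=
  (∀ x, C1 x ⊆ range F.N) ∧ (∀ n, C0 (n % F.Qk0) ⊆ C1 (n % F.Qk)) ∧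
    size Z F.Qk F.N C1 ≤ size Z F.Qk0 F.N C0 + C * top F P / P.η ∧
    ∑ i0 ∈ range F.k, F.Tf Z s
      (mx (fun i n b => X i (n + b)) (fun i => pred Z F.Qk dt C1 F.z (X i)) i0) ≤ C * P.η

variable {k C C2 S : ℕ} {ε η Cw Λ : ℝ} {T : Finset ℕ} {F : ℕ → Fam} {P : ℕ → Par}

theorem codesM (h : Chain k C C2 S ε η Cw Λ T F P) {A : Type} [Fintype A] (dt : ℕ → A)
    (hA : Real.log (Fintype.card A) ≤ Λ) {Z : ℕ} (hZ : 0 < Z) (hper : pv (F 0).all ∣ Z)
    (s : ℕ → ℕ → ℝ) (X : ℕ → ℕ → ℕ → ℝ)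
    (hc : ∀ j < S, ∀ C0, Dat (F j) (P j) A Z C0 →
      ∃ C1, StepM (F j) (P j) C dt Z (s j) (X j) C0 C1) :
    ∃ Cs : ℕ → ℕ → Finset ℕ, ∀ j < S,
      Dat (F j) (P j) A Z (Cs j) ∧ StepM (F j) (P j) C dt Z (s j) (X j) (Cs j) (Cs (j + 1)) := by
  classical
  choose! nx hnx using hc
  let Cs : ℕ → ℕ → Finset ℕ := fun j => Nat.rec (fun _ => ∅) (fun i c => nx i c) j
  have e1 : ∀ j, Cs (j + 1) = nx j (Cs j) := fun _ => rfl
  have dat : ∀ j < S, (∀ x, Cs j x ⊆ range (F j).N) →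
      size Z (F j).Qk0 (F j).N (Cs j) ≤ ∑ i ∈ range j, C * top (F i) (P i) / η →
      Dat (F j) (P j) A Z (Cs j) := fun j hj a b => by
    obtain ⟨-, -, -, -, -, -, c1, c2, -⟩ := h.com j hj
    exact ⟨c1 ▸ hA, hZ, c2 ▸ hper, a, b.trans (h.sin j hj)⟩
  have key : ∀ j < S, (∀ x, Cs j x ⊆ range (F j).N) ∧
      size Z (F j).Qk0 (F j).N (Cs j) ≤ ∑ i ∈ range j, C * top (F i) (P i) / η := by
    intro j
    induction j with
    | zero => exact fun _ => ⟨fun _ => empty_subset _, by simp [size, Cs, ex_zero]⟩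
    | succ j ih =>
      intro hj
      obtain ⟨a, b⟩ := ih (by omega)
      obtain ⟨s1, -, s3, -⟩ := hnx j (by omega) _ (dat j (by omega) a b)
      have n1 : (F (j + 1)).N = (F j).N := (h.com _ hj).2.1.trans (h.com j (by omega)).2.1.symm
      rw [n1, ← (h.nxt j hj).1, e1, sum_range_succ]
      rw [(h.com j (by omega)).2.2.2.2.1] at s3
      exact ⟨s1, by linarith⟩
  exact ⟨Cs, fun j hj => ⟨dat j hj (key j hj).1 (key j hj).2,
    hnx j hj _ (dat j hj (key j hj).1 (key j hj).2)⟩⟩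

/-- the increment of the predictor of `X` at one step -/
noncomputable def inc (F : Fam) {A : Type} (dt : ℕ → A) (Z : ℕ) (C0 C1 : ℕ → Finset ℕ)
    (X : ℕ → ℝ) : ℝ :=
  ex fun n : Fin Z => (∑ b ∈ range F.N, F.vv (n + b) *
    (pred Z F.Qk dt C1 F.z X n b - pred Z F.Qk0 dt C0 F.z0 X n b) ^ 2) / F.N

theorem inc_nn {F : Fam} {P : Par} (h : Hyp0 F P) {A : Type} (dt : ℕ → A) (Z : ℕ)
    (C0 C1 : ℕ → Finset ℕ) (X : ℕ → ℝ) : 0 ≤ inc F dt Z C0 C1 X :=
  ex_nonneg fun _ => div_nonneg (sum_nonneg fun _ _ =>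
    mul_nonneg (vv_nn h _) (sq_nonneg _)) (by positivity)

theorem mart1 (hV : S_VV) (h : Chain k C C2 S ε η Cw Λ T F P) {A : Type} (dt : ℕ → A) {Z : ℕ}
    (hZ : 0 < Z) (hper : pv (F 0).all ∣ Z) (Cs : ℕ → ℕ → Finset ℕ)
    (hC : ∀ j < S, ∀ n, Cs j (n % (F j).Qk0) ⊆ Cs (j + 1) (n % (F j).Qk)) {X : ℕ → ℝ}
    (hX : ∀ n, |X n| ≤ 1) : ∑ j ∈ range S, inc (F j) dt Z (Cs j) (Cs (j + 1)) X ≤ 1 := by
  have h0 : ∀ j < S, Hyp0 (F j) (P j) := fun j hj => (h.hyp j hj).1.toHyp0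
  let Q : ℕ → ℕ := fun j => Nat.casesOn j (F 0).Qk0 fun i => (F i).Qk
  let ζ : ℕ → ℕ → ℝ := fun j => Nat.casesOn j (F 0).z0 fun i => (F i).z
  let v : ℕ → ℕ → ℝ := fun j => Nat.casesOn j
    (fun n => (F 0).V 0 ((F 0).m + 1) (dp (F 0).Lo n) * (F 0).vk (dp (F 0).U n))
    fun i n => (F i).V 0 ((F i).m + 1) (dp (F i).Lo n) * (F i).vk (dp (F i).U n) *
      (F i).zj (dp (F i).RR n)
  have eQ : ∀ j < S, Q j = (F j).Qk0 ∧ ζ j = (F j).z0 := fun j hj => by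
    cases j with
    | zero => exact ⟨rfl, rfl⟩
    | succ i => exact h.nxt i hj
  have one : ∀ b, ∑ j ∈ range S, ex (fun n : Fin Z => (F 0).vv (n + b) *
      (pred Z (Q (j + 1)) dt (Cs (j + 1)) (ζ (j + 1)) X n b -
        pred Z (Q j) dt (Cs j) (ζ j) X n b) ^ 2) ≤ 1 := fun b => by
    refine (pig_yr (fun j => gl Z (Q j) dt (Cs j)) S (fun j hj => ?_)
      (V := fun n : Fin Z => (F 0).vv (n + b)) (X := fun n : Fin Z => X (n + b))
      (v := fun j n => v j (n + b)) (ζ := fun j n => ζ j (n + b)) (b := 1)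
      (fun n => vv_nn (h0 0 h.S0) _) (fun j hj n => ?_) (fun j hj x y hxy => ?_)
      (fun j hj n => ?_) fun n => hX _).trans ?_
    · refine glue_anti _ (fun x y hxy => ?_) fun x => ?_
      · rw [(eQ j hj).1]
        exact Nat.ModEq.of_dvd (Qk0_dvd (F j)) hxy
      · rw [(eQ j hj).1]
        exact hC j hj x
    · cases j with
      | zero => rfl
      | succ i =>
        rw [← (h.com i (by omega)).2.2.2.2.2.2.2.2]
        exact (mul_assoc _ _ _).symm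
    · cases j with
      | zero =>
        have e : (x : ℕ) % pv ((F 0).Lo ∪ (F 0).U) = y % pv ((F 0).Lo ∪ (F 0).U) := hxy.1
        show (F 0).V 0 _ (dp _ _) * (F 0).vk (dp _ _) = (F 0).V 0 _ (dp _ _) * (F 0).vk (dp _ _)
        rw [dp_congr subset_union_left e b, dp_congr subset_union_right e b]
      | succ i =>
        have e : (x : ℕ) % pv ((F i).Lo ∪ (F i).U ∪ (F i).RR) =
          y % pv ((F i).Lo ∪ (F i).U ∪ (F i).RR) := hxy.1
        simp only [v, dp_congr (subset_union_left.trans subset_union_left) e b,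
          dp_congr (subset_union_right.trans subset_union_left) e b, dp_congr subset_union_right e b]
    · cases j with
      | zero => exact z0_nn (h0 0 h.S0) _
      | succ i => exact (h0 i (by omega)).ze0 _
    · refine le_trans (ex_mono fun n => ?_) (hV _ _ (h0 0 h.S0) Z b hZ hper)
      exact mul_le_of_le_one_right (vv_nn (h0 0 h.S0) _) ((sq_le_one_iff_abs_le_one _).2 (hX _))
  calc _ = (∑ b ∈ range (F 0).N, ∑ j ∈ range S, ex (fun n : Fin Z => (F 0).vv (n + b) *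
        (pred Z (Q (j + 1)) dt (Cs (j + 1)) (ζ (j + 1)) X n b -
          pred Z (Q j) dt (Cs j) (ζ j) X n b) ^ 2)) / (F 0).N := by
        rw [sum_comm, sum_div]
        refine sum_congr rfl fun j hj => ?_
        have hj := mem_range.1 hj
        rw [inc, ex_div, ex_sum, (eQ j hj).1, (eQ j hj).2, (h.com j hj).2.1,
          (h.com j hj).2.2.2.2.2.2.2.2]
    _ ≤ (∑ b ∈ range (F 0).N, (1 : ℝ)) / (F 0).N := by gcongr with b; exact one b
    _ ≤ 1 := by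
        rw [sum_const, card_range, nsmul_eq_mul, mul_one]
        exact div_self_le_one _

theorem martM (hV : S_VV) (h : Chain k C C2 S ε η Cw Λ T F P) {A : Type} (dt : ℕ → A) {Z : ℕ}
    (hZ : 0 < Z) (hper : pv (F 0).all ∣ Z) (Cs : ℕ → ℕ → Finset ℕ)
    (hC : ∀ j < S, ∀ n, Cs j (n % (F j).Qk0) ⊆ Cs (j + 1) (n % (F j).Qk)) {R : ℕ}
    {x : Fin R → ℕ → ℕ → ℝ} (hx : ∀ j i n, |x j i n| ≤ 1) :
    ∃ t < S, ∀ j, ∀ i < k, inc (F t) dt Z (Cs t) (Cs (t + 1)) (x j i) ≤ R * k / S := by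
  have hS : (0 : ℝ) < S := by exact_mod_cast h.S0
  have a : ∑ t ∈ range S, ∑ j, ∑ i ∈ range k, inc (F t) dt Z (Cs t) (Cs (t + 1)) (x j i) ≤
      ∑ _t ∈ range S, (R * k / S : ℝ) := by
    rw [sum_comm, sum_const, card_range, nsmul_eq_mul, mul_div_cancel₀ _ hS.ne']
    refine (sum_le_card_nsmul _ _ (k : ℝ) fun j _ => ?_).trans (by simp)
    rw [sum_comm]
    exact (sum_le_card_nsmul _ _ 1 fun i _ => mart1 hV h dt hZ hper Cs hC (hx j i)).trans (by simp)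
  obtain ⟨t, ht, b⟩ := exists_le_of_sum_le ⟨0, mem_range.2 h.S0⟩ a
  have H := (h.hyp t (mem_range.1 ht)).1.toHyp0
  refine ⟨t, mem_range.1 ht, fun j i hi => le_trans ?_ b⟩
  exact (single_le_sum (f := fun i => inc (F t) dt Z (Cs t) (Cs (t + 1)) (x j i))
    (fun _ _ => inc_nn H _ _ _ _ _) (mem_range.2 hi)).trans
    (single_le_sum (f := fun j => ∑ i ∈ range k, inc (F t) dt Z (Cs t) (Cs (t + 1)) (x j i))
      (fun _ _ => sum_nonneg fun _ _ => inc_nn H _ _ _ _ _) (mem_univ j))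

/-- the three blocks that act on one family, at a common constant -/
structure BlkM (k C : ℕ) : Prop where
  comp : ∀ (F : Fam) (P : Par), F.k = k → Hyp F P C →
    ∀ (A : Type) [Fintype A] (dt : ℕ → A) (Z : ℕ) (C0 : ℕ → Finset ℕ) (X : ℕ → ℕ → ℝ)
      (s : ℕ → ℝ), Dat F P A Z C0 →
      (∀ n n', dt n = dt n' → (∀ i, X i n = X i n') ∧ F.z n = F.z n') →
      (∀ i n, |X i n| ≤ 1) → (∀ d, |s d| ≤ 1) → ∃ C1, StepM F P C dt Z s X C0 C1
  role : ∀ (F : Fam) (P : Par), F.k = k → Hyp F P C →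
    ∀ (Z : ℕ) (s : ℕ → ℝ) (x : ℕ → Fin Z → ℕ → ℝ) (i0 : ℕ), 0 < Z → pv F.all ∣ Z →
      (∀ d, |s d| ≤ 1) → i0 < k → (∀ i n b, i ≠ i0 → |x i n b| ≤ 1) → (∀ n b, |x i0 n b| ≤ 2) →
      |F.Tf Z s x| ≤ C * P.η + C * P.Csb * P.Cl ^ 2 / P.η *
        ex fun n : Fin Z => (∑ b ∈ range F.N, F.vv (n + b) * x i0 n b ^ 2) / F.N
  test : ∀ (F : Fam) (P : Par), F.k = k → Hyp F P C →
    ∀ (A : Type) [Fintype A] (dt : ℕ → A) (Z : ℕ) (C0 : ℕ → Finset ℕ) (s : ℕ → ℝ)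
      (y : ℕ → Fin Z → ℕ → ℝ), Dat F P A Z C0 → (∀ d, |s d| ≤ 1) → (∀ i n b, |y i n b| ≤ 1) →
      (∀ i b, Ms (gl Z F.Qk0 dt C0) fun n => y i n b) →
      |F.Tf Z s y - Tfr F Z s y| ≤ C * P.η

theorem blkM (hC : Al.S_COMP) (hR : S_ROLE) (hT : Al.S_TEST1) (k : ℕ) :
    ∃ C0 : ℕ, ∀ C, C0 ≤ C → BlkM k C := by
  obtain ⟨C1, h1⟩ := hC k
  obtain ⟨C2, h2⟩ := hR k
  obtain ⟨C3, h3⟩ := hT k
  refine ⟨C1 + C2 + C3, fun C hC => ?_⟩
  have r1 : (C1 : ℝ) ≤ C := by exact_mod_cast (by omega : C1 ≤ C)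
  have r2 : (C2 : ℝ) ≤ C := by exact_mod_cast (by omega : C2 ≤ C)
  have r3 : (C3 : ℝ) ≤ C := by exact_mod_cast (by omega : C3 ≤ C)
  refine ⟨fun F P hk h A _ dt Z C0 X s hd hdt hX hs => ?_,
    fun F P hk h Z s x i0 a b c d e f => ?_, fun F P hk h A _ dt Z C0 s y a b c d => ?_⟩
  · obtain ⟨c, a1, a2, a3, a4⟩ := h1 F P hk (h.mono (by omega)) A dt Z C0 X s hd hdt hX hs
    have := h.η0
    have : 0 ≤ top F P := h.σn _ _
    exact ⟨c, a1, a2, a3.trans (by gcongr), hk ▸ a4.trans (by gcongr)⟩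
  · have := h.η0
    have := h.Csb1
    have : 0 ≤ ex fun n : Fin Z => (∑ b ∈ range F.N, F.vv (n + b) * x i0 n b ^ 2) / F.N :=
      ex_nonneg fun n => div_nonneg (sum_nonneg fun b _ =>
        mul_nonneg (vv_nn h.toHyp0 _) (sq_nonneg _)) (by positivity)
    exact (h2 F P hk (h.mono (by omega)) Z s x i0 a b c d e f).trans (by gcongr)
  · have := h.η0
    exact (h3 F P hk (h.mono (by omega)) A dt Z C0 s y a b c d).trans (by gcongr)

/-- sections 3 to 6 -/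
theorem chainM (hV : S_VV) (hb : BlkM k C) (h : Chain k C C2 S ε η Cw Λ T F P) {Z : ℕ}
    (hZ : 0 < Z) (hper : pv (F 0).all ∣ Z) {A : Type} [Fintype A] (dt : ℕ → A)
    (hA : Real.log (Fintype.card A) ≤ Λ) {R : ℕ} (s : Fin R → ℕ → ℝ) (x : Fin R → ℕ → ℕ → ℝ)
    (hs : ∀ j d, |s j d| ≤ 1) (hx : ∀ j i n, |x j i n| ≤ 1)
    (hdz : ∀ t < S, ∀ n n', dt n = dt n' → (F t).z n = (F t).z n')
    (hdx : ∀ n n', dt n = dt n' → ∀ j i, x j i n = x j i n') (J : ℕ → Fin R) :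
    ∃ t < S, ∃ C0 : ℕ → Finset ℕ, Dat (F t) (P t) A Z C0 ∧
      (F t).Tf Z (s (J t)) (fun i n b => x (J t) i (n + b)) ≤
        Tfr (F t) Z (s (J t)) (fun i => pred Z (F t).Qk0 dt C0 (F t).z0 (x (J t) i)) +
          (2 + k * (1 + R * k)) * (C * η) := by
  obtain ⟨Cs, hCs⟩ := codesM h dt hA hZ hper (fun t => s (J t)) (fun t => x (J t))
    fun j hj C0 hd => hb.comp _ _ (h.com j hj).1 (h.hyp j hj).1 _ dt Z C0 _ _ hd
      (fun n n' e => ⟨hdx n n' e _, hdz j hj n n' e⟩) (hx _) (hs _)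
  obtain ⟨j, hj, he⟩ := martM hV h dt hZ hper Cs (fun j hj => (hCs j hj).2.2.1) hx
  refine ⟨j, hj, Cs j, (hCs j hj).1, ?_⟩
  obtain ⟨hd, -, -, -, s4⟩ := hCs j hj
  obtain ⟨ck, -, -, -, cη, -⟩ := h.com j hj
  have H := (h.hyp j hj).1
  have he := he (J j)
  simp only [inc] at he
  set y := fun i => pred Z (F j).Qk dt (Cs (j + 1)) (F j).z (x (J j) i) with hy
  set y0 := fun i => pred Z (F j).Qk0 dt (Cs j) (F j).z0 (x (J j) i) with hy0
  have by1 : ∀ i n b, |y i n b| ≤ 1 := fun i => abs_predM _ _ _ _ (fun n => H.ze0 _) (hx _ i)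
  have by0 : ∀ i n b, |y0 i n b| ≤ 1 := fun i => abs_predM _ _ _ _ (z0_nn H.toHyp0) (hx _ i)
  have η0 : 0 < η := cη ▸ H.η0
  have hS : (0 : ℝ) < S := by exact_mod_cast h.S0
  have t1 := Tf_telM (F j) Z (s (J j)) (fun i n b => x (J j) i (n + b)) y
  have t2 := Tf_telM (F j) Z (s (J j)) y y0
  have t3 := hb.test _ _ ck H _ dt Z (Cs j) (s (J j)) y0 hd (hs _) by0 fun i b => ms_yr _ _ _
  have t4 : ∀ i0 ∈ range (F j).k, (F j).Tf Z (s (J j)) (mx y y0 i0) ≤ (1 + R * k) * (C * η) :=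
    fun i0 hi => by
    have hi' : i0 < k := ck ▸ mem_range.1 hi
    have e : ∀ n b, mx y y0 i0 i0 n b = y i0 n b - y0 i0 n b := fun n b => by simp [mx]
    have a := hb.role _ _ ck H Z (s (J j)) (mx y y0 i0) i0 hZ hd.per (hs _) hi'
      (fun i n b hne => by
        unfold mx
        split_ifs
        exacts [by0 i n b, by1 i n b])
      fun n b => by
        rw [e]
        exact (abs_sub _ _).trans (by linarith [by1 i0 n b, by0 i0 n b])
    simp only [e, cη] at a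
    have b : C * (P j).Csb * (P j).Cl ^ 2 / η * (R * k / S) ≤ R * k * (C * η) := by
      rw [div_mul_div_comm, div_le_iff₀ (by positivity), mul_assoc (C : ℝ)]
      calc _ ≤ C * (η ^ 2 * S) * (R * k) := by
            have := h.big j hj
            gcongr
        _ = _ := by ring
    have c : 0 ≤ C * (P j).Csb * (P j).Cl ^ 2 / η := by have := H.Csb1; positivity
    linarith [mul_le_mul_of_nonneg_left (he i0 hi') c,
      le_abs_self ((F j).Tf Z (s (J j)) (mx y y0 i0))]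
  have t5 := sum_le_card_nsmul _ _ _ t4
  rw [card_range, nsmul_eq_mul, ← t2, ck] at t5
  rw [← t1, cη] at s4
  rw [cη] at t3
  linarith [(abs_le.1 t3).2]

theorem exists_ge {R : ℕ} {a : Fin R → ℝ} {δ : ℝ} (hδ : 0 < δ) (h : δ ≤ ∑ j, a j) :
    ∃ j, δ / (R + 1) ≤ a j := by
  by_contra hn
  push Not at hn
  have b := sum_le_card_nsmul univ a _ fun j _ => (hn j).le
  rw [card_univ, Fintype.card_fin, nsmul_eq_mul] at b
  have c : (R : ℝ) * (δ / (R + 1)) < δ := by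
    rw [← mul_div_assoc, div_lt_iff₀ (by positivity)]
    linarith
  linarith

end Glue

open Glue

theorem main (hB : S_BIAS) (hC : S_COMP) (hR : Fu.St.S_ROLE) (hT : S_TEST1) (h7 : S_SEC7)
    (hP : S_PAR) (hV : Fu.St.S_VV) : S_Main := by
  classical
  intro k R M L η' δ hk η'0 hδ
  obtain ⟨C1, hB⟩ := hB k
  obtain ⟨C3, hb⟩ := blkM hC hR hT k
  obtain ⟨C4, h7⟩ := h7 k
  set C := C1 + C3 + C4 + 1 with hCd
  have hb := hb C (by omega)
  have kr : (2 : ℝ) ≤ k := by exact_mod_cast hk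
  have Cr : (1 : ℝ) ≤ C := by exact_mod_cast (by omega : 1 ≤ C)
  have C1r : (C1 : ℝ) ≤ C := by exact_mod_cast (by omega : C1 ≤ C)
  obtain ⟨G, hG⟩ : ∃ G : ℝ, G = 2 + k * (1 + R * k) := ⟨_, rfl⟩
  have G2 : 2 ≤ G := by rw [hG]; exact le_add_of_nonneg_right (by positivity)
  obtain ⟨δ', hδ'⟩ : ∃ δ' : ℝ, δ' = δ / 4 / (R + 1) := ⟨_, rfl⟩
  have δ0 : 0 < δ' := by rw [hδ']; positivity
  have δ1 : δ' ≤ δ := by
    rw [hδ']
    exact (div_le_self (by positivity) (le_add_of_nonneg_left (by positivity))).trans (by linarith)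
  obtain ⟨η, η0, η1, η2, η4⟩ : ∃ η : ℝ, 0 < η ∧ k * η ≤ 1 / 2 ∧ 4 * G * (C * η) ≤ δ' ∧
      M * η ≤ 1 := by
    refine ⟨min (min (1 / (2 * k)) (δ' / (4 * G * C))) (1 / (M + 1)), by positivity, ?_, ?_, ?_⟩
    · calc _ ≤ k * (1 / (2 * k) : ℝ) := by
            gcongr; exact (min_le_left _ _).trans (min_le_left _ _)
        _ = _ := by field_simp
    · calc _ ≤ 4 * G * (C * (δ' / (4 * G * C))) := by
            gcongr; exact (min_le_left _ _).trans (min_le_right _ _)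
        _ = _ := by field_simp
    · calc _ ≤ M * (1 / (M + 1) : ℝ) := by gcongr; exact min_le_right _ _
        _ ≤ _ := by rw [mul_one_div, div_le_one (by positivity)]; linarith
  have Cη : 0 < C * η := by positivity
  have η3 : C1 * η ≤ δ := by nlinarith
  obtain ⟨Cw, hP⟩ := hP k C M η η hk η0 η1 η0 (by nlinarith) η4
  obtain ⟨C2, h7⟩ := h7 (δ' / 2) Cw (by positivity)
  obtain ⟨K, Λ, T, K0, hK, Tp, Td, hch⟩ := hP C2
  obtain ⟨-, F0, P0, -⟩ := hch 0 K0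
  have : Nonempty (ℕ → Fam) := ⟨F0⟩
  have : Nonempty (ℕ → Par) := ⟨P0⟩
  choose! S F P hch hal using hch
  have Kr : 0 < Real.sqrt K := Real.sqrt_pos.2 (by exact_mod_cast K0)
  let Q : ℕ → ℕ := fun i => ∏ i' ∈ range i, pv (T i')
  have Tpos : ∀ i, 0 < pv (T i) := fun i => prod_pos fun q hq => (Tp i q hq).pos
  have Qpos : 0 < Q K := prod_pos fun i _ => Tpos i
  let E : ℕ := Q K + ∑ i ∈ range K, pv (F i 0).all
  have hX : ∀ i < K, ∀ j < S i, _ := fun i hi j hj => by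
    obtain ⟨c1, -, -, c2, c3, -, c4, -⟩ := (hch i hi).com j hj
    have H := ((hch i hi).hyp j hj).1
    refine hB (F i j) (P i j) c1 (H.mono (by omega)) δ (1 / Real.sqrt K) hδ (c2 ▸ η3) (c3 ▸ η3) ?_
      E R
    have L1 : 1 ≤ Λ := by have := H.Lk; rw [c1, c4] at this; linarith
    rw [c3, c4, mul_one_div, div_le_iff₀ Kr]
    exact (pow_le_pow_right₀ L1 (Nat.mul_le_mul_right _ (by omega))).trans hK
  have hZ : ∀ i < K, ∀ j < S i, _ := fun i hi j hj =>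
    h7 (F i j) (P i j) ((hch i hi).com j hj).1 ((hch i hi).com j hj).2.2.2.2.2.1
      (((hch i hi).hyp j hj).1.mono (by omega)) ((hch i hi).hyp j hj).2 η'
      (⌈(F i 0).D⌉₊ * L) η'0
  choose! X0 hX using hX
  choose! Z0 hZ using hZ
  obtain ⟨N1, hN1⟩ : ∃ N1 : ℕ, ∀ N : ℕ, N1 ≤ N → (E : ℝ) ≤ (N : ℝ) ^ η' :=
    Filter.eventually_atTop.1 (((tendsto_rpow_atTop η'0).comp
      tendsto_natCast_atTop_atTop).eventually_ge_atTop _)
  refine ⟨E + 1 + N1 + ∑ i ∈ range K, ∑ j ∈ range (S i), (X0 i j + Z0 i j),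
    fun N X i0 cr s x B _ db hN hNX hXL hi0 hBM hcr hs hx hdb hcen hid => ?_⟩
  by_contra hn
  obtain ⟨σ, σ1, hσ⟩ : ∃ σ : ℝ, |σ| = 1 ∧ δ * X ≤ ∑ n ∈ Icc 1 X, σ * cr n := by
    simp only [← mul_sum]
    rcases le_abs'.1 (not_le.1 hn).le with a | a
    · exact ⟨-1, by simp, by linarith⟩
    · exact ⟨1, by simp, by linarith⟩
  have hcr' : ∀ n, |σ * cr n| ≤ 1 := fun n => by rw [abs_mul, σ1, one_mul]; exact hcr n
  have hs' : ∀ j d, |σ * s j d| ≤ 1 := fun j d => by rw [abs_mul, σ1, one_mul]; exact hs j d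
  obtain ⟨y1, y2⟩ := floor_mul X (Q K) Qpos
  set Y := X / Q K * Q K
  have Y0 : 0 < Y := Nat.mul_pos (Nat.div_pos (by omega) Qpos) Qpos
  obtain ⟨i, hi, ht⟩ := t1 Y K Y0 K0 Q (fun i _ => ⟨pv (T i), prod_range_succ _ _⟩)
    (Dvd.intro_left _ rfl) (fun n => σ * cr n) fun n _ => hcr' n
  have hc := hch i hi
  obtain ⟨A, _, dz, hA, hdz⟩ := hal i hi
  have H0 := (hc.hyp 0 hc.S0).1
  have Pp : 0 < pv (F i 0).all := prod_pos fun q hq => (H0.pr q hq).pos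
  have PE : pv (F i 0).all ≤ ∑ i ∈ range K, pv (F i 0).all :=
    single_le_sum (f := fun i => pv (F i 0).all) (fun _ _ => Nat.zero_le _) (mem_range.2 hi)
  have D2 : 2 ≤ (F i 0).D := by
    have a := H0.Dbig
    have b := Real.one_le_exp (show 0 ≤ 2 * (P i 0).Lp by linarith [H0.Lp1])
    rw [(hc.com 0 hc.S0).1] at a
    nlinarith
  have X0' : (0 : ℝ) ≤ X := by positivity
  obtain ⟨z1, z2⟩ := floor_mul ⌊(F i 0).D * X⌋₊ _ Pp
  set Z := ⌊(F i 0).D * X⌋₊ / pv (F i 0).all * pv (F i 0).all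
  have XZ : 2 * X ≤ ⌊(F i 0).D * X⌋₊ := Nat.le_floor (by push_cast; nlinarith)
  have z3 : (Z : ℝ) ≤ (F i 0).D * X :=
    le_trans (by exact_mod_cast z1) (Nat.floor_le (by positivity))
  have z4 : (F i 0).D * X ≤ Z + E :=
    (Nat.lt_floor_add_one _).le.trans (by exact_mod_cast (by omega))
  have z5 : Z ≤ ⌈(F i 0).D⌉₊ * L * N := by
    have a : (Z : ℝ) ≤ (⌈(F i 0).D⌉₊ * X : ℕ) := by
      push_cast
      exact z3.trans (mul_le_mul_of_nonneg_right (Nat.le_ceil _) X0')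
    rw [mul_assoc]
    exact (Nat.cast_le.1 a).trans (Nat.mul_le_mul_left _ hXL)
  have per : pv (F i 0).all ∣ Z := Dvd.intro_left _ rfl
  have big : ∀ j < S i, X0 i j + Z0 i j ≤ ∑ i ∈ range K, ∑ j ∈ range (S i), (X0 i j + Z0 i j) :=
    fun j hj => (single_le_sum (f := fun j => X0 i j + Z0 i j) (fun _ _ => Nat.zero_le _)
      (mem_range.2 hj)).trans (single_le_sum (f := fun i => ∑ j ∈ range (S i), (X0 i j + Z0 i j))
        (fun _ _ => Nat.zero_le _) (mem_range.2 hi))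
  have aB : ∀ j < S i, ∃ r : Fin R,
      δ' ≤ (F i j).Tf Z (fun d => σ * s r d) fun l n b => x r l (n + b) := fun j hj => by
    have H := (hc.hyp j hj).1
    have d1 : pv (F i j).TT ∣ pv (T i) := prod_dvd_prod_of_subset _ _ _ (hc.sub j hj)
    have d2 : pv (F i j).TT ∣ Q (i + 1) :=
      d1.trans (Dvd.intro_left _ (prod_range_succ (fun i' => pv (T i')) i).symm)
    have d3 : Q (i + 1) ∣ Y :=
      (prod_dvd_prod_of_subset _ _ _ (range_subset_range.2 hi)).trans (Dvd.intro_left _ rfl)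
    have d4 : (pv (F i j).TT).Coprime (Q i) := Nat.Coprime.coprime_dvd_left d1 <|
      Nat.Coprime.prod_right fun i' hi' => Nat.Coprime.prod_left fun q hq =>
        Nat.Coprime.prod_right fun q' hq' => (Nat.coprime_primes (Tp i q hq) (Tp i' q' hq')).2
          fun e => disjoint_left.1 (Td i i' (mem_range.1 hi').ne') hq (e ▸ hq')
    have eD := (hc.com j hj).2.2.1
    have eA := (hc.com j hj).2.2.2.2.2.2.2.1
    have := big j hj
    rw [hδ']
    refine exists_ge (by positivity) (hX i hi j hj X Y Z (fun n => σ * cr n)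
      (fun r d => σ * s r d) x (by omega) y1 (by omega) (eD ▸ z3) (eD ▸ z4) (eA ▸ per)
      (d2.trans d3) hcr' hs' hx (fun c hc' p hp m hm => ?_) hσ
      fun W h1 h2 => ht _ W 1 d2 d4 h1 h2)
    have pT : p ∈ (F i j).TT := mem_union_left _ (mem_union_right _ hp)
    have pc : p ∉ c := fun e => disjoint_left.1 H.toHyp0.dLo (hc' e) pT
    have e : pv c * p = pv (insert p c) := by
      rw [mul_comm]; exact (prod_insert (f := fun q : ℕ => q) pc).symm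
    rw [e, ← hid (insert p c) (fun q hq => ?_) m hm, mul_sum]
    · exact sum_congr rfl fun r _ => mul_assoc _ _ _
    · have qa : q ∈ (F i j).all := by
        rcases mem_insert.1 hq with rfl | hq
        exacts [mem_union_right _ pT, mem_union_left _ (hc' hq)]
      refine ⟨H.pr q qa, le_trans ?_ (hN1 N (by omega))⟩
      rw [eA] at qa
      have : q ≤ pv (F i 0).all := Nat.le_of_dvd Pp (dvd_prod_of_mem (fun q => q) qa)
      exact_mod_cast (by omega : q ≤ E)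
  obtain ⟨r0, -⟩ := aB 0 hc.S0
  have : Nonempty (Fin R) := ⟨r0⟩
  choose! J hJ using aB
  have cA : 0 < Fintype.card A := Fintype.card_pos_iff.2 ⟨dz 0⟩
  have cB : 0 < Fintype.card B := Fintype.card_pos_iff.2 ⟨db 0⟩
  obtain ⟨j, hj, C0, hd, hle⟩ := chainM hV hb hc (Z := Z) (by omega) per
    (fun n => (dz n, db n)) (by
      refine le_trans (Real.log_le_log ?_ ?_) hA
      · rw [Fintype.card_prod]; positivity
      · rw [Fintype.card_prod, mul_comm]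
        exact_mod_cast Nat.mul_le_mul_right _ hBM)
    (fun r d => σ * s r d) x hs' hx (fun t ht n n' e => hdz t ht n n' (congrArg Prod.fst e))
    (fun n n' e => hdb n n' (congrArg Prod.snd e)) J
  have := big j hj
  have a7 := hZ i hi j hj _ (fun n => (dz n, db n)) Z C0 (fun d => σ * s (J j) d) (x (J j)) i0 N
    (by omega) (by omega) z5 hd (hs' _) (hx _) hi0 (hcen _)
  have := hJ j hj
  rw [← hG] at hle
  linarith

end Pool.Agent.P.MP_4ef411_nt.Al
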