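import Pool.Agent.P.MP_4ef411_nt.Al.St
import Pool.Agent.P.MP_a14ce1_nt.Fu.Iter

/-!
Iteration of the local plain step inside a short range of scales, and sections 8 and 9 together.
-/

open Finset

namespace Pool.Agent.P.MP_4ef411_nt.Al

open Pool.Agent.P.MP_a14ce1_nt
open Pool.Agent.P.MP_a14ce1_nt.Fu
open Pool.Agent.P.MP_a14ce1_nt.Fu.IterP

namespace Iter

theorem drift {L0 L M θ : ℝ} (h0 : 0 ≤ L0) (hθ : 0 < θ) (h2 : (L - L0) ^ 2 ≤ 18 * L0 * M)
    (h3 : 32 * M ≤ θ ^ 2 * L0) : L - L0 ≤ 3 / 4 * θ * L0 := by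
  refine le_of_sq_le_sq (h2.trans ?_) (by positivity)
  have := mul_le_mul_of_nonneg_left h3 h0
  nlinarith

theorem fin_le {L0 L M θ : ℝ} (h0 : 0 ≤ L0) (hθ : 0 < θ) (hθ1 : θ ≤ 1)
    (h2 : (L - L0) ^ 2 ≤ 18 * L0 * M) (h3 : 32 * M ≤ θ ^ 2 * L0) : L + M ≤ (1 + θ) * L0 := by
  have a := drift h0 hθ h2 h3
  have b : θ * (θ * L0) ≤ 1 * (θ * L0) := mul_le_mul_of_nonneg_right hθ1 (by positivity)
  have c : 0 ≤ θ * L0 := by positivity
  nlinarith

/-- the numbers of one step -/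
theorem num {L0 L M θ r σ : ℝ} (h0 : 0 ≤ L0) (hθ : 0 < θ) (hθ1 : θ ≤ 1) (hr : 10 ^ 6 ≤ θ ^ 4 * r)
    (hM : 0 < M) (h2 : (L - L0) ^ 2 ≤ 18 * L0 * M) (h3 : 32 * M ≤ θ ^ 2 * L0) (hc : r * M < L)
    (hσ : 8 ≤ σ) (h12 : σ ^ 12 * M ≤ L) :
    100 * σ ^ 2 * M ≤ θ * L0 ∧ 32 * (8 * M * σ) ≤ θ ^ 2 * L0 ∧
      (3 * M * σ ^ 6) ^ 2 ≤ 18 * L0 * M := by
  have a := drift h0 hθ h2 h3
  have L2 : L ≤ 2 * L0 := by
    have := mul_le_mul_of_nonneg_right hθ1 h0
    linarith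
  have t4 : 0 < θ ^ 4 := by positivity
  have r0 : 0 < r := by
    by_contra h
    have := mul_nonpos_of_nonneg_of_nonpos t4.le (not_lt.1 h)
    linarith
  have s1 : 1 ≤ σ := by linarith
  have b1 : 10 ^ 6 * M ≤ θ ^ 4 * (2 * L0) := by
    have c1 := mul_le_mul_of_nonneg_right hr hM.le
    have c2 := mul_le_mul_of_nonneg_left (hc.le.trans L2) t4.le
    linarith [mul_assoc (θ ^ 4) r M]
  have b2 : σ ^ 12 * M ≤ 2 * L0 := h12.trans L2
  have b3 : 10 ^ 6 * (σ ^ 12 * M ^ 2) ≤ 4 * (θ ^ 2 * L0) ^ 2 := by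
    have := mul_le_mul b1 b2 (by positivity) (by positivity)
    linarith [show 10 ^ 6 * M * (σ ^ 12 * M) = 10 ^ 6 * (σ ^ 12 * M ^ 2) by ring,
      show θ ^ 4 * (2 * L0) * (2 * L0) = 4 * (θ ^ 2 * L0) ^ 2 by ring]
  have p4 : σ ^ 4 * M ^ 2 ≤ σ ^ 12 * M ^ 2 :=
    mul_le_mul_of_nonneg_right (pow_le_pow_right₀ s1 (by norm_num)) (by positivity)
  have p2 : σ ^ 2 * M ^ 2 ≤ σ ^ 12 * M ^ 2 :=
    mul_le_mul_of_nonneg_right (pow_le_pow_right₀ s1 (by norm_num)) (by positivity)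
  have q0 : 0 ≤ σ ^ 12 * M ^ 2 := by positivity
  refine ⟨?_, ?_, ?_⟩
  · have c1 : 100 * σ ^ 2 * M ≤ θ ^ 2 * L0 := by
      refine le_of_sq_le_sq ?_ (by positivity)
      linarith [show (100 * σ ^ 2 * M) ^ 2 = 10000 * (σ ^ 4 * M ^ 2) by ring]
    have c2 : θ * (θ * L0) ≤ 1 * (θ * L0) := mul_le_mul_of_nonneg_right hθ1 (by positivity)
    linarith [show θ ^ 2 * L0 = θ * (θ * L0) by ring]
  · refine le_of_sq_le_sq ?_ (by positivity)
    linarith [show (32 * (8 * M * σ)) ^ 2 = 65536 * (σ ^ 2 * M ^ 2) by ring]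
  · have := mul_le_mul_of_nonneg_right b2 hM.le
    linarith [show (3 * M * σ ^ 6) ^ 2 = 9 * (σ ^ 12 * M * M) by ring]

theorem Nv_mono {f : ℕ → ℂ} {a U B B' : ℝ} (h : Nv f a U B) (hB : B' ≤ B) : Nv f a U B' :=
  fun p hp h1 h2 => h p hp (h1.trans hB) h2

end Iter

open Iter in
theorem iter (hL : S_Loc) : S_Iter := by
  intro A hA
  obtain ⟨C, hC, hL⟩ := hL A hA
  refine ⟨2 * 1604 ^ 6 * 60 * max C 3, by positivity,
    fun f Y M a U v r θ hf hF ha hU hv hv1 hM hr hY h1 h2 hθ hθ1 hθr hM0 hP => ?_⟩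
  have U2 : 1 ≤ U ^ 2 := one_le_pow₀ hU
  have C3 : 3 ≤ max C 3 * U ^ 2 := by nlinarith [le_max_right C 3]
  obtain ⟨E, E0, E6⟩ : ∃ E : ℝ, 0 < E ∧ E ^ 6 = 60 * (max C 3 * U ^ 2) :=
    ⟨(60 * (max C 3 * U ^ 2)) ^ ((6 : ℕ) : ℝ)⁻¹, by positivity,
      Real.rpow_inv_natCast_pow (by positivity) (by norm_num)⟩
  have v6 : 0 < v ^ 6 := by positivity
  have pos : ∀ z : ℝ, 1 ≤ z → 2 * 1604 ^ 6 * 60 * max C 3 * U ^ 2 ≤ v ^ 6 * Real.log z → 1 < z :=
    fun z hz h => lt_of_le_of_ne hz fun e => by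
      rw [← e, Real.log_one] at h
      nlinarith
  have r1 := pos r hr h2
  have M1 := pos M hM h1
  have r0 := Real.log_pos r1
  have b1 : 1604 * E * h (Real.log M) ≤ v :=
    h_small (Real.log_pos M1) hv.le (by rw [mul_pow, E6]; nlinarith)
  have b2 : 1604 * E * h (23 / 24 * Real.log r) ≤ v :=
    h_small (by positivity) hv.le (by rw [mul_pow, E6]; nlinarith)
  have b3 : E * h (Real.log r) ≤ 1 := by
    have := mul_le_mul_of_nonneg_left (h_anti (x := 23 / 24 * Real.log r) (x' := Real.log r)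
      (by positivity) (by linarith)) E0.le
    nlinarith [mul_pos E0 (h_pos r0)]
  have L00 : 0 ≤ Real.log Y := Real.log_nonneg hY
  obtain ⟨L0, hL0⟩ : ∃ L0, L0 = Real.log Y := ⟨_, rfl⟩
  rw [← hL0] at hF L00
  have key : ∀ (n : ℕ) (Y M v : ℝ), a ≤ M → 1 < M → 1 ≤ Y → E * h (Real.log M) ≤ 1 →
      Real.log Y ≤ 2 ^ n * (r * M) → L0 ≤ Real.log Y → (Real.log Y - L0) ^ 2 ≤ 18 * L0 * M →
      32 * M ≤ θ ^ 2 * L0 → Pot (Ax.hull A) f Y M v → ∃ Y' M' : ℝ, Y ≤ Y' ∧ 0 ≤ M' ∧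
        Real.log Y' ≤ r * M' ∧ Real.log Y' + M' ≤ (1 + θ) * L0 ∧
        Pot (Ax.hull A) f Y' M' (v - B E (Real.log r) M (Real.log Y)) := by
    intro n
    induction n with
    | zero =>
      intro Y M v _ hM _ _ hn _ i2 i3 hP
      exact ⟨Y, M, le_rfl, by linarith, by simpa using hn, fin_le L00 hθ hθ1 i2 i3,
        hP.mono (by linarith) (by linarith [B_nonneg (L := Real.log Y) E0.le r0 hM])⟩
    | succ n ih =>
      intro Y M v ha hM hY hE hn i1 i2 i3 hP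
      rcases le_or_gt (Real.log Y) (r * M) with c | c
      · exact ⟨Y, M, le_rfl, by linarith, c, fin_le L00 hθ hθ1 i2 i3,
          hP.mono (by linarith) (by linarith [B_nonneg (L := Real.log Y) E0.le r0 hM])⟩
      obtain ⟨σ, ε, a1, a2, a3, a4, a5, a6, a7⟩ := step (by linarith) E0 r1 hM hE b3 c
      have M0 : 0 < M := by linarith
      obtain ⟨n1, n2, n3⟩ := num L00 hθ hθ1 hθr M0 i2 i3 c a3 a6
      obtain ⟨Y', M', c1, c2, c3, c5, c4⟩ := hL f Y M a U σ ε v hf (Nv_mono hF n1) ha hU a1 a2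
        (by linarith) hY (by nlinarith [le_max_left C 3]) a5 a6 hP
      have Y0 : 0 < Y := by linarith
      have d1 : Real.log Y ≤ Real.log Y' := Real.log_le_log Y0 c1
      have d0 : Real.log Y' ≤ Real.log Y + 3 * M * σ ^ 6 := by
        have a := Real.log_le_log (Y0.trans_le c1) c2
        rwa [Real.log_mul Y0.ne' (Real.exp_pos _).ne', Real.log_exp] at a
      have d2 : Real.log Y' ≤ 4 * Real.log Y := by
        have b : σ ^ 6 ≤ σ ^ 12 := pow_le_pow_right₀ (by linarith) (by norm_num)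
        nlinarith
      have d3 : 8 * M ≤ M' := by nlinarith
      have d4 : (Real.log Y' - L0) ^ 2 ≤ 18 * L0 * M' := by
        have e1 : (Real.log Y' - L0) ^ 2 ≤ (Real.log Y - L0 + 3 * M * σ ^ 6) ^ 2 :=
          pow_le_pow_left₀ (by linarith) (by linarith) 2
        have e2 := mul_le_mul_of_nonneg_left d3 L00
        have e3 := mul_nonneg L00 M0.le
        nlinarith [sq_nonneg (Real.log Y - L0 - 3 * M * σ ^ 6)]
      obtain ⟨Y2, M2, e1, e2, e3, e5, e4⟩ := ih Y' M' (v - ε) (by linarith) (by linarith)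
        (by linarith)
        ((mul_le_mul_of_nonneg_left (h_anti (Real.log_pos hM)
          (Real.log_le_log M0 (by linarith))) E0.le).trans hE)
        (by
          have : (2 : ℝ) ^ n * (r * (8 * M)) ≤ 2 ^ n * (r * M') := by gcongr
          rw [pow_succ] at hn
          linarith) (i1.trans d1) d4 (by linarith) c4
      exact ⟨Y2, M2, c1.trans e1, e2, e3, e5, e4.mono e2 (by linarith [a7 M' _ c3 d1 d2])⟩
  obtain ⟨n, hn⟩ := pow_unbounded_of_one_lt (Real.log Y) (show (1 : ℝ) < 2 by norm_num)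
  obtain ⟨Y', M', e1, e2, e3, e5, e4⟩ := key n Y M v ha M1 hY
    (by nlinarith [mul_pos E0 (h_pos (Real.log_pos M1))])
    (hn.le.trans (le_mul_of_one_le_right (by positivity) (by nlinarith))) hL0.le
    (by
      rw [← hL0, sub_self]
      have : 0 ≤ L0 * M := mul_nonneg L00 (by linarith)
      linarith) (hL0 ▸ hM0) hP
  refine ⟨Y', M', e1, e3, hL0 ▸ e5, e4.mono e2 ?_⟩
  have := mul_pos E0 (h_pos (x := max (Real.log (Real.log Y / M)) (23 / 24 * Real.log r))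
    (lt_max_of_lt_right (by positivity)))
  rw [B]
  linarith

theorem noPot (hI : S_Iter) (hF : S_Fin) : S_NoPot := by
  intro A hA h1A
  obtain ⟨C, hC, hI⟩ := hI _ hA.sys
  refine ⟨C, hC, fun Z v U η hv hv1 hU hη => ?_⟩
  obtain ⟨θF, hθF, hF⟩ := hF A hA h1A Z (v / 2) η (by positivity) hη
  obtain ⟨θ, hθ, t1, t2, t3⟩ : ∃ θ : ℝ, 0 < θ ∧ θ ≤ 1 ∧ θ ≤ θF / 4 ∧ θ ≤ η / 2 :=
    ⟨min 1 (min (θF / 4) (η / 2)), by positivity, min_le_left _ _,
      (min_le_right _ _).trans (min_le_left _ _), (min_le_right _ _).trans (min_le_right _ _)⟩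
  obtain ⟨r, r1, r2⟩ : ∃ r : ℝ, Real.exp (C * U ^ 2 / v ^ 6) ≤ r ∧ 10 ^ 6 / θ ^ 4 ≤ r :=
    ⟨max _ _, le_max_left _ _, le_max_right _ _⟩
  have r3 : 1 ≤ r := (Real.one_le_exp (by positivity)).trans r1
  obtain ⟨N0, hF⟩ := hF r (by linarith)
  refine ⟨max N0 ⌈Real.exp (33 * Z / θ ^ 2)⌉₊,
    fun N T W x a Y M hN hT hW hx ha hM hl hY1 hY2 hMZ hP => ?_⟩
  have Z1 : (1 : ℝ) ≤ Z := hM.trans hMZ
  have Z0 : (0 : ℝ) < Z := by linarith
  have N1 : Real.exp (33 * Z / θ ^ 2) ≤ N :=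
    (Nat.le_ceil _).trans (Nat.cast_le.2 (le_of_max_le_right hN))
  have N2 : (0 : ℝ) < N := (Real.exp_pos _).trans_le N1
  have N3 : 33 * Z ≤ θ ^ 2 * Real.log N := by
    have := (Real.le_log_iff_exp_le N2).2 N1
    rwa [div_le_iff₀ (by positivity), mul_comm (Real.log N)] at this
  have Y0 : 0 < Y := by
    by_contra h
    have := mul_nonpos_of_nonneg_of_nonpos Z0.le (not_lt.1 h)
    linarith
  have lZ : Real.log Z ≤ Z := (Real.log_le_sub_one_of_pos Z0).trans (by linarith)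
  have l1 : Real.log N ≤ Z + Real.log Y := by
    have := Real.log_le_log N2 hY1
    rw [Real.log_mul Z0.ne' Y0.ne'] at this
    linarith
  have l2 : Real.log Y ≤ Z + Real.log N := by
    have := Real.log_le_log Y0 hY2
    rw [Real.log_mul Z0.ne' N2.ne'] at this
    linarith
  have t4 : 0 < θ ^ 2 := by positivity
  have t5 : θ ^ 2 ≤ θ := by nlinarith
  have lN : 0 < Real.log N := by
    by_contra h
    have := mul_nonpos_of_nonneg_of_nonpos t4.le (not_lt.1 h)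
    linarith
  have z1 : θ ^ 2 * Real.log N ≤ θ * Real.log N := mul_le_mul_of_nonneg_right t5 lN.le
  have z2 : θ * Real.log N ≤ 1 * Real.log N := mul_le_mul_of_nonneg_right t1 lN.le
  have z3 : θ * Real.log N ≤ θF / 4 * Real.log N := mul_le_mul_of_nonneg_right t2 lN.le
  have z4 : θ * Real.log N ≤ η / 2 * Real.log N := mul_le_mul_of_nonneg_right t3 lN.le
  have lY : 0 ≤ Real.log Y := by linarith
  have Y1 : 1 ≤ Y := by
    rw [← Real.exp_log Y0]
    exact Real.one_le_exp lY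
  obtain ⟨Y', M', h1, h2, h4, h3⟩ := hI (wx T W x) Y M a U v r θ (norm_wx hx hW)
    (fun p hp hb h => wx_mul hx (fun q hq => (hT q hq).1) W hp
      (fun h' => by rcases h with h | h <;> linarith [(hT p h').2.2.1, (hT p h').2.2.2])
      (by
        have p0 : (0 : ℝ) < p := Nat.cast_pos.2 hp.pos
        rw [Real.le_rpow_iff_log_le p0 N2]
        have := mul_le_mul_of_nonneg_left (show Real.log Y ≤ 2 * Real.log N by linarith) hθ.le
        linarith))
    ha hU hv hv1 hM r3 Y1 hl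
    (by
      have := (Real.le_log_iff_exp_le (by linarith)).2 r1
      rwa [div_le_iff₀ (by positivity), mul_comm (Real.log r)] at this)
    hθ t1 (by rwa [div_le_iff₀ (by positivity), mul_comm r] at r2)
    (by
      have a1 := mul_le_mul_of_nonneg_left l1 t4.le
      have a2 := mul_le_mul_of_nonneg_right (t5.trans t1) Z0.le
      linarith [mul_add (θ ^ 2) (Z : ℝ) (Real.log Y)]) hP
  refine hF N T W x Y' M' (le_of_max_le_left hN) (fun p hp => ⟨(hT p hp).1, (hT p hp).2.1⟩) hW hx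
    (Y0.trans_le h1) ?_ ?_ h2 h3
  · have := Real.log_le_log Y0 h1
    linarith
  · have := mul_le_mul_of_nonneg_left (show Real.log Y ≤ 2 * Real.log N by linarith) hθ.le
    linarith

end Pool.Agent.P.MP_4ef411_nt.Al
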