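import Pool.Agent.P.MP_4ef411_nt.Al.Loc1

/-! The local plain step for functions that do not see the primes of bounded size outside a
window. -/

open Finset

namespace Pool.Agent.P.MP_4ef411_nt.Al

open Pool.Agent.P.MP_a14ce1_nt
open Pool.Agent.P.MP_a14ce1_nt.Fu
open Pool.Agent.P.MP_a14ce1_nt.Fu.L8
open Pool.Agent.P.MP_a14ce1_nt.Fu.L8.Par
open Pool.Agent.P.MP_a14ce1_nt.Ch (rs)
open Pool.Agent.P.MP_a14ce1_nt.IV (Hull Gr Up Ep grp)
open Pool.Agent.P.MP_a14ce1_nt.Ax (hull)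
open Pool.Agent.P.MP_a14ce1_nt.Fu.Loc (dsI gnI LL Eqv bl)

namespace LocB

theorem eqv_nv {f : ℕ → ℂ} {a U B : ℝ} (h : Nv f a U B) {p : ℕ} (hp : p.Prime)
    (hb : Real.log p ≤ B) (hv : Real.log p < a ∨ a * U < Real.log p) : Eqv (fun _ => 1) f p :=
  fun m _ => by rw [h p hp hb hv m, one_mul]

theorem parB (hM : S_MidB) : Al.S_Loc := by
  intro A hA
  obtain ⟨C, C0, hM⟩ := hM A hA
  obtain ⟨s0, h1⟩ := sec1B
  have hX := IV.hull A hA.atm
  obtain ⟨D, hD⟩ : ∃ D : ℕ, D = 10 ^ 6 * C ^ 3 + s0 := ⟨_, rfl⟩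
  have C1 : (1 : ℝ) ≤ C := by exact_mod_cast C0
  have D0 : 0 < D := by rw [hD]; positivity
  refine ⟨(D : ℝ) ^ 2, by positivity, fun f Y M a U σ ε v hf hF aM U1 ε0 ε1 σ1 Y1 hU hσ hY hP => ?_⟩
  have M1' : 1 ≤ M := (one_le_pow₀ σ1).trans hσ
  rcases le_total v ε with hv | hv
  · refine ⟨Y, M * σ, le_rfl, le_mul_of_one_le_right (by linarith)
      (Real.one_le_exp (by positivity)), le_rfl,
      by nlinarith [mul_nonneg (zero_le_one.trans M1') (zero_le_one.trans σ1)], 0,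
      IV.gr_zero hX _, ?_⟩
    refine (mul_nonpos_of_nonpos_of_nonneg (by linarith) (by positivity)).trans ?_
    simp [IV.gn]
  obtain ⟨L, T, s, hT, LT, l1, DL, l3, s1, b1, b2, l2, L1, εL, UL, s2, s3, T3, DL'⟩ :=
    base (D := D) C0 (by omega) U1 ε0 ε1 σ1 hU hσ
  have CL : (C : ℝ) ≤ L := by
    exact_mod_cast (Nat.le_self_pow two_ne_zero C).trans (by omega : C ^ 2 ≤ L)
  have l2' : 200 * ((L : ℝ) * L) ≤ T := le_trans (by gcongr; linarith) l2
  have l4 : 200 * (200 * (L : ℝ)) ≤ T := le_trans (by gcongr) l2'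
  have T1 : (1 : ℝ) ≤ T := by linarith
  have T0 : 0 < T := by omega
  have t12 : (T : ℝ) ^ 12 * M ≤ Real.log Y := le_trans (by gcongr) hY
  have t3 : 3 * M ≤ Real.log Y := le_trans (by
    gcongr; exact le_trans (by linarith) (le_self_pow₀ T1 (by norm_num))) t12
  have Y2 : 2 ≤ Y := by linarith [Real.log_le_sub_one_of_pos (show 0 < Y by linarith)]
  have M0 : 0 ≤ M := by linarith
  obtain ⟨Ψ0, g0, g1⟩ := (Fu.Loc.pot_iff (by linarith)).1 hP
  have lo1 := Fu.Loc.one_le_bl Y2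
  have lh := Fu.Loc.bl_exp (show 0 ≤ Y by linarith) M0
  have lY := Fu.Loc.bl_le (show 0 ≤ Y by linarith)
  obtain ⟨o1, o2⟩ := Fu.Loc.log_bl Y2
  obtain ⟨o3, o4⟩ := Fu.Loc.log_bl (Y2.trans (le_mul_of_one_le_right (by linarith) (Real.one_le_exp M0)))
  rw [Real.log_mul (by linarith) (Real.exp_pos M).ne', Real.log_exp] at o3 o4
  generalize bl Y = lo at *
  generalize bl (Y * Real.exp M) = hi at *
  have lo0 : (0 : ℝ) < lo := by exact_mod_cast lo1
  obtain ⟨N, hN⟩ : ∃ N, N = Real.log ((hi : ℝ) / lo) := ⟨_, rfl⟩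
  have hLL : LL lo hi = 1 + N := by rw [hN]; rfl
  have N1 : M - 1 ≤ N := by rw [hN, Fu.Loc.log_ratio lo1 lh]; linarith
  have N2 : N ≤ M + 1 := by rw [hN, Fu.Loc.log_ratio lo1 lh]; linarith
  have N0 : 0 < N := by linarith
  have v2 : v ≤ 2 := by
    have := Fu.Loc.dsI_zero_le lo1 lh hf
    have := Fu.Loc.dsI_nonneg lo hi f Ψ0
    rw [Fu.Loc.gnI_eq] at g1
    refine le_of_mul_le_mul_right ?_ (show 0 < M by linarith)
    linarith
  obtain ⟨Pm, hPm⟩ : ∃ Pm, Pm = 2 ^ (s * T ^ 12) := ⟨_, rfl⟩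
  have Pm0 : 0 < Pm := hPm ▸ Nat.two_pow_pos _
  have Pm1 : (1 : ℝ) ≤ Pm := by exact_mod_cast Pm0
  have p0 := Real.log_nonneg Pm1
  have p1 : T * Real.log Pm ≤ M := by
    refine le_trans ?_ s2
    calc _ ≤ T * ((s * T ^ 12 : ℕ) : ℝ) := by gcongr; exact hPm ▸ (log_two_pow _).2
      _ = _ := by push_cast; ring
  have p2 : 200 * (200 * (L : ℝ)) * Real.log Pm ≤ M := le_trans (by gcongr) p1
  have p4 : 200 * (200 * 200) * Real.log Pm ≤ M := le_trans (by gcongr) p2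
  have p3 : (T : ℝ) ≤ Pm := by
    exact_mod_cast hPm ▸ le_trans (s1.trans (Nat.le_mul_of_pos_right _ (pow_pos T0 _)))
      Nat.lt_two_pow_self.le
  have ep : ∀ n : ℕ, (Pm : ℝ) ^ n = Real.exp (n * Real.log Pm) := fun n => by
    rw [Real.exp_nat_mul, Real.exp_log (by linarith)]
  have σ2 : M ≤ 100 * σ ^ 2 * M :=
    le_mul_of_one_le_left M0 (by nlinarith [one_le_pow₀ (n := 2) σ1])
  have hF' : ∀ p : ℕ, p.Prime → (p : ℝ) ≤ Pm →
      Real.log p < max a 0 ∨ max a 0 * U < Real.log p → Eqv (fun _ => 1) f p := fun p hp hb h =>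
    eqv_nv hF hp (le_trans (Real.log_le_log (by exact_mod_cast hp.pos) hb) (by linarith))
      (h.imp (fun h => (lt_max_iff.1 h).resolve_right (Real.log_natCast_nonneg p).not_gt)
        fun h => lt_of_le_of_lt (by gcongr; exact le_max_left _ _) h)
  have T12 : T ^ 9 * 2 ^ (3 * L) = T ^ 12 := by rw [mul_comm 3, pow_mul, ← hT]; ring
  obtain ⟨ρ, Ψ, Ψ1, J, r1, r2, r3, r4, r5, r6, r7, r9, r8⟩ := h1 _ hX (fun _ => 1) f
    (fun n => norm_one.le) hf s (T ^ 9) L L lo hi Pm (Real.exp M) (max a 0) U Ψ0 (by omega)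
    (by omega) (Nat.one_le_pow _ _ T0) (by omega) (by omega)
    (by rw [mul_assoc, T12, hPm]; push_cast; rfl)
    (by rw [ep, Real.exp_le_exp]; push_cast; linarith)
    ((Real.log_le_log_iff (by linarith) lo0).1 (by linarith)) lh (le_max_right _ _)
    (by rw [show (2 : ℝ) ^ L = T by rw [hT]; push_cast; rfl]; linarith)
    (fun p hp hb h => ⟨norm_one, hF' p hp hb h⟩) g0
  rw [T12] at r7
  obtain ⟨n1, n2, n3, n4, n5⟩ := nums hT LT l1 C0 s1 r6 r7
  obtain ⟨y, hy⟩ : ∃ y, y = 2 ^ (s * J) := ⟨_, rfl⟩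
  obtain ⟨Q, hQ⟩ : ∃ Q, Q = 2 ^ (s * T ^ 8) := ⟨_, rfl⟩
  rw [← hQ] at n2 n3 n4 n5
  rw [← hy] at n3
  have y2 : y ^ 2 = 2 ^ (s * (2 * J)) := by rw [hy, ← pow_mul]; congr 1; ring
  have y3 : y ^ 2 ≤ Pm := by
    rw [y2, hPm]
    exact two_pow_mono (by gcongr)
  have y0 : (0 : ℝ) < y := by exact_mod_cast hy ▸ Nat.two_pow_pos _
  have y4 : (y : ℝ) ≤ Pm := by exact_mod_cast (Nat.le_self_pow two_ne_zero _).trans y3
  have y5 := Real.log_le_log y0 y4
  have y6 : s * (T : ℝ) ^ 9 / 2 ≤ Real.log y := by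
    refine le_trans ?_ (hy ▸ (log_two_pow _).1)
    push_cast
    gcongr
    exact_mod_cast r6
  obtain ⟨g, g2, g3⟩ := r8 (T ^ 8 + 1) n1
  have gq : ∀ k, ∀ p ∈ grp s (g k), p ∈ V.PP (s * J) (s * (2 * J)) := fun k p hp => by
    obtain ⟨q1, q2, q3⟩ := V.mem_PP.1 hp
    refine V.mem_PP.2 ⟨q1, lt_of_le_of_lt (two_pow_mono ?_) q2, q3.trans (two_pow_mono ?_)⟩
    · gcongr; exact (g3 k).1
    · gcongr; exact (g3 k).2.1
  have gp : ∀ k, ∀ p ∈ grp s (g k), p.Prime ∧ y < p ∧ p ≤ y ^ 2 := fun k p hp => by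
    rw [y2, hy]; exact V.mem_PP.1 (gq k p hp)
  have gb : ∀ k, 1 ≤ ((4 * J : ℕ) : ℝ) * rs (grp s (g k)) := fun k => by
    push_cast; exact (g3 k).2.2.1
  obtain ⟨δ, hδ⟩ : ∃ δ, δ = ε / (10 * C) := ⟨_, rfl⟩
  have δ0 : 0 < δ := by rw [hδ]; positivity
  have δ1 : ε = 10 * C * δ := by rw [hδ]; field_simp
  obtain ⟨z1, z2, z3, z4, z5, z6, z7, z8, z9, z10⟩ := reals C1 l2 CL L1 δ0 (δ1 ▸ ε1) (δ1 ▸ εL) U1 UL
    s3 T3 N1 N2 aM p0 p1 y5 y6 t12
  have zB : 6 * (2 * (T : ℝ) * (4 * T) * N) ≤ 100 * σ ^ 2 * M := by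
    calc _ ≤ 6 * (2 * σ * (4 * σ) * (2 * M)) := by gcongr; linarith
      _ = 96 * (σ ^ 2 * M) := by ring
      _ ≤ 100 * (σ ^ 2 * M) := by gcongr; norm_num
      _ = _ := by ring
  have ρ0 : 0 < ρ := pos_of_mul_pos_left ((Real.exp_pos M).trans_le r1) (by positivity)
  have k1 : Real.log ((2 * T) * (4 * T)) ≤ 3 * L := by
    have := (log_two_pow (L * 3)).2
    rw [pow_mul, ← hT] at this
    push_cast at this
    refine (Real.log_le_log (by positivity) ?_).trans (this.trans_eq (mul_comm _ _))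
    calc _ = 8 * (T : ℝ) ^ 2 := by ring
      _ ≤ T * T ^ 2 := by gcongr; linarith
      _ = _ := by ring
  obtain ⟨j, j1, j2, Φ, j3, j4⟩ := hM (fun _ => 1) f Q y (T ^ 8) (4 * J)
    (∏ k : Fin (T ^ 8), 2 ^ (s * g k.castSucc))
    Pm lo hi (4 * T) (2 * T) (2 * T) N (2 * U) δ ρ _ δ Ψ Ψ1 (fun k => grp s (g k.castSucc))
    (grp s (g (Fin.last _))) MP_746f10_nt.LP.ucm_one hf lo1 lh hN
    (fun p hp h hb => eqv_nv hF hp (hb.trans (by push_cast; exact zB)) (.inr (z2.trans_lt h)))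
    (fun k p hp => hF' p (gp _ p hp).1 (by exact_mod_cast (gp _ p hp).2.2.trans y3)
      (r9 p (gq _ p hp))) r3 r4
    ⟨Nat.one_le_pow _ _ T0, by have := pow_pos T0 9; omega, n2, n3, fun k => gp _, gp _,
      fun k k' h => IV.grp_disjoint _ fun e => h (Fin.castSucc_injective _ (g2 e)),
      fun k => IV.grp_disjoint _ fun e => (Fin.castSucc_lt_last k).ne (g2 e), fun k => gb _, gb _⟩
    y3 (by linarith)
    (by
      rw [← Fin.prod_const]
      exact prod_le_prod' fun k _ => hy ▸ two_pow_mono (by gcongr; exact (g3 _).1))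
    (fun u hu => by
      have hu := fun k => V.mem_PP.1 (Fintype.mem_piFinset.1 hu k)
      refine ⟨prod_le_prod' fun k _ => (hu k).2.1.le,
        (prod_le_prod' fun k _ => (hu k).2.2).trans ?_⟩
      simp only [mul_add, mul_one, pow_add, prod_mul_distrib, Fin.prod_const, ← pow_mul]
      rw [mul_comm]
      gcongr
      exact hy ▸ two_pow_mono (by gcongr; omega))
    (by linarith) δ0 (by linarith) z3 (by push_cast; exact z4) (by omega)
    (by push_cast; exact (mul_le_mul_of_nonneg_left k1 (by linarith)).trans z5)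
    (le_trans (by push_cast; exact pow_le_pow_left₀ (by positivity) z6 _)
      (show ((T ^ 3 : ℕ) : ℝ) ^ (C * (2 * T)) ≤ Q by exact_mod_cast n4))
    (le_trans (by push_cast; exact z7) (show ((T ^ 16 * s : ℕ) : ℝ) ≤ Q by exact_mod_cast n5))
    (by
      refine le_of_mul_le_mul_right (le_trans ?_ r1) (show 0 < (Pm : ℝ) ^ (2 * L) by positivity)
      calc _ ≤ Real.exp (2 * δ * N) * (Pm : ℝ) ^ C * Pm ^ (2 * L) := by gcongr
        _ ≤ _ := by
          rw [ep, ep, ← Real.exp_add, ← Real.exp_add, Real.exp_le_exp]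
          push_cast
          exact z8)
    (by push_cast; exact z9)
    (by
      have a1 : Real.log ρ ≤ M := (Real.log_le_iff_le_exp ρ0).2
        (le_trans (le_mul_of_one_le_right ρ0.le (one_le_pow₀ Pm1)) r2)
      push_cast
      linarith)
    (by rw [hLL]; positivity) (fun k => (g3 _).2.2.2) δ0 (by linarith)
  push_cast at j3 j4
  have j1' : (1 : ℝ) ≤ j := by exact_mod_cast j1
  have j2' : (j : ℝ) ≤ 4 * T := by exact_mod_cast (by omega : j ≤ 4 * T)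
  refine ⟨lo * Real.exp (j * (4 * T) * N), 4 * T * N, ?_, ?_, ?_, ?_, Φ, j3,
    le_trans (mul_le_mul_of_nonneg_right ?_ (by positivity)) j4⟩
  · rw [← Real.log_le_log_iff (by linarith) (by positivity), Real.log_mul lo0.ne'
      (Real.exp_pos _).ne', Real.log_exp]
    have : 1 * (4 * 1) * N ≤ j * (4 * T) * N := by gcongr
    linarith
  · refine mul_le_mul lY (Real.exp_le_exp.2 ?_) (Real.exp_pos _).le (by linarith)
    calc _ ≤ (4 * σ) * (4 * σ) * (2 * M) := by gcongr <;> linarith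
      _ = 32 * M * σ ^ 2 := by ring
      _ ≤ (3 * σ) * M * σ ^ 2 := by gcongr; linarith
      _ = 3 * M * σ ^ 3 := by ring
      _ ≤ _ := by gcongr; norm_num
  · calc M * σ ≤ (2 * N) * (2 * T) := by gcongr; linarith
      _ = _ := by ring
  · calc 4 * (T : ℝ) * N ≤ 4 * σ * (2 * M) := by gcongr; linarith
      _ = _ := by ring
  obtain ⟨w, hw⟩ : ∃ w, w = 1 / √(L : ℝ) := ⟨_, rfl⟩
  obtain ⟨w0, w1, w2, w3, w4⟩ := smalls L1 l2' hw T3 N1 p3 p1
  rw [hLL] at r5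
  rw [hLL, ← hw]
  refine book (D := D) (w := w) C1 (by rw [hD]; push_cast; linarith [Nat.cast_nonneg (α := ℝ) s0])
    ε0 ε1 δ1 ?_ w0 N0 N2 (by linarith) v2 (le_trans (sub_le_sub_right g1 _) r5) w2
    ((div_le_iff₀ N0).2 (y5.trans w1)) (le_trans (by gcongr) w3) w4 ?_
  · rw [hw, one_div, inv_mul_le_iff₀ (Real.sqrt_pos.2 (by linarith))]
    refine (pow_le_pow_iff_left₀ (by positivity) (by positivity) two_ne_zero).1 ?_
    rwa [mul_pow, Real.sq_sqrt (by linarith), ← pow_mul, mul_comm]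
  · have a1 : Real.log σ ≤ Real.log (2 * T) := Real.log_le_log (by linarith) b2
    have a2 : 0 < Real.log (2 * T) := Real.log_pos (by linarith)
    rw [← mul_div_assoc, div_le_iff₀ (by positivity)]
    calc _ = 4 * δ ^ 3 * ((D : ℝ) ^ 2 * U ^ 2) := by ring
      _ ≤ 4 * δ ^ 3 * (ε ^ 6 * Real.log (2 * T)) :=
          mul_le_mul_of_nonneg_left (hU.trans (by gcongr)) (by positivity)
      _ = _ := by ring

end LocB

/-- the local plain step -/
theorem loc : S_Loc :=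
  LocB.parB (LocB.midB (conc8 core8 repA repB cut8 mass8 lev8) setup8 down8 cat8)

end Pool.Agent.P.MP_4ef411_nt.Al
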