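import Pool.Agent.P.MP_4ef411_nt.Al.St

/-! From the conclusion of the blocks to the independence along affine forms. -/

open Finset Filter

namespace Pool.Agent.P.MP_4ef411_nt.Al

open Pool.Agent.P.MP_a14ce1_nt
open Pool.Agent.P.MP_a14ce1_nt.Ch (pv)
open Pool.Agent.P.MP_a14ce1_nt.V (av)
open Pool.Agent.P.MP_746f10_nt
open Pool.Agent.P.MP_746f10_nt.LP (Tr)
open Pool.Agent.P.MP_e30989_nt.W (UCM)

namespace Red

theorem sqf {c : Finset ℕ} (hc : ∀ q ∈ c, q.Prime) : Squarefree (pv c) :=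
  Finset.squarefree_prod_of_pairwise_isCoprime
    (fun p hp q hq hpq => Nat.coprime_iff_isRelPrime.mp
      ((Nat.coprime_primes (hc p hp) (hc q hq)).mpr hpq))
    fun p hp => (hc p hp).squarefree

theorem dvd_iff {A d : ℕ} (hA : 0 < A) (hd : Squarefree d) (m : ℕ) :
    A * Nat.gcd d A ∣ d * m ↔ A ∣ m := by
  have hc := Nat.coprime_div_gcd_of_squarefree hd hA.ne'
  have hg : 0 < Nat.gcd d A := Nat.gcd_pos_of_pos_right _ hA
  obtain ⟨e, he⟩ := Nat.gcd_dvd_left d A
  generalize Nat.gcd d A = g at *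
  subst he
  rw [Nat.mul_div_cancel_left _ hg] at hc
  rw [mul_comm A g, mul_assoc, Nat.mul_dvd_mul_iff_left hg]
  exact hc.symm.dvd_mul_left

theorem pv_one {f : ℕ → ℂ} {y : ℝ} (hf : UCM f) (ht : Tr y f) {c : Finset ℕ}
    (hc : ∀ q ∈ c, q.Prime ∧ (q : ℝ) ≤ y) : f (pv c) = 1 := by
  refine LP.eq_one_of_primes hf.1 (LP.ucm_one_eq hf) (sqf fun q hq => (hc q hq).1).ne_zero
    fun p hp hd => ?_
  obtain ⟨q, hq, hpq⟩ := (Prime.dvd_finsetProd_iff hp.prime _).mp hd
  rw [(Nat.prime_dvd_prime_iff_eq hp (hc q hq).1).mp hpq]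
  exact ht q (hc q hq).1 (hc q hq).2

theorem sum_mul {A : ℕ} (hA : 0 < A) (g : ℕ → ℝ) (N : ℕ) :
    ∑ m ∈ Icc 1 (A * N), (if A ∣ m then g m else 0) = ∑ n ∈ Icc 1 N, g (A * n) := by
  rw [← sum_filter]
  symm
  refine sum_bij (fun n _ => A * n) (fun n hn => ?_) (fun n _ n' _ e => ?_) (fun m hm => ?_)
    fun _ _ => rfl
  · rw [mem_Icc] at hn
    exact mem_filter.2 ⟨mem_Icc.2 ⟨Nat.mul_pos hA hn.1, Nat.mul_le_mul_left _ hn.2⟩,
      dvd_mul_right _ _⟩
  · exact Nat.eq_of_mul_eq_mul_left hA e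
  · obtain ⟨h1, n, rfl⟩ := mem_filter.1 hm
    rw [mem_Icc] at h1
    exact ⟨n, mem_Icc.2 ⟨Nat.pos_of_mul_pos_left h1.1, Nat.le_of_mul_le_mul_left h1.2 hA⟩, rfl⟩

theorem abs_prod_le {ι : Type} (s : Finset ι) {u : ι → ℝ} (h : ∀ i, |u i| ≤ 1) :
    |∏ i ∈ s, u i| ≤ 1 := by
  rw [abs_prod]
  exact prod_le_one (fun _ _ => abs_nonneg _) fun i _ => h i

theorem prod_bool {k : ℕ} (u : Fin k → Bool → ℂ) :
    ∏ i, (u i true + u i false) = ∑ σ : Fin k → Bool, ∏ i, u i (σ i) := by
  rw [← Fintype.piFinset_univ, ← prod_univ_sum]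
  simp only [Fintype.univ_bool, mem_singleton, Bool.true_eq_false, not_false_eq_true, sum_insert,
    sum_singleton]

/-- the real form -/
theorem real (h : S_Main) (k : ℕ) (a b : Fin k → ℕ) (η δ : ℝ) (V : Finset ℂ) (ha : ∀ i, 0 < a i)
    (hne : ∀ i j, i ≠ j → a i * b j ≠ a j * b i) (hη : 0 < η) (hδ : 0 < δ) :
    ∀ᶠ N : ℕ in atTop, ∀ f : Fin k → ℕ → ℂ,
      (∀ i, UCM (f i) ∧ Tr ((N : ℝ) ^ η) (f i) ∧ ∀ n, f i n ∈ V) →
      ∀ (φ : Fin k → ℂ → ℝ) (i0 : Fin k) (ω : ℂ), (∀ i z, ‖z‖ ≤ 1 → |φ i z| ≤ 1) → ‖ω‖ ≤ 1 / 2 →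
        (∀ z, φ i0 z = (ω * (z - av (f i0) N)).re) →
        |∑ n ∈ Icc 1 N, ∏ i, φ i (f i (a i * n + b i))| ≤ δ * N := by
  classical
  obtain ⟨A, hA⟩ : ∃ A, A = ∏ i, a i := ⟨_, rfl⟩
  have hAp : 0 < A := hA ▸ prod_pos fun i _ => ha i
  have hd : ∀ i, ∃ e, A = a i * e := fun i => hA ▸ dvd_prod_of_mem a (mem_univ i)
  choose e he using hd
  have hep : ∀ i, 0 < e i := fun i => Nat.pos_of_mul_pos_left (he i ▸ hAp)
  obtain ⟨t, ht⟩ : ∃ t : Fin k → ℕ, ∀ i, t i = e i * b i := ⟨_, fun _ => rfl⟩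
  have htinj : ∀ i j, t i = t j → i = j := fun i j hij => by
    by_contra hc
    refine hne i j hc (Nat.eq_of_mul_eq_mul_left hAp ?_)
    calc A * (a i * b j) = a i * a j * t j := by rw [he j, ht]; ring
      _ = a i * a j * t i := by rw [hij]
      _ = A * (a j * b i) := by rw [he i, ht]; ring
  obtain ⟨T, hT⟩ : ∃ T, T = A * (∑ i, t i + 1) := ⟨_, rfl⟩
  have htT : ∀ i, t i < T := fun i => by
    have h1 : t i ≤ ∑ i, t i := single_le_sum (fun _ _ => Nat.zero_le _) (mem_univ i)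
    have h2 : ∑ i, t i + 1 ≤ A * (∑ i, t i + 1) := Nat.le_mul_of_pos_left _ hAp
    omega
  have hT0 : 0 < T := hT ▸ Nat.mul_pos hAp (Nat.succ_pos _)
  have hA' : (0 : ℝ) < A := by exact_mod_cast hAp
  obtain ⟨N0, hN0⟩ := h (T + 1) (A + 1) (V.card ^ k * 2 ^ (A + 1)) A η (δ / A) (by omega) hη
    (by positivity)
  have hev : ∀ᶠ N : ℕ in atTop, (A : ℝ) ≤ (N : ℝ) ^ η :=
    ((tendsto_rpow_atTop hη).comp tendsto_natCast_atTop_atTop).eventually_ge_atTop _
  filter_upwards [eventually_ge_atTop N0, hev] with N hN hAN f hf φ i0 ω hφ hω h0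
  have hb : ∀ i n, |φ i (f i n)| ≤ 1 := fun i n => hφ i _ ((hf i).1.1.bd n)
  have key := hN0 N (A * N) (t i0) (fun m => if A ∣ m then ∏ i, φ i (f i (m + t i)) else 0)
    (fun j d => if Nat.gcd d A = j then 1 else 0)
    (fun j s n => if s = T then (if A * j ∣ n then 1 else 0) else
      ∏ i ∈ univ.filter (fun i => t i = s), φ i (f i n))
    ((Fin k → V) × (Fin (A + 1) → Bool))
    (fun n => (fun i => ⟨f i n, (hf i).2.2 n⟩, fun j => decide (A * j ∣ n))) hN
    (Nat.le_mul_of_pos_left _ hAp) le_rfl (by have := htT i0; omega) (by simp)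
    (fun m => by
      split_ifs
      · exact abs_prod_le _ fun i => hb i _
      · simp)
    (fun j d => by split_ifs <;> simp)
    (fun j s n => by
      split_ifs
      · simp
      · simp
      · exact abs_prod_le _ fun i => hb i _)
    (fun n n' hn j s => by
      have h1 : ∀ i, f i n = f i n' := fun i =>
        congrArg Subtype.val (congrFun (congrArg Prod.fst hn) i)
      have h2 : A * j ∣ n ↔ A * j ∣ n' := decide_eq_decide.mp (congrFun (congrArg Prod.snd hn) j)
      simp only [h1, h2])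
    (fun j => ⟨f i0, ω, (hf i0).1, (hf i0).2.1, hω, fun n _ => by
      have e1 : univ.filter (fun i => t i = t i0) = {i0} := by
        ext i
        simp only [mem_filter, mem_univ, true_and, mem_singleton]
        exact ⟨htinj i i0, fun e => by rw [e]⟩
      beta_reduce
      rw [if_neg (htT i0).ne, e1, prod_singleton, h0]⟩)
    (fun c hc m hm => by
      have hs := sqf fun q hq => (hc q hq).1
      have e1 : ∀ j : Fin (A + 1), ∏ s ∈ range (T + 1), (if s = T then
          (if A * j ∣ pv c * (m + s) then (1 : ℝ) else 0) else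
          ∏ i ∈ univ.filter (fun i => t i = s), φ i (f i (pv c * (m + s)))) =
          (∏ i, φ i (f i (m + t i))) * (if A * j ∣ pv c * (m + T) then (1 : ℝ) else 0) := by
        intro j
        rw [prod_range_succ, if_pos rfl, ← prod_fiberwise_of_maps_to (s := univ) (t := range T)
          (g := t) (fun i _ => mem_range.2 (htT i))]
        congr 1
        refine prod_congr rfl fun s hs' => ?_
        rw [if_neg (mem_range.1 hs').ne]
        refine prod_congr rfl fun i hi => ?_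
        rw [(mem_filter.1 hi).2, (hf i).1.1.mul _ _ hs.ne_zero (by omega),
          pv_one (hf i).1 (hf i).2.1 hc, one_mul]
      simp only [e1]
      rw [sum_eq_single ⟨Nat.gcd (pv c) A, Nat.lt_succ_of_le (Nat.gcd_le_right _ hAp)⟩]
      · have e2 : A * Nat.gcd (pv c) A ∣ pv c * (m + T) ↔ A ∣ m := by
          rw [dvd_iff hAp hs, hT]
          exact (Nat.dvd_add_iff_left (dvd_mul_right _ _)).symm
        simp only [e2, if_true, one_mul, mul_ite, mul_one, mul_zero]
      · intro j _ hj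
        rw [if_neg fun e => hj (Fin.ext e.symm), zero_mul]
      · exact fun hj => absurd (mem_univ _) hj)
  rw [sum_mul hAp, Nat.cast_mul, ← mul_assoc, div_mul_cancel₀ _ hA'.ne'] at key
  refine le_of_eq_of_le ?_ key
  congr 1
  refine sum_congr rfl fun n hn => prod_congr rfl fun i _ => ?_
  have h1 : 0 < a i * n := Nat.mul_pos (ha i) (mem_Icc.1 hn).1
  have h2 : (e i : ℝ) ≤ A := by
    exact_mod_cast Nat.le_of_dvd hAp (Dvd.intro_left _ (he i).symm)
  have h3 : A * n + t i = e i * (a i * n + b i) := by rw [ht, he i]; ring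
  rw [h3, (hf i).1.1.mul _ _ (hep i).ne' (by omega),
    (hf i).2.1.eq_one (hf i).1.1 (LP.ucm_one_eq (hf i).1) (hep i).ne' (h2.trans hAN), one_mul]

/-- the weight that picks the real or the imaginary part -/
noncomputable def om (e : Bool) : ℂ := if e then 1 / 2 else -Complex.I / 2

/-- the weight that puts it back -/
noncomputable def co (e : Bool) : ℂ := if e then 2 else 2 * Complex.I

theorem norm_om (e : Bool) : ‖om e‖ ≤ 1 / 2 := by cases e <;> simp [om]

theorem norm_co (e : Bool) : ‖co e‖ = 2 := by cases e <;> simp [co]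

theorem split (z : ℂ) :
    z = co true * ((om true * z).re : ℝ) + co false * ((om false * z).re : ℝ) := by
  apply Complex.ext <;> simp [om, co]
  ring

/-- the complex form -/
theorem cplx (h : S_Main) (k : ℕ) (a b : Fin k → ℕ) (η δ : ℝ) (V : Finset ℂ) (ha : ∀ i, 0 < a i)
    (hne : ∀ i j, i ≠ j → a i * b j ≠ a j * b i) (hη : 0 < η) (hδ : 0 < δ) :
    ∀ᶠ N : ℕ in atTop, ∀ f : Fin k → ℕ → ℂ,
      (∀ i, UCM (f i) ∧ Tr ((N : ℝ) ^ η) (f i) ∧ ∀ n, f i n ∈ V) →
      ∀ (Φ : Fin k → ℂ → ℂ) (i0 : Fin k), (∀ i z, ‖z‖ ≤ 1 → ‖Φ i z‖ ≤ 2) →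
        (∀ z, Φ i0 z = z - av (f i0) N) →
        ‖∑ n ∈ Icc 1 N, ∏ i, Φ i (f i (a i * n + b i))‖ ≤ 4 ^ k * (δ * N) := by
  filter_upwards [real h k a b η δ V ha hne hη hδ] with N hN f hf Φ i0 hΦ h0
  have e1 : ∀ n, ∏ i, Φ i (f i (a i * n + b i)) = ∑ σ : Fin k → Bool, (∏ i, co (σ i)) *
      ((∏ i, (om (σ i) * Φ i (f i (a i * n + b i))).re : ℝ) : ℂ) := fun n => by
    rw [prod_congr rfl fun i _ => split (Φ i (f i (a i * n + b i))),
      prod_bool fun i e => co e * ((om e * Φ i (f i (a i * n + b i))).re : ℝ)]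
    simp only [prod_mul_distrib, Complex.ofReal_prod]
  simp only [e1]
  rw [sum_comm]
  refine (norm_sum_le _ _).trans ((sum_le_card_nsmul _ _ (2 ^ k * (δ * N)) fun σ _ => ?_).trans
    (le_of_eq ?_))
  · rw [← mul_sum, norm_mul, norm_prod, ← Complex.ofReal_sum, Complex.norm_real, Real.norm_eq_abs]
    simp only [norm_co, prod_const, card_univ, Fintype.card_fin]
    refine mul_le_mul_of_nonneg_left (hN f hf (fun i z => (om (σ i) * Φ i z).re) i0 (om (σ i0))
      (fun i z hz => (Complex.abs_re_le_norm _).trans ?_) (norm_om _) fun z => by rw [h0])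
      (by positivity)
    rw [norm_mul]
    nlinarith [norm_om (σ i), hΦ i z hz, norm_nonneg (om (σ i)), norm_nonneg (Φ i z)]
  · rw [card_univ, Fintype.card_fun, Fintype.card_bool, Fintype.card_fin, nsmul_eq_mul,
      show (4 : ℝ) = 2 * 2 by norm_num, mul_pow]
    push_cast
    ring

end Red

theorem ga (h : S_Main) : S_GA := by
  classical
  intro k a b η δ V ha hne hη hδ
  filter_upwards [Red.cplx h k a b η (δ / 8 ^ k) V ha hne hη (by positivity),
    eventually_ge_atTop 1] with N hN hN1 f hf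
  have hN' : (0 : ℝ) < N := by exact_mod_cast hN1
  have e1 : ∀ n, ∏ i, f i (a i * n + b i) - ∏ i, av (f i) N =
      ∑ σ ∈ univ.erase (fun _ => false : Fin k → Bool),
        ∏ i, (if σ i then f i (a i * n + b i) - av (f i) N else av (f i) N) := fun n => by
    have := Red.prod_bool fun i e => if e then f i (a i * n + b i) - av (f i) N else av (f i) N
    simp only [if_true, Bool.false_eq_true, if_false, sub_add_cancel] at this
    rw [this, ← add_sum_erase _ _ (mem_univ fun _ => false)]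
    simp
  have e2 := LP.sum_sub_const (fun n => ∏ i, f i (a i * n + b i)) (∏ i, av (f i) N) N
  simp only [e1] at e2
  rw [sum_comm] at e2
  have e3 := congrArg norm e2
  rw [norm_mul, Complex.norm_natCast] at e3
  refine le_of_mul_le_mul_left (e3.symm.le.trans ((norm_sum_le _ _).trans ((sum_le_card_nsmul _ _
    (4 ^ k * (δ / 8 ^ k * N)) fun σ hσ => ?_).trans ?_))) hN'
  · obtain ⟨i0, hi0⟩ := Function.ne_iff.mp (ne_of_mem_erase hσ)
    refine hN f hf (fun i z => if σ i then z - av (f i) N else av (f i) N) i0 (fun i z hz => ?_)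
      fun z => if_pos (by simpa using hi0)
    have := MP_a14ce1_nt.V.norm_av_le (hf i).1.1.bd N
    split_ifs
    · linarith [norm_sub_le z (av (f i) N)]
    · linarith
  · have h1 : ((univ.erase (fun _ => false : Fin k → Bool)).card : ℝ) ≤ 2 ^ k := by
      have := card_erase_le (s := (univ : Finset (Fin k → Bool))) (a := fun _ => false)
      rw [card_univ, Fintype.card_fun, Fintype.card_bool, Fintype.card_fin] at this
      exact_mod_cast this
    rw [nsmul_eq_mul]
    refine (mul_le_mul_of_nonneg_right h1 (by positivity)).trans (le_of_eq ?_)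
    rw [show (8 : ℝ) = 2 * 4 by norm_num, mul_pow]
    field_simp

end Pool.Agent.P.MP_4ef411_nt.Al
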