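import Pool.Agent.P.MP_4ef411_nt.Al.St
import Pool.Agent.P.MP_a14ce1_nt.Fu.S7M

/-! Section 7 on the model, with one function for each site. -/

open Finset

namespace Pool.Agent.P.MP_4ef411_nt.Al

open Pool.Agent.P.MP_a14ce1_nt
open Pool.Agent.P.MP_a14ce1_nt.Fu
open Pool.Agent.P.MP_a14ce1_nt.Fu.St
open Pool.Agent.P.MP_a14ce1_nt.Ch (pv)

theorem no7 (h7 : S_Sec7) (hN : S_NoPot) : S_No7 := by
  intro r L δ hδ
  obtain ⟨A, c2, C, hA, h1A, c0, c1, h7⟩ := h7 r L δ hδ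
  obtain ⟨C'', hC'', hN⟩ := hN A hA h1A
  refine ⟨c2, C + ⌈64 / c2⌉₊ + ⌈C''⌉₊ + 40, c0, c1, 
    fun Om cm M η' B hOm hcm hM hlM hcM hη' => ?_⟩
  set Cn := C + ⌈64 / c2⌉₊ + ⌈C''⌉₊ + 40 with hCn
  have e1 := Nat.le_ceil (64 / c2)
  have e2 := Nat.le_ceil C''
  have e3 : (0 : ℝ) ≤ C := Nat.cast_nonneg C
  have e4 : (0 : ℝ) ≤ 64 / c2 := by positivity
  have hOm' : (C : ℝ) + ⌈64 / c2⌉₊ + ⌈C''⌉₊ + 40 ≤ Om := by
    rw [hCn] at hOm; push_cast at hOm; exact hOm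
  have o1 : 64 / c2 ≤ Om := by linarith
  have o2 : C'' ≤ Om := by linarith
  have o3 : 40 ≤ Om := by linarith
  have o0 : 0 < Om := by linarith
  have o1' : 64 ≤ Om * c2 := (div_le_iff₀ c0).1 o1
  have one : (1 : ℝ) ≤ Om := by linarith
  have g0 : 0 < c2 / Om := by positivity
  have g1 : 64 ≤ Om ^ 2 * (c2 / Om) := by
    rw [show Om ^ 2 * (c2 / Om) = Om * c2 by field_simp]; exact o1'
  have g2 : c2 / Om ≤ 1 := (div_le_one o0).2 (by linarith)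
  set γ := c2 / Om with hγ
  have g3 : γ / Om ≤ 1 := (div_le_one o0).2 (by linarith)
  have g4 : 0 < γ / Om := by positivity
  obtain ⟨N1, hY0⟩ := hN (B + ⌈16 * cm / γ⌉₊ + ⌈M⌉₊) ((γ / Om) ^ 2 / 128) Om η' (by positivity)
    (by nlinarith) one hη'
  have x0 := Real.exp_pos M
  refine ⟨N1 + B + ⌈256 * Real.exp M * cm / γ ^ 2⌉₊,
    fun ι Z d G i0 N wb τ ℓ a T W x hN0 hNZ hZB hB hH hE hT hW hx hf hc hs ha hNL => ?_⟩
  have hZ' : (⌈256 * Real.exp M * cm / γ ^ 2⌉₊ : ℝ) ≤ Z := by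
    exact_mod_cast (by omega : ⌈256 * Real.exp M * cm / γ ^ 2⌉₊ ≤ Z)
  have z1 := Nat.le_ceil (16 * cm / γ)
  have z2 := Nat.le_ceil (256 * Real.exp M * cm / γ ^ 2)
  have z3 : (0 : ℝ) ≤ B := Nat.cast_nonneg B
  have z4 := Nat.le_ceil M
  have z5 : (0 : ℝ) ≤ 16 * cm / γ := by positivity
  have y2 : 256 * Real.exp M * cm ≤ Z * γ ^ 2 := (div_le_iff₀ (by positivity)).1 (by linarith)
  have p1 : Om ^ 40 ≤ Om ^ Cn := pow_le_pow_right₀ one (by omega)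
  have p2 : Om ^ C ≤ Om ^ Cn := pow_le_pow_right₀ one (by omega)
  have hZ0 : (0 : ℝ) ≤ Z := Nat.cast_nonneg Z
  have m0 : 0 < cm := by linarith
  have hP := h7 ι Z d G i0 Om wb τ ℓ Om cm M (γ * Z / (16 * cm))
    (hH.mono (Real.exp_pos _).le (Real.exp_le_exp.2 p2)) hE
    (fun n => by simpa [← hf n] using norm_wx hx (T := T) hW n) hc hs one hM hcm (by omega)
    (by rw [← hγ, ← mul_div_assoc, le_div_iff₀ (by positivity)]; linarith)
    (by rw [← hγ]; exact le_of_eq (by field_simp))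
    (by
      rw [div_mul_eq_mul_div, le_div_iff₀ (by positivity)]
      have a1 : 64 * cm ≤ Om ^ 2 * γ * cm := by gcongr
      have a2 : γ * (Om ^ 2 * cm) ≤ γ * Real.exp M := by gcongr
      have a3 : (Z : ℝ) * (32 * cm) ≤ Z * (γ * Real.exp M) :=
        mul_le_mul_of_nonneg_left (by linarith) hZ0
      linarith)
    (by
      have a1 : 64 * (Real.exp M * cm) ≤ Om ^ 2 * γ * (Real.exp M * cm) := by gcongr
      have a2 : γ * (Om ^ 2 * (Real.exp M * cm)) ≤ γ * d.N := by gcongr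
      rw [← hγ]
      linarith)
  have hf' : (fun n => (d.f n : ℂ)) = wx T W x := funext hf
  rw [hf'] at hP
  refine hY0 N T W x a (γ * Z / (16 * cm)) M (by omega)
    (fun p hp => ⟨(hT p hp).1, by have := (hT p hp).2.1; omega, (hT p hp).2.2⟩) hW hx ha hM
    ?_ ?_ ?_ (by push_cast; linarith) hP
  · have a1 : 1 / Om ^ 6 ≤ (γ / Om) ^ 2 / 128 := by
      rw [div_pow, div_div, div_le_div_iff₀ (by positivity) (by positivity)]
      have : 64 ^ 2 ≤ (Om ^ 2 * γ) ^ 2 := by gcongr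
      nlinarith [pow_pos o0 2]
    calc C'' * Om ^ 2 ≤ Om ^ 2 * Om ^ 2 := by gcongr; nlinarith
      _ = (1 / Om ^ 6) ^ 6 * Om ^ 40 := by field_simp
      _ ≤ ((γ / Om) ^ 2 / 128) ^ 6 * Real.log M := by gcongr; exact p1.trans hlM
  · have a1 : (N : ℝ) ≤ Z := by exact_mod_cast hNZ
    calc (N : ℝ) ≤ Z := a1
      _ = 16 * cm / γ * (γ * Z / (16 * cm)) := by field_simp
      _ ≤ _ := by
        refine mul_le_mul_of_nonneg_right ?_ (by positivity)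
        push_cast
        linarith
  · have a1 : (Z : ℝ) ≤ B * N := by exact_mod_cast hZB
    have a2 : γ * Z / (16 * cm) ≤ Z := by
      rw [div_le_iff₀ (by positivity), mul_comm γ]
      exact mul_le_mul_of_nonneg_left (by linarith) hZ0
    refine a2.trans (a1.trans (mul_le_mul_of_nonneg_right ?_ (Nat.cast_nonneg N)))
    push_cast
    linarith

namespace S7M

variable {F : Fam} {P : Par}

/-- the data of section 7 -/
noncomputable def dx (F : Fam) (Om : ℝ) {A : Type} (dt : ℕ → A) (Z : ℕ) (C0 : ℕ → Finset ℕ)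
    (s x : ℕ → ℝ) : D7 (Finset ℕ) Z where
  N := F.N
  HH := gl Z F.Qk0 dt C0
  CC := CC7 F
  cv := pv
  wh := F.w
  Yc c := ⌈F.D / pv c⌉₊ - 1
  P c := F.RR.filter fun p => F.win (pv c * p)
  th c p := s (pv c * p)
  F n b := F.wk (dp F.U (n + b)) * pred Z F.Qk0 dt C0 F.z0 x n b
  w m := F.wk (dp F.U m)
  f m := if m = 0 then 0 else W7 F Om (dp F.TT m) * x m

/-- the site functions -/
noncomputable def gx (F : Fam) {A : Type} (dt : ℕ → A) (Z : ℕ) (C0 : ℕ → Finset ℕ)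
    (X : ℕ → ℕ → ℝ) (i : ℕ) (n : Fin Z) (b : ℕ) : ℝ :=
  F.wk (dp F.U (n + b)) * pred Z F.Qk0 dt C0 F.z0 (X i) n b

theorem site (h : Hyp0 F P) {Om : ℝ} (hOm : 0 < Om) {x : ℕ → ℝ} {c : Finset ℕ} (hc : c ⊆ F.Lo)
    (hx : ∀ m, x (pv c * m) = x m) (m : ℕ) :
    F.wk (dp F.U (pv c * m)) * (F.z0 (pv c * m) * x (pv c * m)) =
      Om * (W7 F Om (dp F.TT m) * x m) := by
  have a : ∀ T ⊆ F.TT, dp T (pv c * m) = dp F.TT m ∩ T := fun T hT => by
    rw [dp_inter hT, dp_mul (fun q hq => h.prT q (hT hq)) fun q hq =>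
      (h.prT q (hT hq)).coprime_iff_not_dvd.1 (h.cop_cp hc (hT hq)).symm]
  rw [Fam.z0, W7, a _ F.U_sub, a _ F.RR_sub, a _ F.HH_sub, hx]
  field_simp

theorem t27 (h : Hyp0 F P) {A : Type} [Fintype A] (dt : ℕ → A) {Z : ℕ} {C0 : ℕ → Finset ℕ}
    (hD : Dat F P A Z C0) (s : ℕ → ℝ) {x : ℕ → ℝ} (hx1 : ∀ n, |x n| ≤ 1)
    (hx : ∀ c ⊆ F.Lo, ∀ m, x (pv c * m) = x m) {Om η : ℝ} (hOm : 0 < Om) (h0 : 0 < η) (h1 : η ≤ 1)
    (hσ : 16 * (40 * F.k * P.Λ ^ 3 * Real.exp (2 * P.Lp)) ^ 2 * P.Λ * P.σin ≤ η ^ 2)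
    (hZ : 4 * Real.exp P.Lp * P.Λ ^ 3 ≤ η * Z)
    (u : Fin Z → Finset ℕ → ℕ → ℝ) (hu : Ms (gl Z F.Qk0 dt C0) u) (hu1 : ∀ n c b, |u n c b| ≤ 1) :
    (ex fun n : Fin Z => ∑ c ∈ CC7 F, F.w c *
        ∑ b ∈ cel F.N (pv c) n, (dx F Om dt Z C0 s x).F n b * u n c b) ≤
      Om * (ex fun n : Fin Z => ∑ c ∈ CC7 F, F.w c *
        |∑ b ∈ cel F.N (pv c) n, (dx F Om dt Z C0 s x).f ((n + b) / pv c) * u n c b|) +
        η * F.N := by
  have : Nonempty (Fin Z) := ⟨⟨0, hD.Z0⟩⟩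
  have L2 := h.L2
  have L0 : 0 < P.Λ := by linarith
  have N0 := h.N0
  have N1 : (1 : ℝ) ≤ F.N := by exact_mod_cast h.N0'
  have Z0 : (0 : ℝ) < Z := by exact_mod_cast hD.Z0
  have l0 : 0 ≤ P.Lp := by linarith [h.Lp1]
  have hle := glue_le_ker (fun n : Fin Z => (n : ℕ) % F.Qk0) (fun n b => dt (n + b)) C0
  set E : ℝ := 40 * F.k * P.Λ ^ 3 * Real.exp (2 * P.Lp) with hE
  have E1 : 1 ≤ E := one_le_mul_of_one_le_of_one_le (one_le_mul_of_one_le_of_one_le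
    (by linarith [h.k2']) (one_le_pow₀ (by linarith))) (Real.one_le_exp (by linarith))
  have eE : 4 * (5 * F.k * Real.exp P.Lp) * (2 * Real.exp P.Lp * P.Λ * P.Λ ^ 2) = E := by
    rw [hE, two_mul P.Lp, Real.exp_add]; ring
  have hCC : ∀ c ∈ CC7 F, c ⊆ F.Lo := fun c hc => (mem_CC7.1 hc).1
  have hW : ∑ c ∈ CC7 F, F.w c ≤ 2 * Real.exp P.Lp :=
    h.sum_w_le (by positivity) (fun c hc => mem_powerset.2 (hCC c hc)) fun c hc => by
      obtain ⟨-, p, hp, hw⟩ := mem_CC7.1 hc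
      exact h.pv_le_of_win (mem_union_left _ hp) hw
  have key := test2 (F.RR ∪ F.HH) h.prRH
    (Setoid.ker fun n : Fin Z => (n : ℕ) % F.Qk0) (gl Z F.Qk0 dt C0) (fun n => n)
    (fr_fin h.cop0 (h.pv_all0 ▸ hD.per) (r := fun n => n % F.Qk0) fun _ _ e => e)
    F.N (CC7 F) pv F.w (fun x b => F.wk (dp F.U (x + b))) (fun y b => x (y + b))
    (fun S => F.zj (S ∩ F.RR) * F.ze (S ∩ F.HH)) u (O1 := P.Λ) (O2 := P.Λ ^ 2)
    (Wt := 2 * Real.exp P.Lp) (μ := 5 * F.k * Real.exp P.Lp) (θ := η / (4 * E ^ 2))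
    (fun c _ => h.w_nonneg c) hW
    (fun x b => by rw [abs_of_nonneg (h.wk0 _)]; exact h.wkL _) (fun _ _ => hx1 _) hu1
    (fun S _ => mul_nonneg (h.zj_nonneg _) (h.ze0 _))
    (fun S _ => by
      rw [sq]
      exact mul_le_mul (h.zj_le _) (h.zeL _) (h.ze0 _) L0.le)
    (by rw [EM_eq, Em_mul_inter h.dRH, h.Em_zj, ← EG_eq, h.Eze, one_mul])
    (fun b _ x x' e => by
      have a1 := per_dp (T := F.U) (Q := F.Qk0) (pv_dvd subset_union_right) b x x' (hle e)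
      simp only at a1
      simp only [a1])
    (fun c hc x x' e => Nat.ModEq.of_dvd (pv_dvd ((hCC c hc).trans subset_union_left)) (hle e))
    hu (fun q hq => h.div_le_mu hq) (by positivity)
    (by
      rw [eE, div_mul_eq_mul_div, div_le_one (by positivity)]
      nlinarith)
  rw [eE] at key
  simp only [T2.z0_eq] at key
  have k1 : cH (gl Z F.Qk0 dt C0) (Setoid.ker fun n : Fin Z => (n : ℕ) % F.Qk0) /
      (η / (4 * E ^ 2)) ≤ η * F.N / 4 := by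
    have a1 := cH_glue (fun n : Fin Z => (n : ℕ) % F.Qk0) (fun n b => dt (n + b)) C0
    have a2 := hD.sz
    rw [size, div_le_iff₀ N0] at a2
    have σ0 := h.σin0
    have a3 := a1.trans (mul_le_mul a2 hD.alph (Real.log_natCast_nonneg _) (by positivity))
    rw [div_le_iff₀ (by positivity), ← mul_div_assoc, le_div_iff₀ (by positivity)]
    refine (mul_le_mul_of_nonneg_right a3 (by positivity)).trans ?_
    nlinarith [mul_le_mul_of_nonneg_right hσ N0.le]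
  have k2 : η / (4 * E ^ 2) * ((F.RR ∪ F.HH).card * E ^ 2) ≤ η * F.N / 4 := by
    calc _ ≤ η / (4 * E ^ 2) * (F.N * E ^ 2) := by
          have := h.card_RH
          gcongr
      _ = _ := by field_simp
  have k3 : ∀ n : Fin Z, ∑ c ∈ CC7 F, F.w c * ∑ b ∈ cel F.N (pv c) n,
      F.wk (dp F.U (n + b)) * (F.z0 (n + b) * x (n + b)) * u n c b ≤
      Om * ∑ c ∈ CC7 F, F.w c *
        |∑ b ∈ cel F.N (pv c) n, (dx F Om dt Z C0 s x).f ((n + b) / pv c) * u n c b| +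
        if (n : ℕ) = 0 then 2 * Real.exp P.Lp * P.Λ ^ 3 else 0 := fun n => by
    have a1 : ∑ c ∈ CC7 F, F.w c * (if (n : ℕ) = 0 then P.Λ ^ 3 else 0) ≤
        if (n : ℕ) = 0 then 2 * Real.exp P.Lp * P.Λ ^ 3 else 0 := by
      rw [← sum_mul]
      split_ifs
      · gcongr
      · rw [mul_zero]
    refine le_trans ?_ (add_le_add_right a1 _)
    rw [mul_sum, ← sum_add_distrib]
    refine sum_le_sum fun c hc => ?_
    rw [mul_left_comm, ← mul_add]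
    refine mul_le_mul_of_nonneg_left ?_ (h.w_nonneg c)
    have a2 : ∀ b ∈ cel F.N (pv c) n,
        F.wk (dp F.U (n + b)) * (F.z0 (n + b) * x (n + b)) * u n c b ≤
        Om * ((dx F Om dt Z C0 s x).f ((n + b) / pv c) * u n c b) +
          if b = 0 then (if (n : ℕ) = 0 then P.Λ ^ 3 else 0) else 0 := fun b hb => by
      obtain ⟨m, hm⟩ := (mem_filter.1 hb).2
      rw [hm, Nat.mul_div_cancel_left _ (h.pv_pos (hCC c hc))]
      simp only [dx]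
      by_cases m0 : m = 0
      · rw [m0, mul_zero] at hm
        rw [if_pos m0, if_pos (by omega), if_pos (by omega), zero_mul, mul_zero, zero_add]
        refine (le_abs_self _).trans ?_
        rw [abs_mul, abs_mul, abs_mul, abs_of_nonneg (h.wk0 _),
          abs_of_nonneg (h.z0_nonneg _), pow_succ' P.Λ 2]
        refine (mul_le_of_le_one_right (mul_nonneg (h.wk0 _)
          (mul_nonneg (h.z0_nonneg _) (abs_nonneg _))) (hu1 _ _ _)).trans ?_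
        exact mul_le_mul (h.wkL _) ((mul_le_of_le_one_right (h.z0_nonneg _) (hx1 _)).trans
          (h.z0_le _)) (mul_nonneg (h.z0_nonneg _) (abs_nonneg _)) L0.le
      · rw [if_neg m0, site h hOm (hCC c hc) (hx c (hCC c hc)) m]
        have : (0 : ℝ) ≤ if b = 0 then (if (n : ℕ) = 0 then P.Λ ^ 3 else 0) else 0 := by
          split_ifs <;> positivity
        linarith
    refine (sum_le_sum a2).trans ?_
    rw [sum_add_distrib, ← mul_sum, sum_ite_eq']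
    refine add_le_add ((le_abs_self _).trans (le_of_eq ?_)) ?_
    · rw [abs_mul, abs_of_pos hOm]
    · split_ifs <;> first | exact le_rfl | positivity
  have k4 := ex_mono k3
  rw [ex_add, ex_mul, T2.ex_zero_ind hD.Z0] at k4
  have k5 : 2 * Real.exp P.Lp * P.Λ ^ 3 / Z ≤ η * F.N / 2 := by
    rw [div_le_iff₀ Z0]
    nlinarith [mul_le_mul_of_nonneg_left N1 (mul_pos h0 Z0).le]
  have k6 := (abs_le.1 key).1
  simp only [dx, pred] at k4 ⊢
  linarith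

theorem fr7 (h : Hyp0 F P) (Om : ℝ) {A : Type} (dt : ℕ → A) (Z : ℕ) (C0 : ℕ → Finset ℕ)
    (s x : ℕ → ℝ) (X : ℕ → ℕ → ℝ) :
    Tfr F Z s (fun i => pred Z F.Qk0 dt C0 F.z0 (X i)) * (F.LL * F.N * F.Pw) ≤
      fre (dx F Om dt Z C0 s x) (gx F dt Z C0 X) (F.k - 1) := by
  classical
  have h1 := h.g7_LL
  have h2 := h.g7_N
  have h3 := h.Pw0
  have k1 : F.k - 1 + 1 = F.k := by have := h.k2; omega
  rw [Tfr, ← ex_mul']
  refine ex_mono fun n => ?_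
  change _ ≤ ∑ c ∈ CC7 F, F.w c * |∑ p ∈ F.P7 c, s (pv c * p) / p *
    ∑ a ∈ (cel F.N (pv c) n).filter (fun a => a + (F.k - 1) * (pv c * p) < F.N),
      ∏ i ∈ range (F.k - 1 + 1), (F.wk (dp F.U (n + (a + i * (pv c * p)))) *
        pred Z F.Qk0 dt C0 F.z0 (X i) n (a + i * (pv c * p)))|
  rw [k1, sum_comm, sum_mul, CC7, sum_filter]
  refine sum_le_sum fun c _ => ?_
  split_ifs with hc
  · refine le_trans (le_of_eq ?_) (mul_le_mul_of_nonneg_left (le_abs_self _) (h.g7_w c))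
    rw [sum_comm, Fam.P7, sum_filter, sum_mul, mul_sum]
    refine sum_congr rfl fun p _ => ?_
    split_ifs with hp
    · rw [cel, filter_filter, sum_filter, mul_sum, mul_sum, sum_mul]
      refine sum_congr rfl fun a _ => ?_
      simp only [hp, true_and]
      split_ifs
      · field_simp
      · simp
    · simp [hp]
  · rw [sum_eq_zero fun a _ => sum_eq_zero fun p hp => if_neg fun h => hc ⟨p, hp, h.2.1⟩, zero_mul]

/-- the field `fr` -/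
theorem g7_fr (h : Hyp0 F P) (Om : ℝ) {A : Type} (dt : ℕ → A) (Z : ℕ) (C0 : ℕ → Finset ℕ)
    (s x : ℕ → ℝ) (X : ℕ → ℕ → ℝ) {δ : ℝ} (hδ : 0 ≤ δ)
    (hT : δ ≤ Tfr F Z s fun i => pred Z F.Qk0 dt C0 F.z0 (X i)) :
    δ / (2 * P.Cw) * (2 / Real.log F.D) * F.N ≤
      fre (dx F Om dt Z C0 s x) (gx F dt Z C0 X) (F.k - 1) := by
  refine le_trans ?_ (fr7 h Om dt Z C0 s x X)
  have h1 := h.g7_LL
  have h2 := h.g7_N
  have h3 := h.Pw0
  have h4 := h.g7_log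
  have h5 := h.Cw1
  have h6 : 1 / (P.Cw * Real.log F.D) ≤ F.LL * F.Pw := by
    rw [div_le_iff₀ (by positivity)]; linarith [h.win3]
  calc _ = δ * (F.N * (1 / (P.Cw * Real.log F.D))) := by field_simp
    _ ≤ Tfr F Z s (fun i => pred Z F.Qk0 dt C0 F.z0 (X i)) * (F.N * (F.LL * F.Pw)) := by
        gcongr; linarith
    _ = _ := by ring

theorem gw (h : Hyp0 F P) {A : Type} (dt : ℕ → A) {Z : ℕ} (C0 : ℕ → Finset ℕ) {x : ℕ → ℝ}
    (hx1 : ∀ n, |x n| ≤ 1) {c : Finset ℕ} (hc : c ∈ CC7 F) (n : Fin Z) (b m : ℕ)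
    (e : n + b = pv c * m) :
    |F.wk (dp F.U (n + b)) * pred Z F.Qk0 dt C0 F.z0 x n b| ≤ F.wk (dp F.U m) := by
  have e1 : dp F.U (n + b) = dp F.U m := by
    rw [e]
    exact dp_mul h.prU (fun q hq => (Nat.Prime.coprime_iff_not_dvd (h.prU q hq)).1
      (h.cop_cp (CC7_sub hc) (F.U_sub hq)).symm) m
  have e2 : |pred Z F.Qk0 dt C0 F.z0 x n b| ≤ 1 :=
    abs_yr_le _ (fun x => h.z0_nonneg _) (fun x => hx1 _) n
  rw [abs_mul, e1, abs_of_nonneg (h.wk0 _)]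
  exact mul_le_of_le_one_right (h.wk0 _) e2

theorem hyp7 (h : Hyp0 F P) {A : Type} [Fintype A] (dt : ℕ → A) {Z : ℕ} {C0 : ℕ → Finset ℕ}
    (hD : Dat F P A Z C0) {s : ℕ → ℝ} (hs : ∀ d, |s d| ≤ 1) {x : ℕ → ℝ} (hx1 : ∀ n, |x n| ≤ 1)
    (hx : ∀ c ⊆ F.Lo, ∀ m, x (pv c * m) = x m) {Om η E : ℝ} (hOm : P.Λ ≤ Om)
    (h0 : 0 < η) (h1 : η ≤ 1) (hM : 0 < P.Ms)
    (hσ : 16 * (40 * F.k * P.Λ ^ 3 * Real.exp (2 * P.Lp)) ^ 2 * P.Λ * P.σin ≤ η ^ 2)
    (hZ : 4 * Real.exp P.Lp * P.Λ ^ 3 ≤ η * Z) (hE : E ≤ √F.D)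
    (hτ : P.Λ ^ 2 ^ F.k * tauI (2 ^ F.k) F.N P.Ms * E ≤ 1) :
    (dx F Om dt Z C0 s x).Hyp (F.k - 1) (8 * F.k) 0 Om (EG F.U F.wk)
      (P.Λ ^ 2 ^ F.k * tauI (2 ^ F.k) F.N P.Ms) (2 / Real.log F.D) η E := by
  have L := h.L2
  have hk : F.k - 1 + 1 = F.k := by have := h.k2; omega
  exact {
    Z0 := hD.Z0
    om := by linarith
    wb0 := by rw [EG_eq]; exact Em_nonneg fun A _ => h.wk0 A
    wb1 := by
      refine le_trans ?_ h.Evk
      rw [EG_eq, EG_eq]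
      exact Em_mono fun A _ => h.wkv A
    pos := fun c hc => ⟨h.w_nonneg c, (geo7 h hc).1⟩
    mass := mass7 h
    len := fun c hc => Hyp0.g7_len h hc
    lg := fun c hc => Hyp0.g7_lg h hc
    l0 := div_pos two_pos (Hyp0.g7_log h)
    big := fun c hc => hE.trans (Hyp0.g7_sqrt h hc)
    tau := hτ
    sub := fun c hc => Hyp0.g7_sub h hc
    th1 := fun c _ p => hs _
    w0 := fun m => h.wk0 _
    w1 := fun m => (h.wkL _).trans hOm
    Fw := fun c hc n b m _ e => gw h dt C0 hx1 hc n b m e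
    msF := fun b _ => (ms_gl_per dt C0 (per_dp (pv_dvd subset_union_right) b)).comp₂
      (ms_yr _ _ _) fun S t => F.wk S * t
    msc := fun c hc x y e => (Nat.ModEq.of_dvd
      (pv_dvd ((CC7_sub hc).trans subset_union_left)) (gl_mod e) :)
    ind := fun c hc S hS hn => ind7 h hM hD.Z0 hD.per hc _ hS (hk ▸ hn)
    t2 := fun u hu hu1 => t27 h dt hD s hx1 hx (by linarith) h0 h1 hσ hZ u hu hu1
    fr := by
      rw [zero_mul, zero_mul]
      exact ex_nonneg fun n => sum_nonneg fun c _ => mul_nonneg (h.w_nonneg c) (abs_nonneg _) }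

theorem big (B : ℕ) {η : ℝ} (hη : 0 < η) : ∃ N1 : ℕ, ∀ N : ℕ, N1 ≤ N → (B : ℝ) ≤ (N : ℝ) ^ η :=
  Filter.eventually_atTop.1
    (((tendsto_rpow_atTop hη).comp tendsto_natCast_atTop_atTop).eventually_ge_atTop (B : ℝ))

end S7M

open S7M in
theorem sec7M (hN : S_No7) : S_SEC7 := by
  intro k
  refine ⟨0, fun δ Cw hδ => ?_⟩
  rcases le_or_gt Cw 0 with hCw | hCw
  · exact ⟨0, fun F P _ e h _ => absurd h.Cw1 (by rw [e]; linarith)⟩
  obtain ⟨η, C, η0, η1, hno⟩ := hN (k - 1) (8 * k) (δ / (2 * Cw)) (by positivity)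
  obtain ⟨n, hn⟩ : ∃ n : ℕ, 1 / η ^ 2 ≤ n := ⟨_, Nat.le_ceil _⟩
  obtain ⟨Q, q1, q2, q3, q4⟩ : ∃ Q : ℕ, (C + 3) * C ≤ Q ∧ (C + 3) * 2 ≤ Q ∧
      2 ^ k + (3 * k + 1) ≤ Q ∧ 24 + n ≤ Q := by
    generalize (C + 3) * C = x, 2 ^ k = y
    exact ⟨x + (C + 3) * 2 + (y + (3 * k + 1)) + (24 + n), by omega⟩
  refine ⟨Q + 1, fun F P hk hc hh h7 η' LL hη' => ?_⟩
  subst hk hc
  have h := hh.toHyp0
  have L := h.L2
  have L1 : (1 : ℝ) ≤ P.Λ := by linarith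
  have L0 : (0 : ℝ) < P.Λ := by linarith
  have pw : ∀ {a b : ℕ}, a ≤ b → P.Λ ^ a ≤ P.Λ ^ b := fun e => pow_le_pow_right₀ L1 e
  have two : ∀ a : ℕ, (2 : ℝ) ^ a ≤ P.Λ ^ a := fun a => pow_le_pow_left₀ (by norm_num) L a
  have nat : ∀ a : ℕ, (a : ℝ) ≤ P.Λ ^ a := fun a =>
    le_trans (by exact_mod_cast (Nat.lt_two_pow_self (n := a)).le) (two a)
  have Q0 := pow_pos L0 Q
  have Q2 : 2 * P.Λ ^ Q ≤ P.Λ ^ (Q + 1) := by rw [pow_succ]; nlinarith
  have o1 : (P.Λ ^ (C + 3)) ^ C ≤ P.Λ ^ Q := by rw [← pow_mul]; exact pw q1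
  have o2 : (P.Λ ^ (C + 3)) ^ 2 ≤ P.Λ ^ Q := by rw [← pow_mul]; exact pw q2
  have o3 : P.Λ ^ 3 ≤ P.Λ ^ (C + 3) := pw (by omega)
  have o4 : P.Λ ≤ P.Λ ^ (C + 3) := le_self_pow₀ L1 (by omega)
  have o5 : (C : ℝ) ≤ P.Λ ^ (C + 3) := (nat C).trans (pw (by omega))
  generalize P.Λ ^ (C + 3) = Om at o1 o2 o3 o4 o5
  have O0 : 0 < Om := by linarith
  have p1 := h.Lp1
  have x0 := Real.exp_pos P.Lp
  have x1 : 1 ≤ Real.exp P.Lp := Real.one_le_exp (by linarith)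
  have m1 := h7.Mlo
  have Q1 : 1 ≤ P.Λ ^ Q := one_le_pow₀ L1
  have hM : 1 ≤ P.M := by linarith
  have xe : ∀ t : ℝ, t ≤ Real.exp t := fun t => by linarith [Real.add_one_le_exp t]
  obtain ⟨Z0, hno⟩ := hno Om (2 * Real.exp P.Lp) P.M η' (F.N + F.TT.sup id + LL) o5 (by linarith) hM
    (by linarith [h7.Mlog]) (by
      refine le_trans ?_ (Real.exp_le_exp.2 m1)
      rw [Real.exp_add]
      have := xe (P.Λ ^ (Q + 1))
      nlinarith) hη'
  obtain ⟨N1, hN1⟩ := big (F.Lo.sup id) hη'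
  refine ⟨Z0 + ⌈4 * Real.exp P.Lp * P.Λ ^ 3 / η⌉₊ + N1,
    fun A _ dt Z C0 s X i0 N hN0 hNZ hZL hD hs hX hi hx => ?_⟩
  have hxc : ∀ c ⊆ F.Lo, ∀ m, X i0 (pv c * m) = X i0 m := fun c hc m =>
    hx.pv_mul (fun q hq => ⟨h.pr q (mem_union_left _ (hc hq)), le_trans
      (by exact_mod_cast le_sup (f := id) (hc hq)) (hN1 N (by omega))⟩) m
  by_contra hT
  have lN : 0 ≤ Real.log F.N := Real.log_natCast_nonneg _
  have xQ := Real.exp_pos (P.Λ ^ (Q + 1))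
  have hMs : 0 < P.Ms := lt_of_lt_of_le (by positivity) h7.ind
  have hD1 : Real.exp (P.M + P.Lp) ≤ F.D :=
    le_trans (le_mul_of_one_le_right (Real.exp_pos _).le (by linarith)) h7.MD
  refine hno _ Z (dx F Om dt Z C0 s (X i0)) (gx F dt Z C0 X) i0 N _ _ _ P.a F.TT (W7 F Om) (X i0)
    (by omega) hNZ (hZL.trans (Nat.mul_le_mul_right _ (Nat.le_add_left _ _)))
    ((Nat.le_add_right _ _).trans (Nat.le_add_right _ _))
    (hyp7 h dt hD hs (hX i0) hxc o4 η0 η1 hMs ?_ ?_ ?_ ?_)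
    ⟨by omega, rfl, fun i c hc n b m _ e => gw h dt C0 (hX i) hc n b m e,
      g7_fr h Om dt Z C0 s (X i0) X hδ.le (not_le.1 hT).le⟩ ?_ (W7_le h o3) hx ?_
    (fun c hc => (geo7 h hc).2.1) (fun u => (ball7 h u).trans ?_) h7.aM ?_
  · have s0 := h.σin0
    have a1 : Real.exp (2 * P.Lp) ^ 2 ≤ Real.exp ((Q + 1 : ℕ) * P.Lp) := by
      rw [← Real.exp_nat_mul]
      refine Real.exp_le_exp.2 ?_
      have : (4 : ℝ) ≤ (Q + 1 : ℕ) := by exact_mod_cast (by omega : 4 ≤ Q + 1)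
      push_cast at this ⊢
      nlinarith
    have a2 : (25600 : ℝ) ≤ P.Λ ^ 15 := le_trans (by norm_num) (two 15)
    have a3 : 1 ≤ η ^ 2 * P.Λ ^ n := by
      have := (div_le_iff₀ (by positivity)).1 (hn.trans (nat n))
      linarith
    have a4 := h.Lk
    have a5 : (0 : ℝ) ≤ F.k := Nat.cast_nonneg _
    calc _ = 25600 * (F.k : ℝ) ^ 2 * P.Λ ^ 7 * Real.exp (2 * P.Lp) ^ 2 * P.σin * 1 := by ring
      _ ≤ P.Λ ^ 15 * P.Λ ^ 2 * P.Λ ^ 7 * Real.exp ((Q + 1 : ℕ) * P.Lp) * P.σin *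
          (η ^ 2 * P.Λ ^ n) := by
          refine mul_le_mul ?_ a3 zero_le_one (by positivity)
          gcongr
      _ = η ^ 2 * (P.Λ ^ (24 + n) * Real.exp ((Q + 1 : ℕ) * P.Lp) * P.σin) := by ring
      _ ≤ η ^ 2 * (P.Λ ^ (Q + 1) * Real.exp ((Q + 1 : ℕ) * P.Lp) * P.σin) := by
          have := pw (show 24 + n ≤ Q + 1 by omega)
          generalize P.Λ ^ (24 + n) = x at this
          gcongr
      _ ≤ η ^ 2 := mul_le_of_le_one_right (by positivity) h7.test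
  · have a1 : (⌈4 * Real.exp P.Lp * P.Λ ^ 3 / η⌉₊ : ℝ) ≤ Z := by
      exact_mod_cast (by omega : ⌈4 * Real.exp P.Lp * P.Λ ^ 3 / η⌉₊ ≤ Z)
    have := (div_le_iff₀ η0).1 ((Nat.le_ceil _).trans a1)
    linarith
  · refine Real.le_sqrt_of_sq_le (le_trans ?_ hD1)
    rw [← Real.exp_nat_mul]
    refine Real.exp_le_exp.2 ?_
    push_cast
    linarith
  · have a1 : tauI (2 ^ F.k) F.N P.Ms * Real.exp (P.Λ ^ (Q + 1)) ≤ P.Λ ^ (3 * F.k + 1) := by
      rw [tauI, div_mul_eq_mul_div, div_le_iff₀ hMs]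
      have b1 : 2 * ((2 ^ F.k : ℕ) : ℝ) ^ 3 ≤ P.Λ ^ (3 * F.k + 1) := by
        refine le_trans (le_of_eq ?_) (two _)
        push_cast
        ring
      calc _ = 2 * ((2 ^ F.k : ℕ) : ℝ) ^ 3 *
            (Real.exp (P.Λ ^ (Q + 1)) * (1 + Real.log F.N)) := by ring
        _ ≤ _ := by gcongr; exact h7.ind
    have a2 : P.Λ ^ 2 ^ F.k * P.Λ ^ (3 * F.k + 1) ≤ Real.exp (P.Λ ^ Q) := by
      rw [← pow_add]; exact (pw q3).trans (xe _)
    have a3 : Real.exp (P.Λ ^ Q) * Real.exp (Om ^ C) ≤ Real.exp (P.Λ ^ (Q + 1)) := by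
      rw [← Real.exp_add]; exact Real.exp_le_exp.2 (by linarith)
    refine le_of_mul_le_mul_right ?_ xQ
    calc _ = P.Λ ^ 2 ^ F.k * (tauI (2 ^ F.k) F.N P.Ms * Real.exp (P.Λ ^ (Q + 1))) *
          Real.exp (Om ^ C) := by ring
      _ ≤ P.Λ ^ 2 ^ F.k * P.Λ ^ (3 * F.k + 1) * Real.exp (Om ^ C) := by gcongr
      _ ≤ Real.exp (P.Λ ^ Q) * Real.exp (Om ^ C) := by gcongr
      _ ≤ _ := by linarith
  · intro q hq
    obtain ⟨b1, b2⟩ := h7.Ta q hq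
    have b3 : 0 ≤ P.a := by
      by_contra b
      nlinarith [Real.log_natCast_nonneg q, mul_pos (neg_pos.2 (not_le.1 b)) L0]
    exact ⟨h.prT q hq, ((le_sup (f := id) hq).trans (Nat.le_add_left _ _)).trans
      (Nat.le_add_right _ _), b1,
      b2.trans (by gcongr)⟩
  · intro m
    change ((if m = 0 then 0 else W7 F Om (dp F.TT m) * X i0 m : ℝ) : ℂ) = _
    rw [wx]
    split_ifs
    · simp
    · rfl
  · have l1 := h.l1 F.m
    have c1 := h.Csb1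
    rw [div_le_div_iff₀ (by linarith) (by linarith)]
    calc P.Csb * P.M ≤ P.Λ * (P.Λ * P.l F.m) := by
          gcongr
          exacts [h.LCsb, h7.Mhi]
      _ = P.Λ ^ 2 * P.l F.m := by ring
      _ ≤ _ := by gcongr; exact (pw (by norm_num)).trans o3
  · have a1 := h7.MD
    have a2 := h.N4
    have a3 := h.D20
    rw [Real.exp_add] at a1
    have a4 := mul_pos (Real.exp_pos P.M) x0
    change _ ≤ (F.N : ℝ)
    nlinarith

end Pool.Agent.P.MP_4ef411_nt.Al
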