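import Pool.Agent.P.MP_4ef411_nt.Al.St
import Pool.Agent.P.MP_4ef411_nt.Sm.Sys

/-! Smooth values of split polynomials at every scale. -/

open Finset Filter Polynomial

namespace Pool.Agent.P.MP_4ef411_nt.Al.SmP

open Pool.Agent.P.MP_a14ce1_nt.V (av)
open Pool.Agent.P.MP_4ef411_nt.Sm

theorem indA (h : S_GA) {k : ℕ} {a b : Fin k → ℕ} {η δ : ℝ} (ha : ∀ i, 0 < a i)
    (hab : ∀ i j, i ≠ j → a i * b j ≠ a j * b i) (hη : 0 < η) (hδ : 0 < δ) :
    ∀ᶠ N : ℕ in atTop, ∀ y : Fin k → ℝ, (∀ i, (N : ℝ) ^ η ≤ y i) →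
      |(cnt a b y N : ℝ) / N - ∏ i, (psi N (y i) : ℝ) / N| ≤ δ := by
  classical
  obtain ⟨M, hM⟩ := exists_nat_gt (2 / η)
  have hM0 : (0 : ℝ) < M := lt_trans (by positivity) hM
  have hM1 : M ≠ 0 := by exact_mod_cast hM0.ne'
  have hζ := Complex.isPrimitiveRoot_exp M hM1
  have hn := hζ.norm'_eq_one hM1
  generalize Complex.exp (2 * Real.pi * Complex.I / M) = ζ at hζ hn
  have hK : (0 : ℝ) < M ^ k := by positivity
  filter_upwards [h k a b η (δ / M ^ k) ((range M).image (ζ ^ ·)) ha hab hη (by positivity),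
    eventually_ge_atTop 2, eventually_ge_atTop (∑ i, (a i + b i))] with X hX hX2 hXs y hy
  have hX1 : (1 : ℝ) < X := by exact_mod_cast hX2
  have hy1 : ∀ i, 1 ≤ y i := fun i => le_trans (Real.one_le_rpow hX1.le hη.le) (hy i)
  have hZ : ∀ i, (X : ℝ) ^ 2 < y i ^ M := fun i => by
    refine lt_of_lt_of_le ?_ (pow_le_pow_left₀ (by positivity) (hy i) M)
    rw [← Real.rpow_natCast, ← Real.rpow_natCast, ← Real.rpow_mul (by linarith)]
    refine Real.rpow_lt_rpow_of_exponent_lt hX1 ?_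
    rw [div_lt_iff₀' hη] at hM
    exact_mod_cast hM
  have h1 : ∀ s : Fin k → Fin M,
      ‖av (fun n => ∏ i, ch (ζ ^ (s i).1) (y i) (X ^ 2) (a i * n + b i)) X -
        ∏ i, av (ch (ζ ^ (s i).1) (y i) (X ^ 2)) X‖ ≤ δ / M ^ k := fun s =>
    hX (fun i => ch (ζ ^ (s i).1) (y i) (X ^ 2)) fun i =>
      ⟨ucm_ch (by rw [norm_pow, hn, one_pow]) _ _, (tr_ch _ _ _).mono (hy i), fun n => by
        rw [ch, ← pow_mul, ← pow_mod_orderOf, ← hζ.eq_orderOf]
        exact mem_image_of_mem _ (mem_range.2 (Nat.mod_lt _ (Nat.pos_of_ne_zero hM1)))⟩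
  have h2 := sum_le_sum fun s (_ : s ∈ (univ : Finset (Fin k → Fin M))) => h1 s
  rw [sum_const, card_univ, Fintype.card_fun, Fintype.card_fin, Fintype.card_fin,
    nsmul_eq_mul] at h2
  have e : ((M ^ k : ℕ) : ℝ) * (δ / M ^ k) = δ := by
    push_cast
    field_simp
  rw [e] at h2
  refine (key hζ ha hy1 hZ ?_ fun i => ?_).trans h2
  · nlinarith
  · have h3 : a i + b i ≤ X := le_trans
      (single_le_sum (f := fun i => a i + b i) (fun _ _ => Nat.zero_le _) (mem_univ i)) hXs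
    have : a i * X + b i ≤ X ^ 2 := by nlinarith
    exact_mod_cast this

theorem one {r : ℝ → ℝ} (hr : Dk r) {η δ : ℝ} (hη : 0 < η) (hδ : 0 < δ) :
    ∀ᶠ N : ℕ in atTop, ∀ y : ℝ, (N : ℝ) ^ η ≤ y →
      |(psi N y : ℝ) / N - r (Real.log N / Real.log y)| ≤ δ := by
  obtain ⟨K, hK⟩ := exists_nat_ge (1 / η)
  obtain ⟨C, hC, hD⟩ := dickman hr K
  have ht := (tendsto_rpow_atTop hη).comp tendsto_natCast_atTop_atTop
  filter_upwards [ht.eventually_ge_atTop 2, ht.eventually_ge_atTop (Real.exp (2 * C / δ)),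
    tendsto_natCast_atTop_atTop.eventually_ge_atTop (2 / δ), eventually_ge_atTop 1]
    with N h2 h3 h4 h1 y hy
  have N1 : (1 : ℝ) ≤ N := by exact_mod_cast h1
  have N0 : (0 : ℝ) < N := by linarith
  have y2 : 2 ≤ y := le_trans h2 hy
  have l0 : 0 < Real.log y := Real.log_pos (by linarith)
  have l1 : 2 * C / δ ≤ Real.log y := (Real.le_log_iff_exp_le (by linarith)).2 (le_trans h3 hy)
  have a1 := hD N y y2 N1 (by
    refine le_trans ?_ (pow_le_pow_left₀ (by positivity) hy K)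
    rw [← Real.rpow_natCast, ← Real.rpow_mul N0.le]
    refine Real.self_le_rpow_of_one_le N1 ?_
    rwa [div_le_iff₀' hη] at hK)
  rw [Nat.floor_natCast] at a1
  have e : (psi N y : ℝ) / N - r (Real.log N / Real.log y) =
      ((psi N y : ℝ) - N * r (Real.log N / Real.log y)) / N := by field_simp
  rw [e, abs_div, abs_of_pos N0, div_le_iff₀ N0]
  refine a1.trans ?_
  have a2 : C * N / Real.log y ≤ δ / 2 * N := by
    rw [div_le_iff₀ l0]
    rw [div_le_iff₀ hδ] at l1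
    nlinarith
  rw [div_le_iff₀ hδ] at h4
  linarith

theorem law (h : S_GA) {r : ℝ → ℝ} (hr : Dk r) {k : ℕ} {a b : Fin k → ℕ} {η ε : ℝ}
    (ha : ∀ i, 0 < a i) (hab : ∀ i j, i ≠ j → a i * b j ≠ a j * b i) (hη : 0 < η) (hε : 0 < ε) :
    ∀ᶠ N : ℕ in atTop, ∀ y : Fin k → ℝ, (∀ i, (N : ℝ) ^ η ≤ y i) →
      |(cnt a b y N : ℝ) / N - ∏ i, r (Real.log N / Real.log (y i))| ≤ ε := by
  classical
  filter_upwards [indA h ha hab hη (half_pos hε),
    one hr hη (show 0 < ε / (2 * (k + 1)) by positivity)] with N h1 h2 y hy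
  have a1 := prod_sub univ (x := fun i => (psi N (y i) : ℝ) / N)
    (y := fun i => r (Real.log N / Real.log (y i))) (fun i => prop_mem (filter_subset _ _))
    fun i => ⟨(hr.pos _).le, hr.le_one _⟩
  have a2 := sum_le_card_nsmul univ _ _ fun i _ => h2 (y i) (hy i)
  rw [card_univ, Fintype.card_fin, nsmul_eq_mul] at a2
  have a3 : k * (ε / (2 * (k + 1))) ≤ ε / 2 := by
    rw [← mul_div_assoc, div_le_div_iff₀ (by positivity) two_pos]
    nlinarith
  linarith [abs_sub_le ((cnt a b y N : ℝ) / N) (∏ i, (psi N (y i) : ℝ) / N)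
    (∏ i, r (Real.log N / Real.log (y i))), h1 y hy]

theorem PsiS_ceil {r : ℕ} (P : Fin r → ℤ[X]) {x : ℝ} (y : Fin r → ℝ) :
    PsiS P x y = PsiS P (⌈x⌉₊ : ℕ) y := by
  unfold PsiS
  congr 1
  ext m
  refine and_congr_left fun _ => exists_congr fun n => and_congr_right fun h1 =>
    and_congr_left fun _ => ?_
  obtain ⟨n, rfl⟩ := Int.eq_ofNat_of_zero_le (show 0 ≤ n by omega)
  rw [Int.cast_natCast, Nat.cast_lt, Nat.lt_ceil]

theorem sys (h : S_GA) {ρ : ℝ → ℝ} (hρ : Dickman ρ) {r : ℕ} (hr : 0 < r) {P : Fin r → ℤ[X]}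
    (hP : ∀ i, 0 < (P i).natDegree) (hs : ∀ i, ((P i).map (Int.castRingHom ℚ)).Splits)
    (hd : ∀ i j, i ≠ j → ∀ q ∈ ((P i).map (Int.castRingHom ℚ)).roots,
      q ∉ ((P j).map (Int.castRingHom ℚ)).roots) {η ε : ℝ} (hη : 0 < η) (hε : 0 < ε) :
    ∀ᶠ x : ℝ in atTop, ∀ y : Fin r → ℝ, (∀ i, x ^ η ≤ y i) →
      |(PsiS P x y : ℝ) / x - ∏ i, ρ (Real.log x / Real.log (y i)) ^
        ((P i).map (Int.castRingHom ℚ)).roots.toFinset.card| ≤ ε := by
  classical
  obtain ⟨k, a, b, ix, K, y0, ha, hab, hg, hK⟩ := formsS hr hP hs hd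
  have hD := hρ.dk
  have ht := tendsto_rpow_atTop hη
  filter_upwards [tendsto_nat_ceil_atTop.eventually (law h hD ha hab (half_pos hη) (half_pos hε)),
    ht.eventually_ge_atTop (y0 : ℝ), ht.eventually_ge_atTop (Real.exp 1), eventually_ge_atTop 2,
    eventually_ge_atTop (2 * (K + 1 + k) / ε)] with x h1 h2 h3 x2 h4 y hy
  have x0 : 0 < x := by linarith
  have n1 := Nat.le_ceil x
  have n2 := (Nat.ceil_lt_add_one x0.le).le
  rw [PsiS_ceil, ← hg fun i => ρ (Real.log x / Real.log (y i))]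
  generalize ⌈x⌉₊ = N at h1 n1 n2
  have N0 : (0 : ℝ) < N := by linarith
  have l1 : ∀ i, 1 ≤ Real.log (y i) := fun i =>
    (Real.le_log_iff_exp_le ((Real.exp_pos 1).trans_le (h3.trans (hy i)))).2 (h3.trans (hy i))
  have a1 := h1 (fun j => y (ix j)) fun j => le_trans (by
    calc (N : ℝ) ^ (η / 2) ≤ (x ^ (2 : ℝ)) ^ (η / 2) := by
          gcongr
          rw [Real.rpow_two]
          nlinarith
      _ = _ := by
          rw [← Real.rpow_mul x0.le]
          congr 1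
          ring) (hy _)
  obtain ⟨a2, a3⟩ := hK N y fun i => h2.trans (hy i)
  have a2' := (Nat.cast_le (α := ℝ)).2 a2
  have a3' := (Nat.cast_le (α := ℝ)).2 a3
  rw [Nat.cast_add] at a2' a3'
  have a4 : (cnt a b (fun j => y (ix j)) N : ℝ) ≤ N := by
    exact_mod_cast (card_filter_le _ _).trans (by simp)
  have a5 : |(PsiS P N y : ℝ) / x - (cnt a b (fun j => y (ix j)) N : ℝ) / N| ≤ (K + 1) / x := by
    have c0 : (0 : ℝ) ≤ (cnt a b (fun j => y (ix j)) N : ℝ) := Nat.cast_nonneg _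
    generalize (cnt a b (fun j => y (ix j)) N : ℝ) = c, (PsiS P N y : ℝ) = p at a2' a3' a4 c0
    have b1 : c / N ≤ c / x := by gcongr
    have b2 : (c - 1) / x ≤ c / N := by
      rw [div_le_div_iff₀ x0 N0]
      nlinarith
    have b3 : p / x ≤ (c + K) / x := by gcongr
    have b4 : c / x ≤ (p + K) / x := by gcongr
    have b5 : 0 < 1 / x := by positivity
    rw [add_div] at b3 b4 ⊢
    rw [sub_div] at b2
    rw [abs_le]
    constructor <;> linarith
  have a6 := prod_sub univ (x := fun j => ρ (max (Real.log N / Real.log (y (ix j))) 0))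
    (y := fun j => ρ (max (Real.log x / Real.log (y (ix j))) 0))
    (fun j => ⟨(hD.pos _).le, hD.le_one _⟩) fun j => ⟨(hD.pos _).le, hD.le_one _⟩
  have a7 : ∀ j, |ρ (max (Real.log N / Real.log (y (ix j))) 0) -
      ρ (max (Real.log x / Real.log (y (ix j))) 0)| ≤ 1 / x := fun j => by
    refine (hD.lip _ _).trans ?_
    have b1 := Real.log_le_log x0 n1
    have b2 := Real.log_le_sub_one_of_pos (div_pos N0 x0)
    rw [Real.log_div N0.ne' x0.ne', div_sub_one x0.ne'] at b2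
    rw [← sub_div, abs_of_nonneg (div_nonneg (by linarith) (by linarith [l1 (ix j)]))]
    refine (div_le_self (by linarith) (l1 _)).trans (b2.trans ?_)
    gcongr
    linarith
  have a8 := sum_le_card_nsmul univ _ _ fun j _ => a7 j
  rw [card_univ, Fintype.card_fin, nsmul_eq_mul] at a8
  have a9 : ∏ j, ρ (max (Real.log x / Real.log (y (ix j))) 0) =
      ∏ j, ρ (Real.log x / Real.log (y (ix j))) := prod_congr rfl fun j _ => by
    rw [max_eq_left (div_nonneg (Real.log_nonneg (by linarith)) (by linarith [l1 (ix j)]))]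
  rw [a9] at a6
  have a10 : (K + 1) / x + k * (1 / x) ≤ ε / 2 := by
    rw [mul_one_div, ← add_div, div_le_iff₀ x0]
    rw [div_le_iff₀ hε] at h4
    linarith
  rw [abs_le] at a1 a5 ⊢
  have a11 := abs_le.1 (a6.trans a8)
  constructor <;> linarith [a1.1, a1.2, a5.1, a5.2, a11.1, a11.2]

end Pool.Agent.P.MP_4ef411_nt.Al.SmP
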