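import Pool.Agent.P.MP_a14ce1_nt.Fu.St
import Pool.Agent.P.MP_a14ce1_nt.Fu.S7St
import Pool.Agent.P.MP_746f10_nt.LP.St

/-!
Correlations at every scale of functions that do not see the primes up to a power of the scale:
definitions and the statements of the blocks. Each block is the block of the same name in the
directory MP_a14ce1_nt/Fu with one function for each site.
-/

open Finset Filter

namespace Pool.Agent.P.MP_4ef411_nt.Al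

open Pool.Agent.P.MP_a14ce1_nt
open Pool.Agent.P.MP_a14ce1_nt.Fu
open Pool.Agent.P.MP_a14ce1_nt.Fu.St
open Pool.Agent.P.MP_a14ce1_nt.Ch (pv)
open Pool.Agent.P.MP_a14ce1_nt.V (av)
open Pool.Agent.P.MP_746f10_nt.LP (Tr)
open Pool.Agent.P.MP_e30989_nt.W (UCM)

/-- x is a real part of a completely multiplicative function that is one on the primes up to
N ^ η, centred at its mean on [1, N] -/
def Cen (η : ℝ) (N : ℕ) (x : ℕ → ℝ) : Prop := ∃ (g : ℕ → ℂ) (ω : ℂ), UCM g ∧ Tr ((N : ℝ) ^ η) g ∧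
  ‖ω‖ ≤ 1 / 2 ∧ ∀ n, n ≠ 0 → x n = (ω * (g n - av g N)).re

/-- f does not see the primes whose logarithm is at most B and outside [a, a U] -/
def Nv (f : ℕ → ℂ) (a U B : ℝ) : Prop :=
  ∀ p : ℕ, p.Prime → Real.log p ≤ B → (Real.log p < a ∨ a * U < Real.log p) → ∀ n, f (p * n) = f n

/-- x times a function of the members of T dividing the argument -/
noncomputable def wx (T : Finset ℕ) (W : Finset ℕ → ℝ) (x : ℕ → ℝ) (n : ℕ) : ℂ :=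
  if n = 0 then 0 else ((W (T.filter fun p => p ∣ n) * x n : ℝ) : ℂ)

/-- the form with the prime p freed, one function for each site -/
noncomputable def Tfr (F : Fam) (Z : ℕ) (s : ℕ → ℝ) (y : ℕ → Fin Z → ℕ → ℝ) : ℝ :=
  ex fun n : Fin Z => ∑ a ∈ range F.N, ∑ c ∈ F.Lo.powerset, ∑ p ∈ F.RR,
    if pv c ∣ n + a ∧ F.win (pv c * p) ∧ a + (F.k - 1) * (pv c * p) < F.N then
      F.w c / (p * F.LL * F.N * F.Pw) * s (pv c * p) *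
        ∏ i ∈ range F.k, (F.wk (dp F.U (n + (a + i * (pv c * p)))) * y i n (a + i * (pv c * p)))
    else 0

/-- v before the role i0, u - v at it, u after it -/
def mx {Z : ℕ} (u v : ℕ → Fin Z → ℕ → ℝ) (i0 i : ℕ) (n : Fin Z) (b : ℕ) : ℝ :=
  if i < i0 then v i n b else if i = i0 then u i n b - v i n b else u i n b

/-! ### Sections 1 to 6 -/

/-- section 1, with room for an alphabet that is M times larger -/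
def S_PAR : Prop := ∀ (k C M : ℕ) (ε η : ℝ), 2 ≤ k → 0 < ε → k * ε ≤ 1 / 2 → 0 < η → η ≤ 1 / 2 →
  M * η ≤ 1 → ∃ Cw : ℝ, ∀ C2 : ℕ, ∃ (K : ℕ) (Λ : ℝ) (T : ℕ → Finset ℕ), 0 < K ∧
    Λ ^ (C * k) ≤ η * Real.sqrt K ∧ (∀ i, ∀ q ∈ T i, q.Prime) ∧
    (∀ i j, i ≠ j → Disjoint (T i) (T j)) ∧
    ∀ i < K, ∃ (S : ℕ) (F : ℕ → Fam) (P : ℕ → Par), Chain k C C2 S ε η Cw Λ (T i) F P ∧
      ∃ (A : Type) (_ : Fintype A) (dz : ℕ → A), Real.log (M * Fintype.card A) ≤ Λ ∧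
        ∀ j < S, ∀ n n', dz n = dz n' → (F j).z n = (F j).z n'

/-- section 2 -/
def S_BIAS : Prop := ∀ k : ℕ, ∃ C : ℕ, ∀ (F : Fam) (P : Par), F.k = k → Hyp F P C →
  ∀ δ τ : ℝ, 0 < δ → C * F.ε ≤ δ → C * P.η ≤ δ → P.Λ ^ (C * k) * τ ≤ P.η →
  ∀ E R : ℕ, ∃ X0 : ℕ, ∀ (X Y Z : ℕ) (cr : ℕ → ℝ) (s : Fin R → ℕ → ℝ) (x : Fin R → ℕ → ℕ → ℝ),
    X0 ≤ X → Y ≤ X → X ≤ Y + E → (Z : ℝ) ≤ F.D * X → F.D * X ≤ Z + E → pv F.all ∣ Z →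
    pv F.TT ∣ Y → (∀ n, |cr n| ≤ 1) → (∀ j d, |s j d| ≤ 1) → (∀ j i n, |x j i n| ≤ 1) →
    (∀ c ⊆ F.Lo, ∀ p ∈ F.RR, ∀ m, 0 < m →
      ∑ j, s j (pv c * p) * ∏ i ∈ range k, x j i (pv c * p * (m + i)) = cr m) →
    δ * X ≤ ∑ n ∈ Icc 1 X, cr n →
    (∀ W : ℕ → ℝ, (∀ n, W (n + pv F.TT) = W n) → (∀ n, |W n| ≤ 1) →
      |(∑ n ∈ range Y, cr n * W n) / Y
        - (∑ n ∈ range Y, cr n) / Y * ((∑ n ∈ range Y, W n) / Y)| ≤ τ) →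
    δ / 4 ≤ ∑ j, F.Tf Z (s j) fun i n b => x j i (n + b)

/-- section 3 -/
def S_COMP : Prop := ∀ k : ℕ, ∃ C : ℕ, ∀ (F : Fam) (P : Par), F.k = k → Hyp F P C →
  ∀ (A : Type) [Fintype A] (dt : ℕ → A) (Z : ℕ) (C0 : ℕ → Finset ℕ) (X : ℕ → ℕ → ℝ) (s : ℕ → ℝ),
    Dat F P A Z C0 → (∀ n n', dt n = dt n' → (∀ i, X i n = X i n') ∧ F.z n = F.z n') →
    (∀ i n, |X i n| ≤ 1) → (∀ d, |s d| ≤ 1) →
    ∃ C1 : ℕ → Finset ℕ, (∀ x, C1 x ⊆ range F.N) ∧ (∀ n, C0 (n % F.Qk0) ⊆ C1 (n % F.Qk)) ∧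
      size Z F.Qk F.N C1 ≤ size Z F.Qk0 F.N C0 + C * top F P / P.η ∧
      ∑ i0 ∈ range k, F.Tf Z s
        (mx (fun i n b => X i (n + b)) (fun i => pred Z F.Qk dt C1 F.z (X i)) i0) ≤ C * P.η

/-- section 6 -/
def S_TEST1 : Prop := ∀ k : ℕ, ∃ C : ℕ, ∀ (F : Fam) (P : Par), F.k = k → Hyp F P C →
  ∀ (A : Type) [Fintype A] (dt : ℕ → A) (Z : ℕ) (C0 : ℕ → Finset ℕ) (s : ℕ → ℝ)
    (y : ℕ → Fin Z → ℕ → ℝ), Dat F P A Z C0 → (∀ d, |s d| ≤ 1) → (∀ i n b, |y i n b| ≤ 1) →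
    (∀ i b, Ms (gl Z F.Qk0 dt C0) fun n => y i n b) →
    |F.Tf Z s y - Tfr F Z s y| ≤ C * P.η

/-- section 7, with sections 8 and 9 -/
def S_SEC7 : Prop := ∀ k : ℕ, ∃ C : ℕ, ∀ δ Cw : ℝ, 0 < δ → ∃ C2 : ℕ, ∀ (F : Fam) (P : Par),
  F.k = k → P.Cw = Cw → Hyp F P C → Hyp7 F P C2 → ∀ (η : ℝ) (L : ℕ), 0 < η → ∃ N0 : ℕ,
  ∀ (A : Type) [Fintype A] (dt : ℕ → A) (Z : ℕ) (C0 : ℕ → Finset ℕ) (s : ℕ → ℝ) (X : ℕ → ℕ → ℝ)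
    (i0 N : ℕ), N0 ≤ N → N ≤ Z → Z ≤ L * N → Dat F P A Z C0 → (∀ d, |s d| ≤ 1) →
    (∀ i n, |X i n| ≤ 1) → i0 < k → Cen η N (X i0) →
    Tfr F Z s (fun i => pred Z F.Qk0 dt C0 F.z0 (X i)) ≤ δ

/-! ### Section 7 without the model -/

/-- the free form with one function for each site -/
noncomputable def fre {ι : Type} {Z : ℕ} (d : D7 ι Z) (G : ℕ → Fin Z → ℕ → ℝ) (r : ℕ) : ℝ :=
  ex fun n : Fin Z => ∑ c ∈ d.CC, d.wh c * |∑ p ∈ d.P c, d.th c p / p *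
    ∑ a ∈ (cel d.N (d.cv c) n).filter (fun a => a + r * (d.cv c * p) < d.N),
      ∏ i ∈ range (r + 1), G i n (a + i * (d.cv c * p))|

/-- the site functions G, of which the one in the role i0 is the function of the data -/
structure Ext {ι : Type} {Z : ℕ} (d : D7 ι Z) (G : ℕ → Fin Z → ℕ → ℝ) (r i0 : ℕ) (δ ℓ : ℝ) :
    Prop where
  role : i0 ≤ r
  eq : G i0 = d.F
  Gw : ∀ i, ∀ c ∈ d.CC, ∀ (n : Fin Z) (b m : ℕ), b < d.N → n + b = d.cv c * m → |G i n b| ≤ d.w m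
  fr : δ * ℓ * d.N ≤ fre d G r

/-- section 7 -/
def S_Sec7 : Prop := ∀ (r L : ℕ) (δ : ℝ), 0 < δ → ∃ (A : Set (ℤ → ℂ)) (c2 : ℝ) (C : ℕ),
  Ax.Good A ∧ (fun _ => 1) ∈ Ax.res A ∧ 0 < c2 ∧ c2 ≤ 1 ∧
  ∀ (ι : Type) (Z : ℕ) (d : D7 ι Z) (G : ℕ → Fin Z → ℕ → ℝ) (i0 : ℕ) (Om wb τ ℓ K cm M Y : ℝ),
    d.Hyp r L 0 Om wb τ ℓ c2 (Real.exp (Om ^ C)) → Ext d G r i0 δ ℓ → (∀ n, |d.f n| ≤ 1) →
    (∀ c ∈ d.CC, (d.cv c : ℝ) ≤ cm) →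
    (∀ u : ℝ, ∑ c ∈ d.CC.filter (fun c => u ≤ Real.log (d.cv c) ∧ Real.log (d.cv c) ≤ u + 1),
      d.wh c / d.cv c ≤ K / M) →
    1 ≤ K → 1 ≤ M → 1 ≤ cm → d.N ≤ Z → 16 * Real.exp M ≤ c2 / Om * Y →
    16 * Y * cm ≤ c2 / Om * Z → 2 * Z ≤ Y * Real.exp M → 64 * Real.exp M * cm ≤ c2 / Om * d.N →
    Pot (Ax.hull (Ax.res A)) (fun n => (d.f n : ℂ)) Y M ((c2 / Om / K) ^ 2 / 128)

/-- no data of section 7 far out -/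
def S_No7 : Prop := ∀ (r L : ℕ) (δ : ℝ), 0 < δ → ∃ (η : ℝ) (C : ℕ), 0 < η ∧ η ≤ 1 ∧
  ∀ (Om cm M η' : ℝ) (B : ℕ), (C : ℝ) ≤ Om → 1 ≤ cm → 1 ≤ M → Om ^ C ≤ Real.log M →
    Om ^ 2 * cm ≤ Real.exp M → 0 < η' → ∃ N0 : ℕ,
    ∀ (ι : Type) (Z : ℕ) (d : D7 ι Z) (G : ℕ → Fin Z → ℕ → ℝ) (i0 N : ℕ) (wb τ ℓ a : ℝ)
      (T : Finset ℕ) (W : Finset ℕ → ℝ) (x : ℕ → ℝ), N0 ≤ N → N ≤ Z → Z ≤ B * N → d.N ≤ B →
      d.Hyp r L 0 Om wb τ ℓ η (Real.exp (Om ^ C)) → Ext d G r i0 δ ℓ →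
      (∀ p ∈ T, p.Prime ∧ p ≤ B ∧ a ≤ Real.log p ∧ Real.log p ≤ a * Om) → (∀ S, |W S| ≤ 1) →
      Cen η' N x → (∀ n, (d.f n : ℂ) = wx T W x n) → (∀ c ∈ d.CC, (d.cv c : ℝ) ≤ cm) →
      (∀ u : ℝ, ∑ c ∈ d.CC.filter (fun c => u ≤ Real.log (d.cv c) ∧ Real.log (d.cv c) ≤ u + 1),
        d.wh c / d.cv c ≤ Om / M) →
      a ≤ M → Om ^ 2 * (Real.exp M * cm) ≤ d.N → False

/-! ### Sections 8 and 9 -/

/-- the local plain step -/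
def S_Loc : Prop := ∀ A : Set (ℕ → ℂ), Ax.Sys A → ∃ C : ℝ, 0 < C ∧
  ∀ (f : ℕ → ℂ) (Y M a U σ ε v : ℝ), (∀ n, ‖f n‖ ≤ 1) → Nv f a U (100 * σ ^ 2 * M) → a ≤ M →
    1 ≤ U → 0 < ε → ε ≤ 1 → 1 ≤ σ → 1 ≤ Y → C * U ^ 2 ≤ ε ^ 6 * Real.log σ → σ ^ 60 ≤ M →
    σ ^ 12 * M ≤ Real.log Y → Pot (Ax.hull A) f Y M v → ∃ Y' M' : ℝ, Y ≤ Y' ∧
      Y' ≤ Y * Real.exp (3 * M * σ ^ 6) ∧ M * σ ≤ M' ∧ M' ≤ 8 * M * σ ∧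
      Pot (Ax.hull A) f Y' M' (v - ε)

/-- the iteration, inside a short range of scales -/
def S_Iter : Prop := ∀ A : Set (ℕ → ℂ), Ax.Sys A → ∃ C : ℝ, 0 < C ∧
  ∀ (f : ℕ → ℂ) (Y M a U v r θ : ℝ), (∀ n, ‖f n‖ ≤ 1) → Nv f a U (θ * Real.log Y) → a ≤ M →
    1 ≤ U → 0 < v → v ≤ 1 → 1 ≤ M → 1 ≤ r → 1 ≤ Y → C * U ^ 2 ≤ v ^ 6 * Real.log M →
    C * U ^ 2 ≤ v ^ 6 * Real.log r → 0 < θ → θ ≤ 1 → 10 ^ 6 ≤ θ ^ 4 * r →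
    32 * M ≤ θ ^ 2 * Real.log Y → Pot (Ax.hull A) f Y M v → ∃ Y' M' : ℝ, Y ≤ Y' ∧
      Real.log Y' ≤ r * M' ∧ Real.log Y' + M' ≤ (1 + θ) * Real.log Y ∧
      Pot (Ax.hull A) f Y' M' (v / 2)

/-- the last step -/
def S_Fin : Prop := ∀ A : Set (ℤ → ℂ), Ax.Good A → (fun _ => 1) ∈ Ax.res A →
  ∀ (Z : ℕ) (v η : ℝ), 0 < v → 0 < η → ∃ θ : ℝ, 0 < θ ∧ ∀ r : ℝ, 0 < r → ∃ N0 : ℕ,
    ∀ (N : ℕ) (T : Finset ℕ) (W : Finset ℕ → ℝ) (x : ℕ → ℝ) (Y M : ℝ), N0 ≤ N →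
      (∀ p ∈ T, p.Prime ∧ p ≤ Z) → (∀ S, |W S| ≤ 1) → Cen η N x → 0 < Y →
      (1 - θ) * Real.log N ≤ Real.log Y → Real.log Y + M ≤ (1 + θ) * Real.log N →
      Real.log Y ≤ r * M → ¬ Pot (Ax.hull (Ax.res A)) (wx T W x) Y M v

/-- sections 8 and 9 together -/
def S_NoPot : Prop := ∀ A : Set (ℤ → ℂ), Ax.Good A → (fun _ => 1) ∈ Ax.res A → ∃ C : ℝ, 0 < C ∧
  ∀ (Z : ℕ) (v U η : ℝ), 0 < v → v ≤ 1 → 1 ≤ U → 0 < η → ∃ N0 : ℕ,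
    ∀ (N : ℕ) (T : Finset ℕ) (W : Finset ℕ → ℝ) (x : ℕ → ℝ) (a Y M : ℝ), N0 ≤ N →
      (∀ p ∈ T, p.Prime ∧ p ≤ Z ∧ a ≤ Real.log p ∧ Real.log p ≤ a * U) → (∀ S, |W S| ≤ 1) →
      Cen η N x → a ≤ M → 1 ≤ M → C * U ^ 2 ≤ v ^ 6 * Real.log M → (N : ℝ) ≤ Z * Y →
      Y ≤ Z * N → M ≤ Z → ¬ Pot (Ax.hull (Ax.res A)) (wx T W x) Y M v

/-! ### The result -/

/-- the conclusion of the blocks -/
def S_Main : Prop := ∀ (k R M L : ℕ) (η δ : ℝ), 2 ≤ k → 0 < η → 0 < δ → ∃ N0 : ℕ,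
  ∀ (N X i0 : ℕ) (cr : ℕ → ℝ) (s : Fin R → ℕ → ℝ) (x : Fin R → ℕ → ℕ → ℝ) (B : Type) [Fintype B]
    (db : ℕ → B), N0 ≤ N → N ≤ X → X ≤ L * N → i0 < k → Fintype.card B ≤ M →
    (∀ n, |cr n| ≤ 1) → (∀ j d, |s j d| ≤ 1) → (∀ j i n, |x j i n| ≤ 1) →
    (∀ n n', db n = db n' → ∀ j i, x j i n = x j i n') → (∀ j, Cen η N (x j i0)) →
    (∀ c : Finset ℕ, (∀ q ∈ c, q.Prime ∧ (q : ℝ) ≤ (N : ℝ) ^ η) → ∀ m, 0 < m →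
      ∑ j, s j (pv c) * ∏ i ∈ range k, x j i (pv c * (m + i)) = cr m) →
    |∑ n ∈ Icc 1 X, cr n| ≤ δ * X

/-- independence of the values along the forms, at every scale -/
def S_GA : Prop := ∀ (k : ℕ) (a b : Fin k → ℕ) (η δ : ℝ) (V : Finset ℂ), (∀ i, 0 < a i) →
  (∀ i j, i ≠ j → a i * b j ≠ a j * b i) → 0 < η → 0 < δ →
  ∀ᶠ N : ℕ in atTop, ∀ f : Fin k → ℕ → ℂ,
    (∀ i, UCM (f i) ∧ Tr ((N : ℝ) ^ η) (f i) ∧ ∀ n, f i n ∈ V) →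
    ‖av (fun n => ∏ i, f i (a i * n + b i)) N - ∏ i, av (f i) N‖ ≤ δ

/-! ### Basic facts -/

theorem Cen.abs_le {η : ℝ} {N : ℕ} {x : ℕ → ℝ} (h : Cen η N x) {n : ℕ} (hn : n ≠ 0) :
    |x n| ≤ 1 := by
  obtain ⟨g, ω, hg, -, hω, hx⟩ := h
  rw [hx n hn]
  refine (Complex.abs_re_le_norm _).trans ?_
  rw [norm_mul]
  have h1 : ‖g n - av g N‖ ≤ 2 := by
    linarith [norm_sub_le (g n) (av g N), hg.1.bd n, V.norm_av_le hg.1.bd N]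
  nlinarith [norm_nonneg ω, norm_nonneg (g n - av g N)]

theorem Cen.prime_mul {η : ℝ} {N : ℕ} {x : ℕ → ℝ} (h : Cen η N x) {p : ℕ} (hp : p.Prime)
    (hy : (p : ℝ) ≤ (N : ℝ) ^ η) (n : ℕ) : x (p * n) = x n := by
  obtain ⟨g, ω, hg, ht, -, hx⟩ := h
  rcases eq_or_ne n 0 with rfl | hn
  · rw [mul_zero]
  · rw [hx n hn, hx _ (mul_ne_zero hp.ne_zero hn), hg.1.mul p n hp.ne_zero hn, ht p hp hy, one_mul]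

theorem Cen.pv_mul {η : ℝ} {N : ℕ} {x : ℕ → ℝ} (h : Cen η N x) {c : Finset ℕ}
    (hc : ∀ q ∈ c, q.Prime ∧ (q : ℝ) ≤ (N : ℝ) ^ η) (n : ℕ) : x (pv c * n) = x n := by
  induction c using Finset.induction_on with
  | empty => simp [pv]
  | insert q c hq ih =>
    have e : pv (insert q c) = q * pv c := prod_insert hq
    rw [e, mul_assoc, h.prime_mul (hc q (mem_insert_self _ _)).1 (hc q (mem_insert_self _ _)).2,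
      ih fun r hr => hc r (mem_insert_of_mem hr)]

theorem norm_wx {η : ℝ} {N : ℕ} {x : ℕ → ℝ} (hx : Cen η N x) {T : Finset ℕ} {W : Finset ℕ → ℝ}
    (h : ∀ S, |W S| ≤ 1) (n : ℕ) : ‖wx T W x n‖ ≤ 1 := by
  unfold wx
  split_ifs with hn
  · simp
  · rw [Complex.norm_real, Real.norm_eq_abs, abs_mul]
    exact mul_le_one₀ (h _) (abs_nonneg _) (hx.abs_le hn)

theorem wx_mul {η : ℝ} {N : ℕ} {x : ℕ → ℝ} (hx : Cen η N x) {T : Finset ℕ}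
    (hT : ∀ q ∈ T, q.Prime) (W : Finset ℕ → ℝ) {p : ℕ} (hp : p.Prime) (h : p ∉ T)
    (hy : (p : ℝ) ≤ (N : ℝ) ^ η) (n : ℕ) : wx T W x (p * n) = wx T W x n := by
  rcases eq_or_ne n 0 with rfl | hn
  · rw [mul_zero]
  · have e : T.filter (fun q => q ∣ p * n) = T.filter fun q => q ∣ n := filter_congr fun q hq => by
      rw [(hT q hq).dvd_mul, Nat.prime_dvd_prime_iff_eq (hT q hq) hp]
      exact ⟨fun h' => h'.resolve_left fun e => h (e ▸ hq), Or.inr⟩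
    rw [wx, wx, if_neg (mul_ne_zero hp.ne_zero hn), if_neg hn, e, hx.prime_mul hp hy]

end Pool.Agent.P.MP_4ef411_nt.Al
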