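import Pool.Agent.P.MP_4ef411_nt.Al.Bias
import Pool.Agent.P.MP_4ef411_nt.Al.Comp
import Pool.Agent.P.MP_4ef411_nt.Al.Fin
import Pool.Agent.P.MP_4ef411_nt.Al.Glue
import Pool.Agent.P.MP_4ef411_nt.Al.Iter
import Pool.Agent.P.MP_4ef411_nt.Al.Loc
import Pool.Agent.P.MP_4ef411_nt.Al.Par
import Pool.Agent.P.MP_4ef411_nt.Al.Red
import Pool.Agent.P.MP_4ef411_nt.Al.S7M
import Pool.Agent.P.MP_4ef411_nt.Al.Sec7
import Pool.Agent.P.MP_4ef411_nt.Al.Test1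
import Pool.Agent.P.MP_a14ce1_nt.Fu.PaTop
import Pool.Agent.P.MP_a14ce1_nt.Fu.Role

/-! The blocks put together. -/

namespace Pool.Agent.P.MP_4ef411_nt.Al

open Pool.Agent.P.MP_a14ce1_nt

theorem main_all : S_Main :=
  main bias comp Fu.St.role test1 (sec7M (no7 sec7 (noPot (iter loc) fin))) (par Fu.Pa.par_top)
    Fu.St.s_vv

theorem ga_all : S_GA := ga main_all

end Pool.Agent.P.MP_4ef411_nt.Al
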